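import Mathlib

/-!
# MP_892329_co, stream SF: stress-free graphs are (2 - 10^-5) d colourable. Base file (complete, no jobs here)

Everything happens in one ambient graph `G` on a finite type `V`; all degrees etc. are taken in finsets `A` of vertices.
-/

set_option autoImplicit false

namespace MP892329.SF

open Finset

variable {V : Type} [Fintype V] [DecidableEq V]

/-- neighbours of `x` in the finset `A` -/
noncomputable def nb (G : SimpleGraph V) (A : Finset V) (x : V) : Finset V := by
  classical exact A.filter (fun y => G.Adj x y)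

omit [Fintype V] [DecidableEq V] in
theorem mem_nb {G : SimpleGraph V} {A : Finset V} {x y : V} :
    y ∈ nb G A x ↔ y ∈ A ∧ G.Adj x y := by
  classical simp [nb]

omit [Fintype V] [DecidableEq V] in
theorem nb_sub (G : SimpleGraph V) (A : Finset V) (x : V) : nb G A x ⊆ A :=
  fun _ h => (mem_nb.1 h).1

omit [Fintype V] [DecidableEq V] in
theorem nb_mono (G : SimpleGraph V) {A B : Finset V} (h : A ⊆ B) (x : V) :
    nb G A x ⊆ nb G B x :=
  fun _ hy => mem_nb.2 ⟨h (mem_nb.1 hy).1, (mem_nb.1 hy).2⟩

omit [Fintype V] [DecidableEq V] in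
theorem not_mem_nb_self (G : SimpleGraph V) (A : Finset V) (x : V) : x ∉ nb G A x :=
  fun h => G.loopless.irrefl x (mem_nb.1 h).2

omit [Fintype V] in
theorem nb_union (G : SimpleGraph V) (A B : Finset V) (x : V) :
    nb G (A ∪ B) x = nb G A x ∪ nb G B x := by
  ext y; simp only [mem_nb, mem_union]; tauto

omit [Fintype V] in
/-- for disjoint `A`, `B` the degrees add -/
theorem card_nb_union (G : SimpleGraph V) {A B : Finset V} (h : Disjoint A B) (x : V) :
    (nb G (A ∪ B) x).card = (nb G A x).card + (nb G B x).card := by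
  rw [nb_union, card_union_of_disjoint]
  exact Disjoint.mono (nb_sub G A x) (nb_sub G B x) h

omit [Fintype V] in
/-- `deg_A = deg_U + deg_(A minus U)` for `U ⊆ A` -/
theorem card_nb_sdiff (G : SimpleGraph V) {A U : Finset V} (h : U ⊆ A) (x : V) :
    (nb G A x).card = (nb G U x).card + (nb G (A \ U) x).card := by
  rw [← card_nb_union G disjoint_sdiff, union_sdiff_of_subset h]

/-- number of ordered adjacent pairs in `A` (twice the number of edges inside `A`) -/
noncomputable def e2 (G : SimpleGraph V) (A : Finset V) : ℕ := ∑ x ∈ A, (nb G A x).card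

/-- `(F1)`: every finset `A` spans at most `d |A|` edges -/
def F1 (G : SimpleGraph V) (d : ℕ) : Prop := ∀ A : Finset V, (e2 G A : ℝ) ≤ 2 * d * A.card

/-- `(F2)`: a set `N` of at least `d` neighbours of a vertex spans at most `d |N| - d ^ 2 / 2` edges -/
def F2 (G : SimpleGraph V) (d : ℕ) : Prop :=
  ∀ (v : V) (N : Finset V), (∀ x ∈ N, G.Adj v x) → d ≤ N.card →
    (e2 G N : ℝ) ≤ 2 * d * N.card - (d : ℝ) ^ 2

/-- the expected number (divided by the activation probability) of neighbours of `v` in `U` whose random colour is not in `L v` -/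
noncomputable def out {K : ℕ} (G : SimpleGraph V) (U : Finset V) (L : V → Finset (Fin K)) (v : V) : ℝ :=
  ∑ x ∈ nb G U v, ((L x \ L v).card : ℝ) / ((L x).card : ℝ)

/-- the expected number of unordered pairs of nonadjacent neighbours of `v` with the same random colour in `L v` -/
noncomputable def pr {K : ℕ} (G : SimpleGraph V) (U : Finset V) (L : V → Finset (Fin K)) (v : V) : ℝ := by
  classical exact
  (1 / 2) * ∑ x ∈ nb G U v, ∑ y ∈ nb G U v,
    if x ≠ y ∧ ¬ G.Adj x y then
      ((L x ∩ L y ∩ L v).card : ℝ) / (((L x).card : ℝ) * ((L y).card : ℝ)) else 0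

/-- proper colouring of the vertices of `A` with colours from the lists -/
def LCol {K : ℕ} (G : SimpleGraph V) (A : Finset V) (L : V → Finset (Fin K)) (f : V → Fin K) : Prop :=
  (∀ x ∈ A, f x ∈ L x) ∧ ∀ x ∈ A, ∀ y ∈ A, G.Adj x y → f x ≠ f y

end MP892329.SF
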