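import Mathlib

/-!
# JOB Chn: conditional Chernoff bound

`Bad ω w ⊆ α` depends only on the coordinates of `ω` in `S`. Put `Z ω = #{w ∉ S : ω w ∈ Bad ω w}`, `R ω = ∑ w ∉ S, |Bad ω w| / |α|`, `k = exp lam - 1 ≥ 0`.
Claim `∑ ω, exp (lam Z ω - k R ω) ≤ |α|^|ι|`.
Proof. Split `ω = (σ, τ)`, `σ` on `S`, `τ` on the complement (`Equiv.piEquivPiSubtypeProd`), `Bad` and `R` depend only on `σ`. For fixed `σ`:
`∑ τ, exp (lam Z) = ∑ τ, ∏ w ∉ S, (if τ w ∈ Bad w then exp lam else 1) = ∏ w ∉ S, (|α| + k |Bad w|)` (`Finset.prod_univ_sum`, `Fintype.piFinset_univ`)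
`≤ ∏ w ∉ S, |α| exp (k |Bad w| / |α|) = |α|^(|ι| - |S|) exp (k R)`. Multiply by `exp (- k R)` and sum over the `|α|^|S|` functions `σ`.
(You may instead do induction or any other route.)
-/

set_option autoImplicit false

namespace MP892329.SF

open Finset

private theorem chn_inner {κ α : Type} [Fintype κ] [DecidableEq κ] [Fintype α] [DecidableEq α]
    [Nonempty α] (B : κ → Finset α) (lam : ℝ) :
    ∑ τ : κ → α, Real.exp (lam * ((univ.filter (fun w => τ w ∈ B w)).card : ℝ) -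
        (Real.exp lam - 1) * ∑ w, ((B w).card : ℝ) / (Fintype.card α : ℝ)) ≤
      (Fintype.card α : ℝ) ^ (Fintype.card κ) := by
  have hα : (0 : ℝ) < Fintype.card α := by exact_mod_cast Fintype.card_pos
  have h1 : ∀ τ : κ → α, Real.exp (lam * ((univ.filter (fun w => τ w ∈ B w)).card : ℝ) -
        (Real.exp lam - 1) * ∑ w, ((B w).card : ℝ) / (Fintype.card α : ℝ)) =
      (∏ w, if τ w ∈ B w then Real.exp lam else 1) *
        Real.exp (-((Real.exp lam - 1) * ∑ w, ((B w).card : ℝ) / (Fintype.card α : ℝ))) := by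
    intro τ
    rw [sub_eq_add_neg, Real.exp_add, mul_comm lam, Real.exp_nat_mul, Finset.prod_ite,
      Finset.prod_const, Finset.prod_const_one, mul_one]
  have h2 : ∑ τ : κ → α, (∏ w, if τ w ∈ B w then Real.exp lam else 1) =
      ∏ w : κ, ∑ a : α, (if a ∈ B w then Real.exp lam else 1) := by
    rw [Finset.prod_univ_sum, Fintype.piFinset_univ]
  have h3 : ∀ w : κ, ∑ a : α, (if a ∈ B w then Real.exp lam else 1) ≤
      (Fintype.card α : ℝ) *
        Real.exp ((Real.exp lam - 1) * (((B w).card : ℝ) / (Fintype.card α : ℝ))) := by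
    intro w
    have h4 : ∑ a : α, (if a ∈ B w then Real.exp lam else 1) =
        (Fintype.card α : ℝ) + (Real.exp lam - 1) * ((B w).card : ℝ) := by
      have h5 : ∀ a : α, (if a ∈ B w then Real.exp lam else 1) =
          1 + (Real.exp lam - 1) * (if a ∈ B w then 1 else 0) := by
        intro a
        by_cases ha : a ∈ B w
        · rw [if_pos ha, if_pos ha]
          ring
        · rw [if_neg ha, if_neg ha]
          ring
      rw [Finset.sum_congr rfl fun a _ => h5 a, Finset.sum_add_distrib, ← Finset.mul_sum,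
        Finset.sum_boole, Finset.sum_const, Finset.card_univ, nsmul_eq_mul, mul_one]
      have h6 : (univ.filter fun a => a ∈ B w) = B w := by
        ext a
        simp
      rw [h6]
    rw [h4]
    have h7 := Real.add_one_le_exp ((Real.exp lam - 1) * (((B w).card : ℝ) /
      (Fintype.card α : ℝ)))
    have h8 := mul_le_mul_of_nonneg_left h7 hα.le
    refine le_trans (le_of_eq ?_) h8
    field_simp
    ring
  have h9 : ∀ w : κ, 0 ≤ ∑ a : α, (if a ∈ B w then Real.exp lam else 1) := by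
    intro w
    refine Finset.sum_nonneg fun a _ => ?_
    split_ifs
    · exact (Real.exp_pos _).le
    · exact zero_le_one
  have h10 : ∏ w : κ, ∑ a : α, (if a ∈ B w then Real.exp lam else 1) ≤
      (Fintype.card α : ℝ) ^ (Fintype.card κ) *
        Real.exp ((Real.exp lam - 1) * ∑ w, ((B w).card : ℝ) / (Fintype.card α : ℝ)) := by
    refine (Finset.prod_le_prod (fun w _ => h9 w) fun w _ => h3 w).trans (le_of_eq ?_)
    rw [Finset.prod_mul_distrib, Finset.prod_const, Finset.card_univ, ← Real.exp_sum,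
      Finset.mul_sum]
  rw [Finset.sum_congr rfl fun τ _ => h1 τ, ← Finset.sum_mul, h2]
  refine (mul_le_mul_of_nonneg_right h10 (Real.exp_pos _).le).trans (le_of_eq ?_)
  rw [mul_assoc, ← Real.exp_add, add_neg_cancel, Real.exp_zero, mul_one]

theorem chn {ι α : Type} [Fintype ι] [DecidableEq ι] [Fintype α] [DecidableEq α] [Nonempty α]
    (S : Finset ι) (Bad : (ι → α) → ι → Finset α)
    (hB : ∀ ω ω' : ι → α, (∀ i ∈ S, ω i = ω' i) → Bad ω = Bad ω') (lam : ℝ) (hl : 0 ≤ lam) :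
    ∑ ω : ι → α, Real.exp (lam * (((univ \ S).filter (fun w => ω w ∈ Bad ω w)).card : ℝ) -
        (Real.exp lam - 1) * ∑ w ∈ univ \ S, ((Bad ω w).card : ℝ) / (Fintype.card α : ℝ)) ≤
      (Fintype.card α : ℝ) ^ (Fintype.card ι) := by
  have hmem : ∀ x : ι, x ∈ univ \ S ↔ ¬ x ∈ S := fun x => by simp
  have hone : ∑ _ω : ι → α, (1 : ℝ) = (Fintype.card α : ℝ) ^ (Fintype.card ι) := by
    rw [Finset.sum_const, Finset.card_univ, Fintype.card_fun, nsmul_eq_mul, mul_one]
    push_cast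
    rfl
  rw [← hone, ← (Equiv.piEquivPiSubtypeProd (fun i => i ∈ S) (fun _ => α)).symm.sum_comp,
    ← (Equiv.piEquivPiSubtypeProd (fun i => i ∈ S) (fun _ => α)).symm.sum_comp,
    Fintype.sum_prod_type, Fintype.sum_prod_type]
  refine Finset.sum_le_sum fun σ _ => ?_
  have hS : ∀ (τ : {i // ¬ i ∈ S} → α) (i : ι) (hi : i ∈ S),
      (Equiv.piEquivPiSubtypeProd (fun i => i ∈ S) (fun _ => α)).symm (σ, τ) i = σ ⟨i, hi⟩ := by
    intro τ i hi
    rw [Equiv.piEquivPiSubtypeProd_symm_apply, dif_pos hi]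
  have hC : ∀ (τ : {i // ¬ i ∈ S} → α) (i : {i // ¬ i ∈ S}),
      (Equiv.piEquivPiSubtypeProd (fun i => i ∈ S) (fun _ => α)).symm (σ, τ) i = τ i := by
    intro τ i
    rw [Equiv.piEquivPiSubtypeProd_symm_apply, dif_neg i.2]
  obtain ⟨τ0⟩ : Nonempty ({i // ¬ i ∈ S} → α) := inferInstance
  have hBad : ∀ τ : {i // ¬ i ∈ S} → α,
      Bad ((Equiv.piEquivPiSubtypeProd (fun i => i ∈ S) (fun _ => α)).symm (σ, τ)) =
      Bad ((Equiv.piEquivPiSubtypeProd (fun i => i ∈ S) (fun _ => α)).symm (σ, τ0)) := fun τ =>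
    hB _ _ fun i hi => by rw [hS τ i hi, hS τ0 i hi]
  have hin := chn_inner (fun w : {i // ¬ i ∈ S} =>
    Bad ((Equiv.piEquivPiSubtypeProd (fun i => i ∈ S) (fun _ => α)).symm (σ, τ0)) w) lam
  have hone' : ∑ _τ : {i // ¬ i ∈ S} → α, (1 : ℝ) =
      (Fintype.card α : ℝ) ^ (Fintype.card {i // ¬ i ∈ S}) := by
    rw [Finset.sum_const, Finset.card_univ, Fintype.card_fun, nsmul_eq_mul, mul_one]
    push_cast
    rfl
  rw [hone']
  refine le_trans (le_of_eq ?_) hin
  refine Finset.sum_congr rfl fun τ _ => ?_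
  rw [hBad τ]
  have h1 : ((univ \ S).filter (fun w =>
      (Equiv.piEquivPiSubtypeProd (fun i => i ∈ S) (fun _ => α)).symm (σ, τ) w ∈
        Bad ((Equiv.piEquivPiSubtypeProd (fun i => i ∈ S) (fun _ => α)).symm (σ, τ0)) w)).card =
      (univ.filter (fun w : {i // ¬ i ∈ S} => τ w ∈
        Bad ((Equiv.piEquivPiSubtypeProd (fun i => i ∈ S) (fun _ => α)).symm (σ, τ0)) w)).card := by
    rw [Finset.card_filter, Finset.card_filter, Finset.sum_subtype _ hmem]
    refine Finset.sum_congr rfl fun w _ => ?_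
    rw [hC τ w]
  rw [h1, Finset.sum_subtype _ hmem]

end MP892329.SF
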