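import Pool.Agent.Lib.MP_892329_co.SF.Base

/-!
# JOB Cnt: double counting

* `dbl`: both sides count the pairs `(x, y)`, `x ∈ A`, `y ∈ B`, `G.Adj x y` (use `Finset.card_eq_sum_ones`/`Finset.card_filter`,
  `Finset.sum_comm` and symmetry of `Adj`).
* `e2_union`: `∑ over W ∪ X` splits (`Finset.sum_union`), `|nb (W ∪ X) x| = |nb W x| + |nb X x|` (`card_nb_union`), and
  `∑ x ∈ W, |nb X x| = ∑ x ∈ X, |nb W x|` by `dbl`.
* `e2_le_sq`: every `x ∈ N` has at most `|N| - 1` neighbours in `N` (`nb G N x ⊆ N.erase x`), we only need `≤ |N|`.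
-/

set_option autoImplicit false

namespace MP892329.SF

open Finset

variable {V : Type} [Fintype V] [DecidableEq V]

theorem dbl (G : SimpleGraph V) (A B : Finset V) :
    ∑ x ∈ A, (nb G B x).card = ∑ y ∈ B, (nb G A y).card := by
  classical
  have key : ∀ (C : Finset V) (x : V), (nb G C x).card = ∑ y ∈ C, if G.Adj x y then 1 else 0 := by
    intro C x
    have e : nb G C x = C.filter (fun y => G.Adj x y) := by
      ext y
      simp only [mem_nb, mem_filter]
    rw [e, card_filter]
  simp only [key]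
  rw [sum_comm]
  refine sum_congr rfl fun y _ => sum_congr rfl fun x _ => ?_
  simp only [G.adj_comm]

theorem e2_union (G : SimpleGraph V) {W X : Finset V} (h : Disjoint W X) :
    e2 G (W ∪ X) = e2 G W + e2 G X + 2 * ∑ x ∈ X, (nb G W x).card := by
  have h1 : ∀ x, (nb G (W ∪ X) x).card = (nb G W x).card + (nb G X x).card :=
    fun x => card_nb_union G h x
  unfold e2
  rw [sum_union h]
  simp only [h1, sum_add_distrib]
  rw [dbl G W X]
  ring

theorem e2_le_sq (G : SimpleGraph V) (N : Finset V) : e2 G N ≤ N.card * N.card := by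
  unfold e2
  have h : ∑ x ∈ N, (nb G N x).card ≤ ∑ _x ∈ N, N.card :=
    sum_le_sum fun x _ => card_le_card (nb_sub G N x)
  rwa [sum_const, smul_eq_mul] at h

end MP892329.SF
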