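import Pool.Agent.Lib.MP_892329_co.SF.TokD

/-!
# JOB Dep: dependence

* `sur_congr`: `Sur` depends only on the coordinates in `Cs G U v` (`= nb G U v ∪ ⋃ x ∈ nb G U v, nb G U x`): `Sel` and `Tok` only need `nb G U v`; in the condition of `Sur` only
  `w ∈ U` adjacent to some `x ∈ Sel ω c ⊆ nb G U v` matter, and these `w` are in `nb G U x`.
* `card_dep`: for `v ∈ U` (all degrees in `U` at most `D`): `|Cs v| ≤ D + D^2`; for `w ∈ U` the number of `u ∈ U` with `w ∈ Cs u` is at most `D + D^2` as well (`w ∈ Cs u` iff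
  `w` is adjacent to `u` or there is `x ∈ nb G U u` adjacent to `w`, symmetric). `Cs u ∩ Cs v` nonempty means some `w ∈ Cs v` (so `w ∈ U`) with `w ∈ Cs u`. So at most `(D + D^2)^2` such `u`.
-/

set_option autoImplicit false

namespace MP892329.SF

open Finset

variable {V : Type} [Fintype V] [DecidableEq V] {K M : ℕ}

theorem sur_congr (G : SimpleGraph V) (U : Finset V) (L : V → Finset (Fin K)) (dec : V → Fin M → Option (Fin K)) (v : V)
    (ω ω' : V → Fin M) (h : ∀ i ∈ Cs G U v, ω i = ω' i) :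
    Sur G U L dec v ω = Sur G U L dec v ω' := by
  classical
  have hnb : ∀ x ∈ nb G U v, ω x = ω' x := fun x hx => h x (mem_union_left _ hx)
  have hSel : ∀ c, Sel G U dec v ω c = Sel G U dec v ω' c := by
    intro c
    ext x
    rw [mem_Sel, mem_Sel]
    constructor
    · rintro ⟨h1, h2⟩
      exact ⟨h1, by rw [← hnb x h1]; exact h2⟩
    · rintro ⟨h1, h2⟩
      exact ⟨h1, by rw [hnb x h1]; exact h2⟩
  have hTok : Tok G U L dec v ω = Tok G U L dec v ω' := by
    ext c
    rw [mem_Tok, mem_Tok, hSel c]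
  ext c
  rw [mem_Sur, mem_Sur, hTok, hSel c]
  have key : ∀ w ∈ U \ nb G U v, ∀ x ∈ Sel G U dec v ω' c, G.Adj w x → ω w = ω' w := by
    intro w hw x hx hadj
    apply h
    unfold Cs
    apply mem_union_right
    rw [mem_biUnion]
    exact ⟨x, (mem_Sel.1 hx).1, mem_nb.2 ⟨(mem_sdiff.1 hw).1, hadj.symm⟩⟩
  constructor
  · rintro ⟨h1, h2⟩
    refine ⟨h1, fun w hw hd x hx hadj => ?_⟩
    exact h2 w hw (by rw [key w hw x hx hadj]; exact hd) x hx hadj
  · rintro ⟨h1, h2⟩
    refine ⟨h1, fun w hw hd x hx hadj => ?_⟩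
    exact h2 w hw (by rw [← key w hw x hx hadj]; exact hd) x hx hadj

theorem card_dep (G : SimpleGraph V) (U : Finset V) (D : ℕ) (hD : ∀ x ∈ U, (nb G U x).card ≤ D) (v : V) (hv : v ∈ U) :
    (U.filter (fun u => ¬ Disjoint (Cs G U v) (Cs G U u))).card ≤ (D + D ^ 2) ^ 2 := by
  classical
  have hCs : ∀ w ∈ U, (Cs G U w).card ≤ D + D ^ 2 := by
    intro w hw
    unfold Cs
    refine (card_union_le _ _).trans ?_
    have h1 := hD w hw
    have h2 : ((nb G U w).biUnion fun x => nb G U x).card ≤ D ^ 2 := by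
      refine card_biUnion_le.trans ?_
      refine (sum_le_sum fun x hx => hD x (nb_sub G U w hx)).trans ?_
      rw [sum_const, smul_eq_mul, pow_two]
      exact Nat.mul_le_mul_right _ h1
    omega
  have hsub : ∀ u : V, Cs G U u ⊆ U := by
    intro u w hw
    unfold Cs at hw
    rcases mem_union.1 hw with h1 | h1
    · exact nb_sub G U u h1
    · obtain ⟨x, -, hx⟩ := mem_biUnion.1 h1
      exact nb_sub G U x hx
  have hsymm : ∀ u ∈ U, ∀ w ∈ Cs G U u, u ∈ Cs G U w := by
    intro u hu w hw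
    unfold Cs at hw ⊢
    rcases mem_union.1 hw with h1 | h1
    · exact mem_union_left _ (mem_nb.2 ⟨hu, (mem_nb.1 h1).2.symm⟩)
    · obtain ⟨x, hx1, hx2⟩ := mem_biUnion.1 h1
      refine mem_union_right _ (mem_biUnion.2 ⟨x, ?_, ?_⟩)
      · exact mem_nb.2 ⟨nb_sub G U u hx1, (mem_nb.1 hx2).2.symm⟩
      · exact mem_nb.2 ⟨hu, (mem_nb.1 hx1).2.symm⟩
  have hfil : U.filter (fun u => ¬ Disjoint (Cs G U v) (Cs G U u)) ⊆
      (Cs G U v).biUnion (fun w => Cs G U w) := by
    intro u hu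
    rw [mem_filter] at hu
    obtain ⟨hu1, hu2⟩ := hu
    rw [not_disjoint_iff] at hu2
    obtain ⟨w, hw1, hw2⟩ := hu2
    exact mem_biUnion.2 ⟨w, hw1, hsymm u hu1 w hw2⟩
  refine (card_le_card hfil).trans ?_
  refine card_biUnion_le.trans ?_
  refine (sum_le_sum fun w hw => hCs w (hsub v hw)).trans ?_
  rw [sum_const, smul_eq_mul, pow_two (D + D ^ 2)]
  exact Nat.mul_le_mul_right _ (hCs v hv)

end MP892329.SF
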