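import Pool.Agent.Lib.MP_892329_co.SF.Lll0

/-!
# JOB Lll: the local lemma for events on `ι → α` with bounded dependence

* `indep`: if `A` depends only on the coordinates in `S`, `B` only on those in `T`, and `S`, `T` are disjoint, then `|A ∩ B| |Ω| = |A| |B|`.
  (Split `ω = (σ, τ)`, `σ` on `S`, `τ` on the complement of `S` (`Equiv.piEquivPiSubtypeProd`): `A = A' × everything`, `B = everything × B'`.)
* `lll_prod`: apply `MP892329.SF.L0.lll` (file Lll0) with `N i = {j : C i and C j are not disjoint}`, `p i = p`. `hneg`: if all `j ∈ J` have `C j` disjoint from `C i`, then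
  `{ω : ∀ j ∈ J, ω ∉ A j}` depends only on `⋃ j ∈ J, C j`, disjoint from `C i`, so `indep` gives `|A i ∩ ..| |Ω| = |A i| |..| ≤ p |Ω| |..|`. `hN`: `|N i| p ≤ Δ p ≤ 1/4`.
  `p ≤ 1/4` since `Δ ≥ 1`. Take `lam = ∑ p`. Conclusion: the number of `ω` outside all `A i` is positive.
-/

set_option autoImplicit false

namespace MP892329.SF

open Finset

/-- take the values of `ω` on `S`, those of `η` elsewhere -/
private def lll_mix {ι α : Type} [DecidableEq ι] (S : Finset ι) (ω η : ι → α) : ι → α :=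
  fun x => if x ∈ S then ω x else η x

private theorem lll_mix_mix {ι α : Type} [DecidableEq ι] (S : Finset ι) (ω η : ι → α) :
    lll_mix S (lll_mix S ω η) (lll_mix S η ω) = ω := by
  funext x
  unfold lll_mix
  by_cases h : x ∈ S
  · simp [h]
  · simp [h]

theorem indep {ι α : Type} [Fintype ι] [DecidableEq ι] [Fintype α] [DecidableEq α]
    (A B : Finset (ι → α)) (S T : Finset ι) (hST : Disjoint S T)
    (hA : ∀ ω ω' : ι → α, (∀ i ∈ S, ω i = ω' i) → (ω ∈ A ↔ ω' ∈ A))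
    (hB : ∀ ω ω' : ι → α, (∀ i ∈ T, ω i = ω' i) → (ω ∈ B ↔ ω' ∈ B)) :
    (A ∩ B).card * Fintype.card (ι → α) = A.card * B.card := by
  have hmA : ∀ ω η : ι → α, lll_mix S ω η ∈ A ↔ ω ∈ A := by
    intro ω η
    refine hA _ _ fun i hi => ?_
    unfold lll_mix
    rw [if_pos hi]
  have hmB : ∀ ω η : ι → α, lll_mix S ω η ∈ B ↔ η ∈ B := by
    intro ω η
    refine hB _ _ fun i hi => ?_
    unfold lll_mix
    rw [if_neg fun h => Finset.disjoint_left.1 hST h hi]
  rw [← Finset.card_univ, ← Finset.card_product, ← Finset.card_product]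
  refine Finset.card_nbij' (fun q => (lll_mix S q.1 q.2, lll_mix S q.2 q.1))
    (fun q => (lll_mix S q.1 q.2, lll_mix S q.2 q.1)) ?_ ?_ ?_ ?_
  · intro q hq
    have h1 := (Finset.mem_product.1 hq).1
    rw [Finset.mem_inter] at h1
    exact Finset.mem_product.2 ⟨(hmA _ _).2 h1.1, (hmB _ _).2 h1.2⟩
  · intro q hq
    have h1 := Finset.mem_product.1 hq
    exact Finset.mem_product.2 ⟨Finset.mem_inter.2 ⟨(hmA _ _).2 h1.1, (hmB _ _).2 h1.2⟩,
      Finset.mem_univ _⟩
  · intro q _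
    exact Prod.ext (lll_mix_mix S q.1 q.2) (lll_mix_mix S q.2 q.1)
  · intro q _
    exact Prod.ext (lll_mix_mix S q.1 q.2) (lll_mix_mix S q.2 q.1)

private theorem lll_neg {ι α : Type} [Fintype ι] [DecidableEq ι] [Fintype α] [DecidableEq α]
    [Nonempty α] (A : Finset (ι → α)) (P : (ι → α) → Prop) (hd : DecidablePred P) (S T : Finset ι)
    (hST : Disjoint S T)
    (hA : ∀ ω ω' : ι → α, (∀ i ∈ S, ω i = ω' i) → (ω ∈ A ↔ ω' ∈ A))
    (hP : ∀ ω ω' : ι → α, (∀ i ∈ T, ω i = ω' i) → (P ω ↔ P ω')) {p : ℝ}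
    (hp : (A.card : ℝ) ≤ p * (Fintype.card α : ℝ) ^ (Fintype.card ι)) :
    ((A.filter P).card : ℝ) ≤ p * ((univ.filter P).card : ℝ) := by
  have e : A.filter P = A ∩ univ.filter P := by
    ext ω
    simp
  have h1 := indep A (univ.filter P) S T hST hA (fun ω ω' h => by
    rw [Finset.mem_filter, Finset.mem_filter]
    have := hP ω ω' h
    simp [this])
  rw [← e, Fintype.card_fun] at h1
  have h2 : ((A.filter P).card : ℝ) * (Fintype.card α : ℝ) ^ (Fintype.card ι) =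
      (A.card : ℝ) * ((univ.filter P).card : ℝ) := by exact_mod_cast h1
  have h3 : (0 : ℝ) < (Fintype.card α : ℝ) ^ (Fintype.card ι) :=
    pow_pos (Nat.cast_pos.2 Fintype.card_pos) _
  have h4 : (A.card : ℝ) * ((univ.filter P).card : ℝ) ≤
      p * (Fintype.card α : ℝ) ^ (Fintype.card ι) * ((univ.filter P).card : ℝ) :=
    mul_le_mul_of_nonneg_right hp (Nat.cast_nonneg _)
  rw [← h2] at h4
  refine le_of_mul_le_mul_right (h4.trans (le_of_eq ?_)) h3
  ring

private theorem lll_mem {Ω : Type} [Fintype Ω] (P : Ω → Prop) (hd : DecidablePred P) {ω : Ω}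
    (h : ω ∈ univ.filter P) : P ω :=
  (Finset.mem_filter.1 h).2

theorem lll_prod {ι α I : Type} [Fintype ι] [DecidableEq ι] [Fintype α] [DecidableEq α] [Nonempty α]
    [Fintype I] [DecidableEq I] (A : I → Finset (ι → α)) (C : I → Finset ι)
    (hdep : ∀ (i : I) (ω ω' : ι → α), (∀ x ∈ C i, ω x = ω' x) → (ω ∈ A i ↔ ω' ∈ A i))
    (p : ℝ) (hp0 : 0 ≤ p)
    (hp : ∀ i, ((A i).card : ℝ) ≤ p * (Fintype.card α : ℝ) ^ (Fintype.card ι))
    (Del : ℕ) (hDel1 : 1 ≤ Del)
    (hDel : ∀ i, (univ.filter (fun j => ¬ Disjoint (C i) (C j))).card ≤ Del)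
    (h : (Del : ℝ) * p ≤ 1 / 4) : ∃ ω : ι → α, ∀ i, ω ∉ A i := by
  have hD1 : (1 : ℝ) ≤ Del := by exact_mod_cast hDel1
  have h1 := L0.lll A (fun i => univ.filter (fun j => ¬ Disjoint (C i) (C j))) (fun _ => p)
    (fun _ => hp0) (fun i J hJ => by
      refine lll_neg (A i) _ _ (C i) (J.biUnion C) ?_ (hdep i) ?_ (hp i)
      · rw [Finset.disjoint_biUnion_right]
        intro j hj
        have h2 := hJ j hj
        rw [Finset.mem_filter] at h2
        by_contra h3
        exact h2 ⟨Finset.mem_univ _, h3⟩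
      · intro ω ω' hω
        have h2 : ∀ j ∈ J, (ω ∈ A j ↔ ω' ∈ A j) := fun j hj =>
          hdep j ω ω' fun x hx => hω x (Finset.mem_biUnion.2 ⟨j, hj, hx⟩)
        exact ⟨fun h3 j hj h4 => h3 j hj ((h2 j hj).2 h4),
          fun h3 j hj h4 => h3 j hj ((h2 j hj).1 h4)⟩)
    (fun i => by
      rw [Finset.sum_const, nsmul_eq_mul]
      refine le_trans (mul_le_mul_of_nonneg_right ?_ hp0) h
      exact_mod_cast hDel i)
    (fun _ => by nlinarith) (∑ _i : I, p) le_rfl
  have h2 : (0 : ℝ) < (1 / 16 : ℝ) ^ (∑ _i : I, p) * (Fintype.card (ι → α) : ℝ) :=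
    mul_pos (Real.rpow_pos_of_pos (by norm_num) _) (Nat.cast_pos.2 Fintype.card_pos)
  have h3 := Nat.cast_pos.1 (h2.trans_le h1)
  obtain ⟨ω, hω⟩ := Finset.card_pos.1 h3
  exact ⟨ω, lll_mem _ _ hω⟩

end MP892329.SF
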