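import Pool.Agent.Lib.MP_892329_co.SF.TokD

/-!
# JOB Kill: destroyed tokens

* `sur_ge`: let `Z = #{w ∉ nb G U v : ω w ∈ Bad ω w}`. A token `c` which does not survive has a `w ∈ U \ nb G U v` with `dec w (ω w) = some c`, adjacent to a
  vertex of `Sel ω c`, so `ω w ∈ Bad ω w`; different tokens give different `w` (the colour of `w` is the token). So `|Tok| - |Sur| ≤ Z`
  (`Finset.card_le_card_of_injOn` or `Finset.card_le_card_of_surjOn` from the bad `w` onto the destroyed tokens).
* `sum_bad`: for `w ∈ U \ nb G U v`: `|Bad ω w| ≤ ∑ c ∈ Tok ω, ∑ x ∈ Sel ω c, (if G.Adj w x then #{j : dec w j = some c} else 0)` and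
  `#{j : dec w j = some c} ≤ M / (10 lm)` (`IsDec`: `= M / (10 |L w|)` if `c ∈ L w`, `0` otherwise). Sum over `w` (`Bad` is empty for the other `w`): for fixed `x` the number of `w ∈ U`
  adjacent to `x` is `|nb G U x| ≤ Dm`, and `|Sel ω c| ≤ 2` for a token. So `∑ w, |Bad ω w| / M ≤ |Tok ω| * 2 * Dm / (10 lm)`.
* `bad_congr`: `Bad ω` depends only on the coordinates in `nb G U v` (as `Sel`, `Tok` do; prove it directly from the definitions).
-/

set_option autoImplicit false

namespace MP892329.SF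

open Finset

variable {V : Type} [Fintype V] [DecidableEq V] {K M : ℕ}

theorem sur_ge (G : SimpleGraph V) (U : Finset V) (L : V → Finset (Fin K)) (dec : V → Fin M → Option (Fin K)) (v : V)
    (ω : V → Fin M) :
    (Tok G U L dec v ω).card ≤ (Sur G U L dec v ω).card +
      ((univ \ nb G U v).filter (fun w => ω w ∈ Bad G U L dec v ω w)).card := by
  classical
  have hsub : Sur G U L dec v ω ⊆ Tok G U L dec v ω := fun c hc => (mem_Sur.1 hc).1
  have h1 : (Tok G U L dec v ω \ Sur G U L dec v ω).image some ⊆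
      ((univ \ nb G U v).filter (fun w => ω w ∈ Bad G U L dec v ω w)).image
        (fun w => dec w (ω w)) := by
    intro o ho
    obtain ⟨c, hc, rfl⟩ := mem_image.1 ho
    obtain ⟨hc1, hc2⟩ := mem_sdiff.1 hc
    rw [mem_Sur] at hc2
    have hc3 : ∃ w ∈ U \ nb G U v, dec w (ω w) = some c ∧
        ∃ x ∈ Sel G U dec v ω c, G.Adj w x := by
      by_contra hno
      refine hc2 ⟨hc1, fun w hw hd x hx ha => hno ⟨w, hw, hd, x, hx, ha⟩⟩
    obtain ⟨w, hw, hd, x, hx, ha⟩ := hc3
    refine mem_image.2 ⟨w, mem_filter.2 ⟨mem_sdiff.2 ⟨mem_univ _, (mem_sdiff.1 hw).2⟩,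
      mem_Bad.2 ⟨hw, c, hc1, hd, x, hx, ha⟩⟩, hd⟩
  have h2 := (card_le_card h1).trans card_image_le
  rw [card_image_of_injective _ (Option.some_injective _), card_sdiff_of_subset hsub] at h2
  have h3 := card_le_card hsub
  omega

theorem sum_bad (G : SimpleGraph V) (U : Finset V) (L : V → Finset (Fin K))
    (dec : V → Fin M → Option (Fin K)) (hdec : IsDec U L M dec) (hM : 0 < M) (v : V) (lm Dm : ℝ) (hlm : 0 < lm)
    (hl : ∀ x ∈ U, lm ≤ (L x).card) (hDm : ∀ x ∈ U, ((nb G U x).card : ℝ) ≤ Dm) (hDm0 : 0 ≤ Dm) (ω : V → Fin M) :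
    ∑ w ∈ univ \ nb G U v, ((Bad G U L dec v ω w).card : ℝ) / (Fintype.card (Fin M) : ℝ) ≤
      ((Tok G U L dec v ω).card : ℝ) * (2 * Dm / (10 * lm)) := by
  classical
  have hM' : (0 : ℝ) < M := by exact_mod_cast hM
  have hq : (0 : ℝ) < 10 * lm := by positivity
  rw [Fintype.card_fin]
  have hdecw : ∀ w ∈ U, ∀ c : Fin K,
      ((univ.filter (fun j => dec w j = some c)).card : ℝ) / M ≤ 1 / (10 * lm) := by
    intro w hw c
    by_cases hc : c ∈ L w
    · have h1 := hdec.1 w hw c hc
      have h2 : (10 : ℝ) * ((L w).card : ℝ) *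
          ((univ.filter (fun j => dec w j = some c)).card : ℝ) = (M : ℝ) := by
        exact_mod_cast h1
      have h3 := hl w hw
      rw [div_le_div_iff₀ hM' hq, one_mul, ← h2]
      have h4 : (0 : ℝ) ≤ ((univ.filter (fun j => dec w j = some c)).card : ℝ) :=
        Nat.cast_nonneg _
      nlinarith [mul_le_mul_of_nonneg_right h3 h4]
    · have h1 : univ.filter (fun j => dec w j = some c) = ∅ :=
        filter_eq_empty_iff.2 fun j _ => hdec.2 w hw c hc j
      rw [h1, card_empty, Nat.cast_zero, zero_div]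
      positivity
  have hw : ∀ w : V, ((Bad G U L dec v ω w).card : ℝ) / (M : ℝ) ≤
      ∑ c ∈ Tok G U L dec v ω, ∑ x ∈ Sel G U dec v ω c,
        if w ∈ U ∧ G.Adj x w then 1 / (10 * lm) else 0 := by
    intro w
    by_cases hwU : w ∈ U \ nb G U v
    · have hwU' := (mem_sdiff.1 hwU).1
      have h1 : Bad G U L dec v ω w ⊆ (Tok G U L dec v ω).biUnion (fun c =>
          (Sel G U dec v ω c).biUnion (fun x =>
            if G.Adj x w then univ.filter (fun j => dec w j = some c) else ∅)) := by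
        intro j hj
        obtain ⟨-, c, hc, hd, x, hx, ha⟩ := mem_Bad.1 hj
        refine mem_biUnion.2 ⟨c, hc, mem_biUnion.2 ⟨x, hx, ?_⟩⟩
        rw [if_pos ha.symm]
        exact mem_filter.2 ⟨mem_univ _, hd⟩
      have h2 : (Bad G U L dec v ω w).card ≤ ∑ c ∈ Tok G U L dec v ω,
          ∑ x ∈ Sel G U dec v ω c,
            (if G.Adj x w then univ.filter (fun j => dec w j = some c) else ∅).card :=
        (card_le_card h1).trans (card_biUnion_le.trans (sum_le_sum fun c _ => card_biUnion_le))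
      have h3 : ((Bad G U L dec v ω w).card : ℝ) ≤ ∑ c ∈ Tok G U L dec v ω,
          ∑ x ∈ Sel G U dec v ω c,
            (((if G.Adj x w then univ.filter (fun j => dec w j = some c) else ∅).card : ℕ) : ℝ) := by
        exact_mod_cast h2
      refine (div_le_div_of_nonneg_right h3 hM'.le).trans ?_
      rw [sum_div]
      refine sum_le_sum fun c _ => ?_
      rw [sum_div]
      refine sum_le_sum fun x _ => ?_
      by_cases ha : G.Adj x w
      · rw [if_pos ha, if_pos ⟨hwU', ha⟩]
        exact hdecw w hwU' c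
      · rw [if_neg ha, if_neg (fun h => ha h.2), card_empty, Nat.cast_zero, zero_div]
    · have h1 : Bad G U L dec v ω w = ∅ := by
        rw [eq_empty_iff_forall_notMem]
        exact fun j hj => hwU (mem_Bad.1 hj).1
      rw [h1, card_empty, Nat.cast_zero, zero_div]
      refine sum_nonneg fun c _ => sum_nonneg fun x _ => ?_
      split_ifs
      · positivity
      · exact le_rfl
  have hnn : ∀ w : V, 0 ≤ ∑ c ∈ Tok G U L dec v ω, ∑ x ∈ Sel G U dec v ω c,
        if w ∈ U ∧ G.Adj x w then 1 / (10 * lm) else 0 := by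
    intro w
    refine sum_nonneg fun c _ => sum_nonneg fun x _ => ?_
    split_ifs
    · positivity
    · exact le_rfl
  calc ∑ w ∈ univ \ nb G U v, ((Bad G U L dec v ω w).card : ℝ) / (M : ℝ)
      ≤ ∑ w ∈ univ \ nb G U v, ∑ c ∈ Tok G U L dec v ω, ∑ x ∈ Sel G U dec v ω c,
        (if w ∈ U ∧ G.Adj x w then 1 / (10 * lm) else 0) := sum_le_sum fun w _ => hw w
    _ ≤ ∑ w : V, ∑ c ∈ Tok G U L dec v ω, ∑ x ∈ Sel G U dec v ω c,
        (if w ∈ U ∧ G.Adj x w then 1 / (10 * lm) else 0) :=
        sum_le_sum_of_subset_of_nonneg (subset_univ _) fun w _ _ => hnn w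
    _ = ∑ c ∈ Tok G U L dec v ω, ∑ x ∈ Sel G U dec v ω c, ∑ w : V,
        (if w ∈ U ∧ G.Adj x w then 1 / (10 * lm) else 0) := by
        rw [sum_comm]
        exact sum_congr rfl fun c _ => sum_comm
    _ ≤ ∑ c ∈ Tok G U L dec v ω, (2 * Dm / (10 * lm)) := by
        refine sum_le_sum fun c hc => ?_
        have h1 : ∀ x ∈ Sel G U dec v ω c, ∑ w : V,
            (if w ∈ U ∧ G.Adj x w then 1 / (10 * lm) else 0) ≤ Dm / (10 * lm) := by
          intro x hx
          have hxU := nb_sub G U v (mem_Sel.1 hx).1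
          rw [← sum_filter, sum_const, nsmul_eq_mul, mul_one_div]
          have e : univ.filter (fun w => w ∈ U ∧ G.Adj x w) = nb G U x := by
            ext w
            simp only [mem_filter, mem_univ, true_and, mem_nb]
          rw [e]
          exact div_le_div_of_nonneg_right (hDm x hxU) hq.le
        refine (sum_le_sum h1).trans ?_
        rw [sum_const, nsmul_eq_mul]
        have h2 : (Sel G U dec v ω c).card ≤ 2 := by
          rcases (mem_Tok.1 hc).2 with h | h
          · rw [h.2]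
            norm_num
          · rw [h.2]
        have h3 : ((Sel G U dec v ω c).card : ℝ) ≤ 2 := by exact_mod_cast h2
        have h4 : 0 ≤ Dm / (10 * lm) := div_nonneg hDm0 hq.le
        calc ((Sel G U dec v ω c).card : ℝ) * (Dm / (10 * lm)) ≤ 2 * (Dm / (10 * lm)) :=
              mul_le_mul_of_nonneg_right h3 h4
          _ = 2 * Dm / (10 * lm) := by ring
    _ = ((Tok G U L dec v ω).card : ℝ) * (2 * Dm / (10 * lm)) := by
        rw [sum_const, nsmul_eq_mul]

theorem bad_congr (G : SimpleGraph V) (U : Finset V) (L : V → Finset (Fin K)) (dec : V → Fin M → Option (Fin K)) (v : V)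
    (ω ω' : V → Fin M) (h : ∀ i ∈ nb G U v, ω i = ω' i) :
    Bad G U L dec v ω = Bad G U L dec v ω' := by
  have hSel : Sel G U dec v ω = Sel G U dec v ω' := by
    funext c
    ext x
    rw [mem_Sel, mem_Sel]
    constructor
    · rintro ⟨h1, h2⟩
      exact ⟨h1, by rw [← h x h1]; exact h2⟩
    · rintro ⟨h1, h2⟩
      exact ⟨h1, by rw [h x h1]; exact h2⟩
  have hTok : Tok G U L dec v ω = Tok G U L dec v ω' := by
    ext c
    rw [mem_Tok, mem_Tok, hSel]
  funext w
  ext j
  rw [mem_Bad, mem_Bad, hTok, hSel]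

end MP892329.SF
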