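import Pool.Agent.Lib.MP_892329_co.SF.TokD

/-!
# JOB Lip: the number of tokens depends only on the colours of the neighbours and changes by at most 2

* `sel_congr`, `tok_congr`: if `ω`, `ω'` agree on `nb G U v`, then `Sel` and `Tok` agree (unfold).
* `tok_lip`: if `ω' = Function.update ω i a`, then `Sel ω' c = Sel ω c` for every colour `c` with `dec i (ω i) ≠ some c` and `dec i a ≠ some c` (and for all `c` if
  `i ∉ nb G U v`). So `Tok ω` and `Tok ω'` differ at most in the (at most two) colours `c1, c2` with `dec i (ω i) = some c1`, `dec i a = some c2`: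
  `Tok ω' ⊆ Tok ω ∪ {c1, c2}` (options without a colour contribute nothing) and conversely, so the cardinalities differ by at most 2.
-/

set_option autoImplicit false

namespace MP892329.SF

open Finset

variable {V : Type} [Fintype V] [DecidableEq V] {K M : ℕ}

theorem sel_congr (G : SimpleGraph V) (U : Finset V) (dec : V → Fin M → Option (Fin K)) (v : V)
    (ω ω' : V → Fin M) (h : ∀ i ∈ nb G U v, ω i = ω' i) (c : Fin K) :
    Sel G U dec v ω c = Sel G U dec v ω' c := by
  ext x
  rw [mem_Sel, mem_Sel]
  constructor
  · rintro ⟨h1, h2⟩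
    exact ⟨h1, by rw [← h x h1]; exact h2⟩
  · rintro ⟨h1, h2⟩
    exact ⟨h1, by rw [h x h1]; exact h2⟩

theorem tok_congr (G : SimpleGraph V) (U : Finset V) (L : V → Finset (Fin K)) (dec : V → Fin M → Option (Fin K)) (v : V)
    (ω ω' : V → Fin M) (h : ∀ i ∈ nb G U v, ω i = ω' i) :
    Tok G U L dec v ω = Tok G U L dec v ω' := by
  ext c
  rw [mem_Tok, mem_Tok, sel_congr G U dec v ω ω' h c]

theorem tok_lip (G : SimpleGraph V) (U : Finset V) (L : V → Finset (Fin K)) (dec : V → Fin M → Option (Fin K)) (v : V)
    (ω : V → Fin M) (i : V) (a : Fin M) :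
    |((Tok G U L dec v (Function.update ω i a)).card : ℝ) - ((Tok G U L dec v ω).card : ℝ)| ≤ 2 := by
  classical
  -- colours which are not touched
  have hsel : ∀ c, dec i (ω i) ≠ some c → dec i a ≠ some c →
      Sel G U dec v (Function.update ω i a) c = Sel G U dec v ω c := by
    intro c h1 h2
    ext x
    rw [mem_Sel, mem_Sel]
    by_cases hx : x = i
    · subst hx
      rw [Function.update_self]
      exact ⟨fun h => absurd h.2 h2, fun h => absurd h.2 h1⟩
    · rw [Function.update_of_ne hx]
  have htok : ∀ c, dec i (ω i) ≠ some c → dec i a ≠ some c →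
      (c ∈ Tok G U L dec v (Function.update ω i a) ↔ c ∈ Tok G U L dec v ω) := by
    intro c h1 h2
    rw [mem_Tok, mem_Tok, hsel c h1 h2]
  have hE : ((dec i (ω i)).toFinset ∪ (dec i a).toFinset).card ≤ 2 := by
    refine (Finset.card_union_le _ _).trans ?_
    have h1 : ∀ o : Option (Fin K), o.toFinset.card ≤ 1 := by
      intro o
      cases o <;> simp
    exact Nat.add_le_add (h1 _) (h1 _)
  have hsub1 : Tok G U L dec v (Function.update ω i a) ⊆
      Tok G U L dec v ω ∪ ((dec i (ω i)).toFinset ∪ (dec i a).toFinset) := by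
    intro c hc
    by_cases h1 : dec i (ω i) = some c
    · exact Finset.mem_union_right _ (Finset.mem_union_left _ (Option.mem_toFinset.2 h1))
    · by_cases h2 : dec i a = some c
      · exact Finset.mem_union_right _ (Finset.mem_union_right _ (Option.mem_toFinset.2 h2))
      · exact Finset.mem_union_left _ ((htok c h1 h2).1 hc)
  have hsub2 : Tok G U L dec v ω ⊆ Tok G U L dec v (Function.update ω i a) ∪
      ((dec i (ω i)).toFinset ∪ (dec i a).toFinset) := by
    intro c hc
    by_cases h1 : dec i (ω i) = some c
    · exact Finset.mem_union_right _ (Finset.mem_union_left _ (Option.mem_toFinset.2 h1))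
    · by_cases h2 : dec i a = some c
      · exact Finset.mem_union_right _ (Finset.mem_union_right _ (Option.mem_toFinset.2 h2))
      · exact Finset.mem_union_left _ ((htok c h1 h2).2 hc)
  have h3 : (Tok G U L dec v (Function.update ω i a)).card ≤ (Tok G U L dec v ω).card + 2 :=
    (Finset.card_le_card hsub1).trans ((Finset.card_union_le _ _).trans
      (Nat.add_le_add_left hE _))
  have h4 : (Tok G U L dec v ω).card ≤ (Tok G U L dec v (Function.update ω i a)).card + 2 :=
    (Finset.card_le_card hsub2).trans ((Finset.card_union_le _ _).trans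
      (Nat.add_le_add_left hE _))
  have h5 : ((Tok G U L dec v (Function.update ω i a)).card : ℝ) ≤
      ((Tok G U L dec v ω).card : ℝ) + 2 := by exact_mod_cast h3
  have h6 : ((Tok G U L dec v ω).card : ℝ) ≤
      ((Tok G U L dec v (Function.update ω i a)).card : ℝ) + 2 := by exact_mod_cast h4
  rw [abs_le]
  constructor <;> linarith

end MP892329.SF
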