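import Pool.Agent.Lib.MP_892329_co.SF.McA

/-!
# JOB McB: bounded differences for functions on `ι → α` which depend only on the coordinates in `S`
-/

set_option autoImplicit false

namespace MP892329.SF

open Finset

private theorem mcB_sum {ι α : Type} [Fintype ι] [DecidableEq ι] [Fintype α]
    (S : Finset ι) (f : (ι → α) → ℝ) (f' : (Fin S.card → α) → ℝ)
    (Φ : (ι → α) ≃ (Fin S.card → α) × ({x : ι // ¬ x ∈ S} → α))
    (hΦ : ∀ ω, f ω = f' (Φ ω).1) (G : ℝ → ℝ) :
    ∑ ω, G (f ω) = (Fintype.card ({x : ι // ¬ x ∈ S} → α) : ℝ) * ∑ τ, G (f' τ) := by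
  have h1 : ∑ ω, G (f ω) = ∑ p : (Fin S.card → α) × ({x : ι // ¬ x ∈ S} → α), G (f' p.1) := by
    rw [← Equiv.sum_comp Φ (fun p => G (f' p.1))]
    exact Finset.sum_congr rfl (fun ω _ => by rw [hΦ ω])
  rw [h1, Fintype.sum_prod_type, Finset.mul_sum]
  refine Finset.sum_congr rfl (fun τ _ => ?_)
  simp only [Finset.sum_const, Finset.card_univ, nsmul_eq_mul]

theorem mgf_set {ι α : Type} [Fintype ι] [DecidableEq ι] [Fintype α] [Nonempty α] (c lam : ℝ)
    (hc : 0 ≤ c) (S : Finset ι) (f : (ι → α) → ℝ)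
    (hS : ∀ ω ω' : ι → α, (∀ i ∈ S, ω i = ω' i) → f ω = f ω')
    (hf : ∀ (ω : ι → α) (i : ι) (a : α), |f (Function.update ω i a) - f ω| ≤ c) :
    ∑ ω, Real.exp (lam * f ω) ≤
      (Fintype.card α : ℝ) ^ (Fintype.card ι) *
        Real.exp (lam * ((∑ ω, f ω) / (Fintype.card α : ℝ) ^ (Fintype.card ι)) + S.card * lam ^ 2 * c ^ 2) := by
  obtain ⟨a0⟩ := (inferInstance : Nonempty α)
  let e : {x : ι // x ∈ S} ≃ Fin S.card := S.equivFin
  let Φ : (ι → α) ≃ (Fin S.card → α) × ({x : ι // ¬ x ∈ S} → α) :=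
    (Equiv.piEquivPiSubtypeProd (fun x => x ∈ S) (fun _ => α)).trans
      (Equiv.prodCongr (Equiv.arrowCongr e (Equiv.refl α)) (Equiv.refl _))
  let f' : (Fin S.card → α) → ℝ :=
    fun τ => f (fun i => if h : i ∈ S then τ (e ⟨i, h⟩) else a0)
  have hΦ : ∀ ω, f ω = f' (Φ ω).1 := by
    intro ω
    refine hS _ _ (fun i hi => ?_)
    have : (Φ ω).1 (e ⟨i, hi⟩) = ω i := by
      simp [Φ, Equiv.piEquivPiSubtypeProd, Equiv.arrowCongr]
    simp only [dif_pos hi, this]
  have hf' : ∀ (τ : Fin S.card → α) (i : Fin S.card) (a : α),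
      |f' (Function.update τ i a) - f' τ| ≤ c := by
    intro τ i a
    have hup : f' (Function.update τ i a) =
        f (Function.update (fun j => if h : j ∈ S then τ (e ⟨j, h⟩) else a0)
          (e.symm i : ι) a) := by
      refine congrArg f ?_
      funext j
      by_cases hj : j ∈ S
      · by_cases hji : j = (e.symm i : ι)
        · have h1 : e ⟨j, hj⟩ = i := by
            have : (⟨j, hj⟩ : {x : ι // x ∈ S}) = e.symm i := Subtype.ext hji
            rw [this, Equiv.apply_symm_apply]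
          rw [dif_pos hj, h1, Function.update_self, hji, Function.update_self]
        · have h1 : e ⟨j, hj⟩ ≠ i := by
            intro h
            apply hji
            have : (⟨j, hj⟩ : {x : ι // x ∈ S}) = e.symm i := by
              rw [← h, Equiv.symm_apply_apply]
            exact congrArg Subtype.val this
          rw [dif_pos hj, Function.update_of_ne h1, Function.update_of_ne hji, dif_pos hj]
      · have hji : j ≠ (e.symm i : ι) := by
          intro h
          exact hj (h ▸ (e.symm i).2)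
        rw [dif_neg hj, Function.update_of_ne hji, dif_neg hj]
    rw [hup]
    exact hf _ _ _
  have key := mgf_fin c lam hc S.card f' hf'
  have hcard : (Fintype.card α : ℝ) ^ (Fintype.card ι) =
      (Fintype.card α : ℝ) ^ S.card * (Fintype.card ({x : ι // ¬ x ∈ S} → α) : ℝ) := by
    have h := Fintype.card_congr Φ
    rw [Fintype.card_prod, Fintype.card_fun, Fintype.card_fun, Fintype.card_fin] at h
    exact_mod_cast h
  have hs1 : ∑ ω, Real.exp (lam * f ω) = (Fintype.card ({x : ι // ¬ x ∈ S} → α) : ℝ) * ∑ τ, Real.exp (lam * f' τ) :=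
    mcB_sum S f f' Φ hΦ (fun x => Real.exp (lam * x))
  have hs2 : ∑ ω, f ω = (Fintype.card ({x : ι // ¬ x ∈ S} → α) : ℝ) * ∑ τ, f' τ :=
    mcB_sum S f f' Φ hΦ (fun x => x)
  have hK : (0 : ℝ) < (Fintype.card ({x : ι // ¬ x ∈ S} → α) : ℝ) := by
    have : 0 < Fintype.card ({x : ι // ¬ x ∈ S} → α) := Fintype.card_pos_iff.mpr ⟨fun _ => a0⟩
    exact_mod_cast this
  have hmean : (∑ ω, f ω) / (Fintype.card α : ℝ) ^ (Fintype.card ι) =
      (∑ τ, f' τ) / (Fintype.card α : ℝ) ^ S.card := by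
    rw [hs2, hcard, mul_comm ((Fintype.card α : ℝ) ^ S.card) _, mul_div_mul_left _ _ hK.ne']
  rw [hs1, hmean, hcard]
  calc (Fintype.card ({x : ι // ¬ x ∈ S} → α) : ℝ) * ∑ τ, Real.exp (lam * f' τ)
      ≤ (Fintype.card ({x : ι // ¬ x ∈ S} → α) : ℝ) * ((Fintype.card α : ℝ) ^ S.card *
        Real.exp (lam * ((∑ ω, f' ω) / (Fintype.card α : ℝ) ^ S.card) +
          S.card * lam ^ 2 * c ^ 2)) := mul_le_mul_of_nonneg_left key hK.le
    _ = _ := by ring

theorem mcd {ι α : Type} [Fintype ι] [DecidableEq ι] [Fintype α] [Nonempty α]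
    (S : Finset ι) (hSn : 0 < S.card) (f : (ι → α) → ℝ)
    (hS : ∀ ω ω' : ι → α, (∀ i ∈ S, ω i = ω' i) → f ω = f ω')
    (hf : ∀ (ω : ι → α) (i : ι) (a : α), |f (Function.update ω i a) - f ω| ≤ 2)
    (mu t : ℝ) (ht : 0 ≤ t) (hmu : mu * (Fintype.card α : ℝ) ^ (Fintype.card ι) ≤ ∑ ω, f ω) :
    ((univ.filter (fun ω : ι → α => f ω ≤ mu - t)).card : ℝ) ≤
      Real.exp (-t ^ 2 / (16 * S.card)) * (Fintype.card α : ℝ) ^ (Fintype.card ι) := by
  have hm : (0 : ℝ) < S.card := by exact_mod_cast hSn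
  set m : ℝ := (S.card : ℝ) with hmdef
  set lam : ℝ := -t / (8 * m) with hlam
  have hlam0 : lam ≤ 0 := by
    rw [hlam]
    exact div_nonpos_of_nonpos_of_nonneg (by linarith) (by linarith)
  have hA : (0 : ℝ) < (Fintype.card α : ℝ) ^ (Fintype.card ι) := by
    have : 0 < Fintype.card α := Fintype.card_pos
    positivity
  have key := mgf_set 2 lam (by norm_num) S f hS hf
  simp only [← hmdef] at key
  set A : ℝ := (Fintype.card α : ℝ) ^ (Fintype.card ι) with hAdef
  have hmean : mu ≤ (∑ ω, f ω) / A := by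
    rw [le_div_iff₀ hA]
    exact hmu
  have h1 : ((univ.filter (fun ω : ι → α => f ω ≤ mu - t)).card : ℝ) *
      Real.exp (lam * (mu - t)) ≤ ∑ ω, Real.exp (lam * f ω) := by
    calc ((univ.filter (fun ω : ι → α => f ω ≤ mu - t)).card : ℝ) * Real.exp (lam * (mu - t))
        = ∑ _ω ∈ univ.filter (fun ω : ι → α => f ω ≤ mu - t), Real.exp (lam * (mu - t)) := by
          rw [Finset.sum_const, nsmul_eq_mul]
      _ ≤ ∑ ω ∈ univ.filter (fun ω : ι → α => f ω ≤ mu - t), Real.exp (lam * f ω) := by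
          refine Finset.sum_le_sum (fun ω hω => ?_)
          rw [Finset.mem_filter] at hω
          exact Real.exp_le_exp.mpr (mul_le_mul_of_nonpos_left hω.2 hlam0)
      _ ≤ ∑ ω, Real.exp (lam * f ω) :=
          Finset.sum_le_univ_sum_of_nonneg (fun ω => (Real.exp_pos _).le)
  have h2 : ((univ.filter (fun ω : ι → α => f ω ≤ mu - t)).card : ℝ) *
      Real.exp (lam * (mu - t)) ≤ A * Real.exp (lam * mu + m * lam ^ 2 * 2 ^ 2) := by
    refine (h1.trans key).trans ?_
    refine mul_le_mul_of_nonneg_left (Real.exp_le_exp.mpr ?_) hA.le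
    have := mul_le_mul_of_nonpos_left hmean hlam0
    linarith
  have h3 : A * Real.exp (lam * mu + m * lam ^ 2 * 2 ^ 2) =
      (Real.exp (-t ^ 2 / (16 * m)) * A) * Real.exp (lam * (mu - t)) := by
    have h4 : lam * mu + m * lam ^ 2 * 2 ^ 2 = -t ^ 2 / (16 * m) + lam * (mu - t) := by
      rw [hlam]
      field_simp
      ring
    rw [h4, Real.exp_add]
    ring
  rw [h3] at h2
  exact le_of_mul_le_mul_right h2 (Real.exp_pos _)

end MP892329.SF
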