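import Pool.Agent.Lib.MP_892329_co.SF.MeanB
import Pool.Agent.Lib.MP_892329_co.SF.Lip
import Pool.Agent.Lib.MP_892329_co.SF.Kill
import Pool.Agent.Lib.MP_892329_co.SF.McB
import Pool.Agent.Lib.MP_892329_co.SF.Chn

/-!
# JOB Prob: it is unlikely that few tokens survive

Let `N = nb G U v`, `E = M^|V|` (`Fintype.card (Fin M) = M`). Assumptions: `|L x| ≥ (8799/10000) d`, `|nb G U x| ≤ (20002/10000) d` on `U`, `out + pr ≥ (3/50) d`.
With `lm = (8799/10000) d`: `|N| / (10 lm) ≤ 20002/87990 ≤ 228/1000`. `mean_tok`: `∑ ω, |Tok ω| ≥ 0.772 * 0.01 * 0.06 d E = 0.0004632 d E`.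
(1) `mcd` with `S = N`, `f ω = |Tok ω|` (`tok_congr`, `tok_lip`), `mu = 0.0004632 d`, `t = 0.0000432 d`: the number of `ω` with `|Tok ω| ≤ 0.00042 d` is at most
 `exp (- t^2 / (16 |N|)) E ≤ exp (- 5e-11 d) E`, since `t^2/(16 |N|) ≥ (0.0000432 d)^2 / (32.0032 d) ≥ 5.8e-11 d`. (`|N| > 0` because `out + pr > 0`: for empty `N` both are `0`.)
(2) `chn` with `S = N`, `Bad`, `lam = 9/100`: `k = exp lam - 1 ≤ 0.0942` (`Real.exp_bound'` or `Real.exp_bound`, or `exp (9/100) ≤ 1 + 0.09 + 0.09^2`).. in fact we need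
 `k * 0.4547 ≤ 0.0429`: `k ≤ 0.09418`: `exp x ≤ 1 + x + x^2/2 + x^3/4` for `0 ≤ x ≤ 1` gives `0.094233`, also fine: `0.094233 * 0.4547 = 0.042848 ≤ 0.0429`.
 `R ω = ∑ |Bad ω w|/M ≤ |Tok ω| * 2 * 2.0002/(8.799) = 0.45465 |Tok ω| ≤ 0.4547 |Tok ω|` (`sum_bad`). If `|Tok ω| ≥ 0.00042 d` and `Z ω ≥ |Tok ω| / 2`, then
 `lam Z - k R ≥ |Tok ω| (0.045 - 0.0429) ≥ 0.0021 * 0.00042 d ≥ 8e-7 d`. By Markov there are at most `exp (- 8e-7 d) E` such `ω`.
If `|Sur ω| < 0.00021 d`, then either `|Tok ω| ≤ 0.00042 d` or `Z ω ≥ |Tok ω| - |Sur ω| ≥ |Tok ω| / 2` (`sur_ge`: `Z ≥ |Tok| - |Sur| > |Tok| - 0.00021 d ≥ |Tok|/2`).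
So the number of such `ω` is at most `(exp (- 5e-11 d) + exp (- 8e-7 d)) E ≤ 2 exp (- 5e-11 d) E`.
-/

set_option autoImplicit false

namespace MP892329.SF

open Finset

variable {V : Type} [Fintype V] [DecidableEq V] {K M : ℕ}

theorem prob_bad (G : SimpleGraph V) (U : Finset V) (L : V → Finset (Fin K))
    (dec : V → Fin M → Option (Fin K)) (hdec : IsDec U L M dec) (hM : 0 < M) (v : V) (hv : v ∈ U)
    (d : ℝ) (hd : 1 ≤ d) (hl : ∀ x ∈ U, (8799 / 10000) * d ≤ (L x).card)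
    (hDm : ∀ x ∈ U, ((nb G U x).card : ℝ) ≤ (20002 / 10000) * d)
    (hop : (3 / 50) * d ≤ out G U L v + pr G U L v) :
    ((univ.filter (fun ω : V → Fin M => ((Sur G U L dec v ω).card : ℝ) < (21 / 100000) * d)).card : ℝ) ≤
      2 * Real.exp (-(5 / 10 ^ 11) * d) * (M : ℝ) ^ (Fintype.card V) := by
  classical
  have hd0 : 0 < d := by linarith
  have hlm : 0 < (8799 / 10000) * d := by positivity
  have hFin : Nonempty (Fin M) := ⟨⟨0, hM⟩⟩
  have hcM : (Fintype.card (Fin M) : ℝ) = M := by rw [Fintype.card_fin]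
  obtain ⟨N, hN⟩ : ∃ N, N = nb G U v := ⟨_, rfl⟩
  obtain ⟨E, hE⟩ : ∃ E : ℝ, E = (M : ℝ) ^ (Fintype.card V) := ⟨_, rfl⟩
  have hE0 : 0 < E := by
    rw [hE]
    exact pow_pos (by exact_mod_cast hM) _
  have hNd : (N.card : ℝ) ≤ (20002 / 10000) * d := by
    rw [hN]
    exact hDm v hv
  have hNpos : 0 < N.card := by
    rw [Finset.card_pos]
    by_contra h0
    rw [Finset.not_nonempty_iff_eq_empty] at h0
    rw [hN] at h0
    have h1 : out G U L v = 0 := by
      unfold out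
      rw [h0, Finset.sum_empty]
    have h2 : pr G U L v = 0 := by
      unfold pr
      rw [h0, Finset.sum_empty, mul_zero]
    rw [h1, h2] at hop
    linarith
  have hNposR : (0 : ℝ) < N.card := by exact_mod_cast hNpos
  have hD : ((nb G U v).card : ℝ) / (10 * ((8799 / 10000) * d)) ≤ 228 / 1000 := by
    rw [← hN, div_le_iff₀ (by positivity)]
    linarith
  -- the mean
  have hmean : (4632 / 10 ^ 7 * d) * (Fintype.card (Fin M) : ℝ) ^ (Fintype.card V) ≤
      ∑ ω : V → Fin M, ((Tok G U L dec v ω).card : ℝ) := by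
    have h1 := mean_tok G U L dec hdec hM v _ hlm hl hD
    rw [hcM]
    refine le_trans ?_ h1
    rw [← hE]
    refine mul_le_mul_of_nonneg_right ?_ hE0.le
    linarith
  -- few tokens
  have hB1 := mcd (ι := V) (α := Fin M) N hNpos (fun ω => ((Tok G U L dec v ω).card : ℝ))
    (fun ω ω' h => by rw [tok_congr G U L dec v ω ω' (by rw [← hN]; exact h)])
    (fun ω i a => tok_lip G U L dec v ω i a) (4632 / 10 ^ 7 * d) (432 / 10 ^ 7 * d) (by positivity)
    hmean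
  rw [hcM, ← hE] at hB1
  have hexp1 : Real.exp (-(432 / 10 ^ 7 * d) ^ 2 / (16 * (N.card : ℝ))) ≤
      Real.exp (-(5 / 10 ^ 11) * d) := by
    rw [Real.exp_le_exp, div_le_iff₀ (by positivity)]
    have h1 : (5 / 10 ^ 11) * d * (16 * (N.card : ℝ)) ≤
        (5 / 10 ^ 11) * d * (16 * ((20002 / 10000) * d)) :=
      mul_le_mul_of_nonneg_left (by linarith) (by positivity)
    have h2 : (5 / 10 ^ 11) * d * (16 * ((20002 / 10000) * d)) ≤ (432 / 10 ^ 7 * d) ^ 2 := by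
      have h3 : 0 ≤ d ^ 2 := sq_nonneg d
      nlinarith
    linarith
  have hB1' : ((univ.filter (fun ω : V → Fin M => ((Tok G U L dec v ω).card : ℝ) ≤
      4632 / 10 ^ 7 * d - 432 / 10 ^ 7 * d)).card : ℝ) ≤ Real.exp (-(5 / 10 ^ 11) * d) * E :=
    hB1.trans (mul_le_mul_of_nonneg_right hexp1 hE0.le)
  -- many destroyed tokens
  obtain ⟨Z, hZ⟩ : ∃ Z : (V → Fin M) → ℝ, Z = fun ω =>
      (((univ \ N).filter (fun w => ω w ∈ Bad G U L dec v ω w)).card : ℝ) := ⟨_, rfl⟩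
  obtain ⟨R, hR⟩ : ∃ R : (V → Fin M) → ℝ, R = fun ω =>
      ∑ w ∈ univ \ N, ((Bad G U L dec v ω w).card : ℝ) / (Fintype.card (Fin M) : ℝ) := ⟨_, rfl⟩
  have hchn : ∑ ω : V → Fin M, Real.exp ((9 / 100) * Z ω - (Real.exp (9 / 100) - 1) * R ω) ≤ E := by
    have h1 := chn (ι := V) (α := Fin M) N (Bad G U L dec v)
      (fun ω ω' h => bad_congr G U L dec v ω ω' (by rw [← hN]; exact h)) (9 / 100) (by norm_num)
    rw [hcM, ← hE] at h1
    rw [hZ, hR, hcM]
    exact h1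
  have hk : Real.exp (9 / 100) - 1 ≤ 981 / 10000 := by
    have h1 := Real.abs_exp_sub_one_sub_id_le (x := 9 / 100) (by rw [abs_le]; norm_num)
    have h2 := (abs_le.1 h1).2
    norm_num at h2 ⊢
    linarith
  have hRle : ∀ ω, R ω ≤ ((Tok G U L dec v ω).card : ℝ) * (4547 / 10000) := by
    intro ω
    have h1 := sum_bad G U L dec hdec hM v ((8799 / 10000) * d) ((20002 / 10000) * d) hlm hl hDm
      (by positivity) ω
    rw [hR, hN]
    refine h1.trans (mul_le_mul_of_nonneg_left ?_ (Nat.cast_nonneg _))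
    rw [div_le_iff₀ (by positivity)]
    linarith
  have hR0 : ∀ ω, 0 ≤ R ω := by
    intro ω
    rw [hR]
    exact Finset.sum_nonneg fun w _ => div_nonneg (Nat.cast_nonneg _) (Nat.cast_nonneg _)
  have hB2 : ((univ.filter (fun ω : V → Fin M => 42 / 10 ^ 5 * d < ((Tok G U L dec v ω).card : ℝ) ∧
      ((Tok G U L dec v ω).card : ℝ) / 2 ≤ Z ω)).card : ℝ) ≤ Real.exp (-(5 / 10 ^ 11) * d) * E := by
    have h1 : ∀ ω ∈ univ.filter (fun ω : V → Fin M => 42 / 10 ^ 5 * d <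
        ((Tok G U L dec v ω).card : ℝ) ∧ ((Tok G U L dec v ω).card : ℝ) / 2 ≤ Z ω),
        Real.exp ((5 / 10 ^ 11) * d) ≤
          Real.exp ((9 / 100) * Z ω - (Real.exp (9 / 100) - 1) * R ω) := by
      intro ω hω
      rw [Finset.mem_filter] at hω
      obtain ⟨-, h2, h3⟩ := hω
      rw [Real.exp_le_exp]
      have h4 : (Real.exp (9 / 100) - 1) * R ω ≤
          (981 / 10000) * (((Tok G U L dec v ω).card : ℝ) * (4547 / 10000)) :=
        (mul_le_mul_of_nonneg_right hk (hR0 ω)).trans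
          (mul_le_mul_of_nonneg_left (hRle ω) (by norm_num))
      have h5 : (9 / 100) * (((Tok G U L dec v ω).card : ℝ) / 2) ≤ (9 / 100) * Z ω :=
        mul_le_mul_of_nonneg_left h3 (by norm_num)
      linarith
    have h2 := (Finset.card_nsmul_le_sum _ _ _ h1).trans
      ((Finset.sum_le_sum_of_subset_of_nonneg (Finset.subset_univ _)
        (fun _ _ _ => (Real.exp_pos _).le)).trans hchn)
    rw [nsmul_eq_mul] at h2
    have h3 : Real.exp (-(5 / 10 ^ 11) * d) * Real.exp ((5 / 10 ^ 11) * d) = 1 := by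
      rw [← Real.exp_add, neg_mul, neg_add_cancel, Real.exp_zero]
    have h4 := mul_le_mul_of_nonneg_left h2 (Real.exp_pos (-(5 / 10 ^ 11) * d)).le
    rw [mul_left_comm, h3, mul_one] at h4
    exact h4
  -- the union
  have hsub : univ.filter (fun ω : V → Fin M => ((Sur G U L dec v ω).card : ℝ) < (21 / 100000) * d) ⊆
      univ.filter (fun ω : V → Fin M => ((Tok G U L dec v ω).card : ℝ) ≤
        4632 / 10 ^ 7 * d - 432 / 10 ^ 7 * d) ∪
      univ.filter (fun ω : V → Fin M => 42 / 10 ^ 5 * d < ((Tok G U L dec v ω).card : ℝ) ∧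
        ((Tok G U L dec v ω).card : ℝ) / 2 ≤ Z ω) := by
    intro ω hω
    rw [Finset.mem_filter] at hω
    rw [Finset.mem_union, Finset.mem_filter, Finset.mem_filter]
    by_cases h1 : ((Tok G U L dec v ω).card : ℝ) ≤ 4632 / 10 ^ 7 * d - 432 / 10 ^ 7 * d
    · exact Or.inl ⟨Finset.mem_univ _, h1⟩
    · push Not at h1
      have h2 : 42 / 10 ^ 5 * d < ((Tok G U L dec v ω).card : ℝ) := by
        refine lt_of_eq_of_lt ?_ h1
        ring
      refine Or.inr ⟨Finset.mem_univ _, h2, ?_⟩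
      have h3 := sur_ge G U L dec v ω
      have h4 : ((Tok G U L dec v ω).card : ℝ) ≤ ((Sur G U L dec v ω).card : ℝ) + Z ω := by
        rw [hZ, hN]
        beta_reduce
        exact_mod_cast h3
      have h5 := hω.2
      linarith
  have hcard : ((univ.filter (fun ω : V → Fin M => ((Sur G U L dec v ω).card : ℝ) <
      (21 / 100000) * d)).card : ℝ) ≤
      ((univ.filter (fun ω : V → Fin M => ((Tok G U L dec v ω).card : ℝ) ≤
        4632 / 10 ^ 7 * d - 432 / 10 ^ 7 * d)).card : ℝ) +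
      ((univ.filter (fun ω : V → Fin M => 42 / 10 ^ 5 * d < ((Tok G U L dec v ω).card : ℝ) ∧
        ((Tok G U L dec v ω).card : ℝ) / 2 ≤ Z ω)).card : ℝ) := by
    exact_mod_cast (Finset.card_le_card hsub).trans (Finset.card_union_le _ _)
  rw [← hE]
  linarith

end MP892329.SF
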