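import Pool.Agent.Lib.MP_892329_co.SF.TokD

/-!
# JOB Sav: the partial colouring `psi` and the savings

`psi ω x = some c` iff `dec x (ω x) = some c` and no neighbour of `x` in `U` has the random colour `c`; otherwise `none`.
* `psi_mem`: for `x ∈ U`, `psi ω x = some c` implies `c ∈ L x` (second part of `IsDec`).
* `psi_proper`: adjacent `x, y ∈ U` do not get the same colour.
* `savings`: let `N = nb G U v`, `used = {c ∈ L v : some x ∈ N has psi x = some c}`, `unc = {x ∈ N : psi x = none}`. Count the coloured neighbours by colour: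
  `|N| - |unc| = ∑ c, n c`, `n c = #{x ∈ N : psi x = some c}`. For `c ∈ used`: `n c ≥ 1`. If `c ∈ Sur` (surviving token), every `x ∈ Sel ω c` has `psi x = some c`: its neighbours `w` in `U`
  with random colour `c` would be either in `N`, hence in `Sel ω c` (excluded: no adjacent pair in `Sel ω c`) or outside `N` (excluded by survival). So `n c ≥ |Sel ω c|`, i.e. `n c ≥ 2` if
  `c ∈ L v` and `n c ≥ 1` if `c ∉ L v` (and then `c ∉ used`). Therefore `n c ≥ [c ∈ used] + [c ∈ Sur]` for every `c`; sum over `c`.
-/

set_option autoImplicit false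

namespace MP892329.SF

open Finset

variable {V : Type} [Fintype V] [DecidableEq V] {K M : ℕ}

/-- the partial colouring -/
noncomputable def psi (G : SimpleGraph V) (U : Finset V) (dec : V → Fin M → Option (Fin K)) (ω : V → Fin M)
    (x : V) : Option (Fin K) := by
  classical exact
  if ∀ y ∈ nb G U x, dec y (ω y) ≠ dec x (ω x) then dec x (ω x) else none

theorem psi_mem (G : SimpleGraph V) (U : Finset V) (L : V → Finset (Fin K)) (dec : V → Fin M → Option (Fin K))
    (hdec : IsDec U L M dec) (ω : V → Fin M) (x : V) (hx : x ∈ U) (c : Fin K) (h : psi G U dec ω x = some c) :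
    c ∈ L x := by
  unfold psi at h
  split_ifs at h with h1
  by_contra hc
  exact hdec.2 x hx c hc _ h

theorem psi_proper (G : SimpleGraph V) (U : Finset V) (dec : V → Fin M → Option (Fin K))
    (ω : V → Fin M) (x y : V) (hx : x ∈ U) (hy : y ∈ U) (hxy : G.Adj x y) (c : Fin K) (h : psi G U dec ω x = some c) :
    psi G U dec ω y ≠ some c := by
  intro hc
  unfold psi at h hc
  split_ifs at h with h1
  split_ifs at hc with h2
  exact h1 y (mem_nb.2 ⟨hy, hxy⟩) (hc.trans h.symm)

open Classical in
theorem savings (G : SimpleGraph V) (U : Finset V) (L : V → Finset (Fin K)) (dec : V → Fin M → Option (Fin K))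
    (v : V) (ω : V → Fin M) :
    ((L v).filter (fun c => ∃ x ∈ nb G U v, psi G U dec ω x = some c)).card + (Sur G U L dec v ω).card +
      ((nb G U v).filter (fun x => psi G U dec ω x = none)).card ≤ (nb G U v).card := by
  have hpart : (nb G U v).card = ((nb G U v).filter (fun x => psi G U dec ω x = none)).card +
      ∑ c : Fin K, ((nb G U v).filter (fun x => psi G U dec ω x = some c)).card := by
    have h1 := Finset.card_eq_sum_card_fiberwise (s := nb G U v) (t := (univ : Finset (Option (Fin K))))
      (f := fun x => psi G U dec ω x) (fun x _ => by simp)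
    rw [h1, Fintype.sum_option]
  have hused : ((L v).filter (fun c => ∃ x ∈ nb G U v, psi G U dec ω x = some c)).card =
      ∑ c : Fin K, if c ∈ L v ∧ ∃ x ∈ nb G U v, psi G U dec ω x = some c then 1 else 0 := by
    rw [← Finset.card_filter]
    congr 1
    ext c
    simp
  have hsur : (Sur G U L dec v ω).card = ∑ c : Fin K, if c ∈ Sur G U L dec v ω then 1 else 0 := by
    rw [← Finset.card_filter]
    congr 1
    ext c
    simp
  rw [hpart, hused, hsur, add_comm (Finset.card _), ← Finset.sum_add_distrib]
  refine Nat.add_le_add_right (Finset.sum_le_sum fun c _ => ?_) _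
  by_cases hs : c ∈ Sur G U L dec v ω
  · have hs2 := mem_Sur.1 hs
    have ht := mem_Tok.1 hs2.1
    have hsub : Sel G U dec v ω c ⊆ (nb G U v).filter (fun x => psi G U dec ω x = some c) := by
      intro x hx
      have hx2 := mem_Sel.1 hx
      rw [Finset.mem_filter]
      refine ⟨hx2.1, ?_⟩
      unfold psi
      rw [if_pos, hx2.2]
      intro y hy hyc
      rw [hx2.2] at hyc
      have hy2 := mem_nb.1 hy
      by_cases hyv : y ∈ nb G U v
      · exact ht.1 x hx y (mem_Sel.2 ⟨hyv, hyc⟩) hy2.2
      · exact hs2.2 y (Finset.mem_sdiff.2 ⟨hy2.1, hyv⟩) hyc x hx hy2.2.symm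
    have hcard := Finset.card_le_card hsub
    rw [if_pos hs]
    rcases ht.2 with ⟨h1, h2⟩ | ⟨h1, h2⟩
    · rw [if_neg (fun h => h1 h.1)]
      omega
    · split_ifs
      · omega
      · omega
  · rw [if_neg hs, add_zero]
    split_ifs with h1
    · obtain ⟨_, x, hx, hxc⟩ := h1
      exact Finset.card_pos.2 ⟨x, Finset.mem_filter.2 ⟨hx, hxc⟩⟩
    · exact Nat.zero_le _

end MP892329.SF
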