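import Pool.Agent.Lib.MP_892329_co.SF.Fin
import Pool.Agent.Lib.MP_892329_co.SF.Prob
import Pool.Agent.Lib.MP_892329_co.SF.Lll
import Pool.Agent.Lib.MP_892329_co.SF.Dep
import Pool.Agent.Lib.MP_892329_co.SF.Sav

/-!
# Col: the list colouring lemma (random colouring, local lemma, greedy completion)
-/

set_option autoImplicit false

namespace MP892329.SF

open Finset

/-- the numerical condition of the local lemma for large `d` -/
theorem col_num : ∃ d0 : ℕ, 1 ≤ d0 ∧ ∀ d : ℕ, d0 ≤ d →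
    ((((3 * d + (3 * d) ^ 2) ^ 2 : ℕ) : ℝ)) * (2 * Real.exp (-(5 / 10 ^ 11) * d)) ≤ 1 / 4 := by
  have h := Real.tendsto_pow_mul_exp_neg_atTop_nhds_zero 4
  have hpos : (0 : ℝ) < (5 / 10 ^ 11) ^ 4 / 1152 := by positivity
  have h2 := (h.eventually (gt_mem_nhds hpos)).exists_forall_of_atTop
  obtain ⟨x0, hx0⟩ := h2
  refine ⟨max 1 ⌈x0 / (5 / 10 ^ 11)⌉₊, le_max_left _ _, fun d hd => ?_⟩
  have hd1 : 1 ≤ d := le_trans (le_max_left _ _) hd
  have hd2 : ⌈x0 / (5 / 10 ^ 11)⌉₊ ≤ d := le_trans (le_max_right _ _) hd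
  have hd3 : x0 / (5 / 10 ^ 11) ≤ (d : ℝ) := le_trans (Nat.le_ceil _) (by exact_mod_cast hd2)
  have hd4 : x0 ≤ (5 / 10 ^ 11) * (d : ℝ) := by
    rw [div_le_iff₀ (by positivity)] at hd3
    linarith
  have h3 := hx0 _ hd4
  have hdr : (1 : ℝ) ≤ d := by exact_mod_cast hd1
  have h4 : ((((3 * d + (3 * d) ^ 2) ^ 2 : ℕ) : ℝ)) ≤ 144 * (d : ℝ) ^ 4 := by
    push_cast
    have : 3 * (d : ℝ) + (3 * d) ^ 2 ≤ 12 * (d : ℝ) ^ 2 := by nlinarith
    calc (3 * (d : ℝ) + (3 * d) ^ 2) ^ 2 ≤ (12 * (d : ℝ) ^ 2) ^ 2 := by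
          apply pow_le_pow_left₀ (by positivity) this
      _ = 144 * (d : ℝ) ^ 4 := by ring
  have h5 : ((5 / 10 ^ 11) * (d : ℝ)) ^ 4 * Real.exp (-((5 / 10 ^ 11) * (d : ℝ))) =
      (5 / 10 ^ 11) ^ 4 * ((d : ℝ) ^ 4 * Real.exp (-(5 / 10 ^ 11) * d)) := by
    rw [neg_mul]; ring
  rw [h5, div_eq_mul_inv] at h3
  have h6 : (d : ℝ) ^ 4 * Real.exp (-(5 / 10 ^ 11) * d) < 1152⁻¹ :=
    lt_of_mul_lt_mul_left h3 (by positivity)
  have h7 : (0 : ℝ) ≤ Real.exp (-(5 / 10 ^ 11) * d) := (Real.exp_pos _).le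
  calc ((((3 * d + (3 * d) ^ 2) ^ 2 : ℕ) : ℝ)) * (2 * Real.exp (-(5 / 10 ^ 11) * d))
      ≤ (144 * (d : ℝ) ^ 4) * (2 * Real.exp (-(5 / 10 ^ 11) * d)) :=
        mul_le_mul_of_nonneg_right h4 (by positivity)
    _ = 288 * ((d : ℝ) ^ 4 * Real.exp (-(5 / 10 ^ 11) * d)) := by ring
    _ ≤ 288 * 1152⁻¹ := by linarith
    _ = 1 / 4 := by norm_num

/-- the list colouring lemma -/
theorem col : ∃ d0 : ℕ, ∀ d : ℕ, d0 ≤ d → ∀ (V : Type) [Fintype V] [DecidableEq V]
    (G : SimpleGraph V) (U : Finset V) (K : ℕ) (L : V → Finset (Fin K)), 0 < K →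
    (∀ x ∈ U, (8799 / 10000) * (d : ℝ) ≤ (L x).card) →
    (∀ x ∈ U, ((nb G U x).card : ℝ) ≤ (20002 / 10000) * d) →
    (∀ v ∈ U, (L v).card ≤ (nb G U v).card →
      ((nb G U v).card : ℝ) - (L v).card ≤ d / 5000 ∧
        (3 / 50) * (d : ℝ) ≤ out G U L v + pr G U L v) →
    ∃ f : V → Fin K, LCol G U L f := by
  obtain ⟨d0, hd01, hd0⟩ := col_num
  refine ⟨d0, fun d hd V _ _ G U K L hK hl hD hcr => ?_⟩
  classical
  have hd1 : 1 ≤ d := hd01.trans hd
  have hdr : (1 : ℝ) ≤ d := by exact_mod_cast hd1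
  have hDn : ∀ x ∈ U, (nb G U x).card ≤ 3 * d := by
    intro x hx
    have h1 := hD x hx
    have h2 : ((nb G U x).card : ℝ) ≤ ((3 * d : ℕ) : ℝ) := by push_cast; linarith
    exact_mod_cast h2
  obtain ⟨M, hM, dec, hdec⟩ := exists_dec U L (by
    intro x hx
    have h1 := hl x hx
    have h2 : (0 : ℝ) < (L x).card := by linarith
    rw [← card_pos]
    exact_mod_cast h2)
  haveI : Nonempty (Fin M) := ⟨⟨0, hM⟩⟩
  obtain ⟨ω, hω⟩ := lll_prod (ι := V) (α := Fin M)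
    (I := {v : V // v ∈ U.filter (fun v => (L v).card ≤ (nb G U v).card)})
    (fun v => univ.filter (fun ω : V → Fin M =>
      ((Sur G U L dec v.1 ω).card : ℝ) < (21 / 100000) * (d : ℝ)))
    (fun v => Cs G U v.1)
    (by
      intro v ω ω' h
      simp only [mem_filter, mem_univ, true_and]
      rw [sur_congr G U L dec v.1 ω ω' h])
    (2 * Real.exp (-(5 / 10 ^ 11) * d)) (by positivity)
    (by
      intro v
      have hv := (mem_filter.1 v.2)
      have h1 := prob_bad G U L dec hdec hM v.1 hv.1 d hdr hl hD (hcr v.1 hv.1 hv.2).2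
      rw [Fintype.card_fin]
      exact h1)
    ((3 * d + (3 * d) ^ 2) ^ 2) (Nat.one_le_pow _ _ (by positivity))
    (by
      intro v
      have hv := (mem_filter.1 v.2)
      have h1 := card_dep G U (3 * d) hDn v.1 hv.1
      refine le_trans ?_ h1
      apply card_le_card_of_injOn (fun u => u.1)
      · intro u hu
        have hu' := (mem_filter.1 (mem_coe.1 hu)).2
        exact mem_coe.2 (mem_filter.2 ⟨(mem_filter.1 u.2).1, hu'⟩)
      · intro a _ b _ hab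
        exact Subtype.ext hab)
    (hd0 d hd)
  refine finish hK G U L (psi G U dec ω) (fun x hx c h => psi_mem G U L dec hdec ω x hx c h)
    (fun x hx y hy hxy c h => psi_proper G U dec ω x y hx hy hxy c h) ?_
  intro v hv _
  have hs := savings G U L dec v ω
  by_cases hc : (L v).card ≤ (nb G U v).card
  · have h1 := hω ⟨v, mem_filter.2 ⟨hv, hc⟩⟩
    simp only [mem_filter, mem_univ, true_and, not_lt] at h1
    have h2 := (hcr v hv hc).1
    have h3 : ((((L v).filter (fun c => ∃ x ∈ nb G U v, psi G U dec ω x = some c)).card : ℕ) : ℝ) +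
      ((Sur G U L dec v ω).card : ℝ) +
      ((((nb G U v).filter (fun x => psi G U dec ω x = none)).card : ℕ) : ℝ) ≤ (nb G U v).card := by
      exact_mod_cast hs
    have h4 : ((((L v).filter (fun c => ∃ x ∈ nb G U v, psi G U dec ω x = some c)).card : ℕ) : ℝ) +
      ((((nb G U v).filter (fun x => psi G U dec ω x = none)).card : ℕ) : ℝ) < (L v).card := by
      linarith
    exact_mod_cast h4
  · omega

end MP892329.SF
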