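import Pool.Agent.Lib.MP_892329_co.SF.Base

/-!
# JOB Dec: a decoding of uniform random numbers in random colours

`IsDec`: the colour `dec x j : Option (Fin K)` of a uniform `j : Fin M`; each `c ∈ L x` has probability `1 / (10 |L x|)`, other colours do not occur.

Existence: `M = 10 * K !`. For `x ∈ U` put `l = |L x|`, `1 ≤ l ≤ K`, `l ∣ K !`, `r = K ! / l`, `M = 10 * l * r`. Identify `Fin M` with `Fin 10 × Fin l × Fin r`
(`finProdFinEquiv`, `finCongr`), let `e : Fin l ≃ L x` (`(L x).equivFin`), and `dec x (a, b, _) = if a = 0 then some (e b) else none`. The number of `j` with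
`dec x j = some c` is `r` for `c ∈ L x` and `10 * l * r = M`. For `x ∉ U` take `none` always. (Any other construction is fine: e.g. use
`j % 10 = 0` and `(j / 10) % l`.)
-/

set_option autoImplicit false

namespace MP892329.SF

open Finset

variable {V : Type} [Fintype V] [DecidableEq V] {K : ℕ}

/-- `dec x` turns a uniform element of `Fin M` into a random colour of `L x` (or no colour) -/
def IsDec (U : Finset V) (L : V → Finset (Fin K)) (M : ℕ) (dec : V → Fin M → Option (Fin K)) : Prop :=
  (∀ x ∈ U, ∀ c ∈ L x, 10 * (L x).card * (univ.filter (fun j => dec x j = some c)).card = M) ∧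
  ∀ x ∈ U, ∀ c, c ∉ L x → ∀ j, dec x j ≠ some c

private theorem dec_one (S : Finset (Fin K)) (hS : S.Nonempty) :
    ∃ d : Fin (10 * K.factorial) → Option (Fin K),
      (∀ c ∈ S, 10 * S.card * (univ.filter (fun j => d j = some c)).card = 10 * K.factorial) ∧
      ∀ c, c ∉ S → ∀ j, d j ≠ some c := by
  classical
  have hl0 : 0 < S.card := Finset.card_pos.2 hS
  have hlK : S.card ≤ K := by
    have := Finset.card_le_univ S
    rwa [Fintype.card_fin] at this
  obtain ⟨r, hr⟩ : S.card ∣ K.factorial := Nat.dvd_factorial hl0 hlK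
  have hcard : Fintype.card (Fin (10 * K.factorial)) =
      Fintype.card (Fin 10 × ({c // c ∈ S} × Fin r)) := by
    rw [Fintype.card_prod, Fintype.card_prod, Fintype.card_fin, Fintype.card_fin, Fintype.card_fin,
      Fintype.card_coe, hr]
  obtain ⟨e⟩ : Nonempty (Fin (10 * K.factorial) ≃ Fin 10 × ({c // c ∈ S} × Fin r)) :=
    ⟨Fintype.equivOfCardEq hcard⟩
  refine ⟨fun j => if (e j).1 = 0 then some ((e j).2.1 : Fin K) else none, ?_, ?_⟩
  · intro c hc
    have h1 : univ.filter (fun j => (if (e j).1 = 0 then some ((e j).2.1 : Fin K) else none) =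
        some c) = (({(0 : Fin 10)} : Finset (Fin 10)) ×ˢ
          (({⟨c, hc⟩} : Finset {c // c ∈ S}) ×ˢ (univ : Finset (Fin r)))).map
          e.symm.toEmbedding := by
      ext j
      rw [Finset.mem_filter, Finset.mem_map_equiv, Equiv.symm_symm, Finset.mem_product,
        Finset.mem_product, Finset.mem_singleton, Finset.mem_singleton]
      constructor
      · rintro ⟨_, h⟩
        by_cases h0 : (e j).1 = 0
        · rw [if_pos h0] at h
          exact ⟨h0, Subtype.ext (Option.some.inj h), Finset.mem_univ _⟩
        · rw [if_neg h0] at h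
          exact absurd h (by simp)
      · rintro ⟨h0, h2, _⟩
        refine ⟨Finset.mem_univ _, ?_⟩
        rw [if_pos h0, h2]
    rw [h1, Finset.card_map, Finset.card_product, Finset.card_product, Finset.card_singleton,
      Finset.card_singleton, Finset.card_univ, Fintype.card_fin, hr]
    ring
  · intro c hc j h
    change (if (e j).1 = 0 then some ((e j).2.1 : Fin K) else none) = some c at h
    by_cases h0 : (e j).1 = 0
    · rw [if_pos h0] at h
      exact hc (Option.some.inj h ▸ (e j).2.1.2)
    · rw [if_neg h0] at h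
      exact absurd h (by simp)

omit [Fintype V] in
theorem exists_dec (U : Finset V) (L : V → Finset (Fin K)) (hL : ∀ x ∈ U, (L x).Nonempty) :
    ∃ M : ℕ, 0 < M ∧ ∃ dec : V → Fin M → Option (Fin K), IsDec U L M dec := by
  classical
  have hM0 : 0 < 10 * K.factorial := Nat.mul_pos (by norm_num) (Nat.factorial_pos K)
  refine ⟨10 * K.factorial, hM0, ?_⟩
  have h1 : ∀ x, ∃ d : Fin (10 * K.factorial) → Option (Fin K), x ∈ U →
      (∀ c ∈ L x, 10 * (L x).card * (univ.filter (fun j => d j = some c)).card =
        10 * K.factorial) ∧ ∀ c, c ∉ L x → ∀ j, d j ≠ some c := by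
    intro x
    by_cases hx : x ∈ U
    · obtain ⟨d, hd⟩ := dec_one (L x) (hL x hx)
      exact ⟨d, fun _ => hd⟩
    · exact ⟨fun _ => none, fun h => absurd h hx⟩
  choose dec hdec using h1
  exact ⟨dec, fun x hx => (hdec x hx).1, fun x hx => (hdec x hx).2⟩

end MP892329.SF
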