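import Mathlib

/-!
# JOB ExpN: the numerical contradiction

All reals. `g = (2 + 9/50000) d - K`, `lm = K - (28/25) d`. Write `k = K`.
(3) `e + (K - (28/25) d - g) D ≤ SL`, (4) `SL - 2 e ≤ K (2 kap + D / lm + g D / lm)`, `kap ≤ (3/50) d`, `d ≥ 1000`.
Adding: `e ≥ (K - (28/25) d - g) D - K (2 kap + D / lm + g D / lm)`.
Bounds: `K - (28/25) d - g = 2 K - (3 + 3/25 + 9/50000) d ≥ (4 - 2/50000 - 3.12 - 9/50000) d ≥ 0.8797 d`; `K ≤ 2 d`; `lm ≥ (2 - 1/50000 - 1.12) d ≥ 0.8799 d`;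
`0 ≤ g ≤ (10/50000) d = d/5000`; so `K (2 kap) ≤ 0.24 d^2`, `K D / lm ≤ 2.274 D ≤ 0.002274 d D` (as `d ≥ 1000`), `K g D / lm ≤ 2.274 (d/5000) D ≤ 0.000455 d D`.
Hence `e ≥ (0.8797 - 0.00273) d D - 0.24 d^2 ≥ 0.8769 d D - 0.24 d^2`.
Case `D ≥ d`: `e ≤ d D - d^2/2`, so `0.26 d^2 ≤ 0.1231 d D ≤ 0.1231 * 2.00018 d^2 = 0.2463 d^2`, a contradiction.
Case `D < d`: `e ≤ D^2/2 ≤ d D / 2`, so `0.3769 d D ≤ 0.24 d^2`, but `D ≥ lm ≥ 0.8799 d` gives `0.3316 d^2 ≤ 0.24 d^2`, a contradiction.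
-/

set_option autoImplicit false

namespace MP892329.SF

theorem num (d K D kap e SL : ℝ) (hd : 1000 ≤ d) (hK1 : (2 - 1 / 50000) * d ≤ K) (hK2 : K ≤ 2 * d)
    (hD1 : K - (28 / 25) * d ≤ D) (hD2 : D ≤ (2 + 9 / 50000) * d) (hk0 : 0 ≤ kap) (hk : kap ≤ (3 / 50) * d)
    (h3 : e + (K - (28 / 25) * d - ((2 + 9 / 50000) * d - K)) * D ≤ SL)
    (h4 : SL - 2 * e ≤ K * (2 * kap + D / (K - (28 / 25) * d) +
      ((2 + 9 / 50000) * d - K) * D / (K - (28 / 25) * d)))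
    (h5 : d ≤ D → 2 * e ≤ 2 * d * D - d ^ 2) (h6 : 2 * e ≤ D ^ 2) : False := by
  have hd0 : 0 < d := by linarith
  obtain ⟨lm, hlm⟩ : ∃ lm, lm = K - (28 / 25) * d := ⟨_, rfl⟩
  obtain ⟨g, hg⟩ : ∃ g, g = (2 + 9 / 50000) * d - K := ⟨_, rfl⟩
  rw [← hlm, ← hg] at h3 h4
  rw [← hlm] at hD1
  have hlm1 : (87998 / 100000) * d ≤ lm := by rw [hlm]; linarith
  have hlm0 : 0 < lm := by nlinarith
  have hD0 : 0 < D := lt_of_lt_of_le hlm0 hD1
  have hg1 : g ≤ d / 5000 := by rw [hg]; linarith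
  have hg0 : 0 ≤ g := by rw [hg]; linarith
  have hlg : (8797 / 10000) * d ≤ lm - g := by rw [hlm, hg]; linarith
  have h7 : K * (D / lm) ≤ (2273 / 1000) * D := by
    rw [← mul_div_assoc, div_le_iff₀ hlm0]
    have : K ≤ (2273 / 1000) * lm := by linarith
    nlinarith
  have h8 : K * (g * D / lm) ≤ (d / 5000) * ((2273 / 1000) * D) := by
    have e1 : K * (g * D / lm) = g * (K * (D / lm)) := by ring
    rw [e1]
    have e2 : g * (K * (D / lm)) ≤ g * ((2273 / 1000) * D) := mul_le_mul_of_nonneg_left h7 hg0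
    have e3 : g * ((2273 / 1000) * D) ≤ (d / 5000) * ((2273 / 1000) * D) :=
      mul_le_mul_of_nonneg_right hg1 (by positivity)
    exact e2.trans e3
  have h9 : K * kap ≤ (12 / 100) * d ^ 2 := by
    have e1 : K * kap ≤ (2 * d) * ((3 / 50) * d) :=
      mul_le_mul hK2 hk hk0 (by linarith)
    nlinarith
  have h10 : (8797 / 10000) * d * D ≤ (lm - g) * D := mul_le_mul_of_nonneg_right hlg hD0.le
  have h11 : 1000 * D ≤ d * D := mul_le_mul_of_nonneg_right hd hD0.le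
  have h12 : K * (2 * kap + D / lm + g * D / lm)
      = 2 * (K * kap) + K * (D / lm) + K * (g * D / lm) := by ring
  rw [h12] at h4
  have h13 : (8769 / 10000) * (d * D) - (24 / 100) * d ^ 2 ≤ e := by
    nlinarith
  have hdd : 0 < d ^ 2 := by positivity
  rcases le_or_gt d D with hc | hc
  · have h14 := h5 hc
    have h15 : d * D ≤ (2 + 9 / 50000) * d ^ 2 := by nlinarith
    nlinarith
  · have h14 : D ^ 2 ≤ d * D := by nlinarith
    have h15 : (87998 / 100000) * d ^ 2 ≤ d * D := by nlinarith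
    nlinarith

end MP892329.SF
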