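import Pool.Agent.Lib.MP_892329_co.SF.ExpB
import Pool.Agent.Lib.MP_892329_co.SF.ExpN

/-!
# JOB Exp: the expected number of savings

Let `N = nb G U v`, `D = |N|`, `l x = |L x|`, `b x = |nb G (A \ U) x|`, `D x = |nb G U x|`, `a x = |nb G N x|`, `g = (2 + 9/50000) d - K`,
`lm = K - (28/25) d > 0`. Suppose `out + pr < (3/50) d =: kap`. We apply `num` with `e = (e2 G N)/2`, `SL = ∑ x ∈ N, l x`.

Facts for `x ∈ U`: `|nb G A x| = D x + b x` (`card_nb_sdiff`), `b x ≤ (28/25) d` (`hstar` for `X = {x}`, `e2 G {x} = 0`), hence `l x ≥ K - b x ≥ lm`;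
`l x ≥ K - b x = K + D x - |nb G A x| ≥ D x - g`; `l x ≤ K` (a subset of `Fin K`). `D = D v ≥ |L v| ≥ lm` and `D ≤ |nb G A v| ≤ (2 + 9/50000) d`.

(3) `hstar` for `X = N`: `e2 N + 2 ∑ b x ≤ 2 (28/25) d D`, and `b x = |nb G A x| - D x ≥ K - D x ≥ K - l x - g`. So
 `e2 N + 2 (K - g) D - 2 SL ≤ 2 (28/25) d D`, i.e. `e2 N / 2 + (K - (28/25) d - g) D ≤ SL`.
(4) put `u x = 1 - a x / l x`. `a x ≤ D x ≤ l x + g` (`N ⊆ U`), so `u x + g / lm ≥ u x + g / l x ≥ 0`, and `∑ u x ≤ 2 (out + pr) + ∑ 1 / l x ≤ 2 kap + D / lm` by `ineq2`.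
 `SL - e2 N = ∑ l x u x ≤ ∑ l x (u x + g / lm) ≤ K ∑ (u x + g / lm) ≤ K (2 kap + D / lm + g D / lm)` (`l x ≤ K`, the terms are `≥ 0`), where
 `∑ a x = e2 G N` by definition.
(5) `hF2 v N` (all `x ∈ N` are neighbours of `v`). (6) `e2_le_sq`.
-/

set_option autoImplicit false

namespace MP892329.SF

open Finset

variable {V : Type} [Fintype V] [DecidableEq V] {K : ℕ}

theorem expect (G : SimpleGraph V) (d : ℕ) (hd : 1000 ≤ d) (hF2 : F2 G d)
    (hK1 : (2 - 1 / 50000) * (d : ℝ) ≤ K) (hK2 : (K : ℝ) ≤ 2 * d) (A U : Finset V) (hU : U ⊆ A)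
    (hmin : ∀ v ∈ A, K ≤ (nb G A v).card)
    (hmax : ∀ v ∈ U, ((nb G A v).card : ℝ) ≤ (2 + 9 / 50000) * d)
    (hstar : ∀ X ⊆ U, (e2 G X : ℝ) + 2 * ∑ x ∈ X, ((nb G (A \ U) x).card : ℝ) ≤
        2 * (28 / 25) * d * X.card)
    (L : V → Finset (Fin K)) (hL : ∀ x ∈ U, K ≤ (L x).card + (nb G (A \ U) x).card)
    (v : V) (hv : v ∈ U) (hcr : (L v).card ≤ (nb G U v).card) :
    (3 / 50) * (d : ℝ) ≤ out G U L v + pr G U L v := by
  classical
  have hdR : (1000 : ℝ) ≤ d := by exact_mod_cast hd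
  obtain ⟨g, hg⟩ : ∃ g : ℝ, g = (2 + 9 / 50000) * d - K := ⟨_, rfl⟩
  obtain ⟨lm, hlm⟩ : ∃ lm : ℝ, lm = K - (28 / 25) * d := ⟨_, rfl⟩
  have hg0 : 0 ≤ g := by rw [hg]; linarith
  have hlm0 : 0 < lm := by rw [hlm]; linarith
  -- facts for the vertices of `U`
  have fb : ∀ x ∈ U, ((nb G (A \ U) x).card : ℝ) ≤ (28 / 25) * d := by
    intro x hx
    have h1 := hstar {x} (Finset.singleton_subset_iff.2 hx)
    rw [Finset.sum_singleton, Finset.card_singleton] at h1
    have h2 : (0 : ℝ) ≤ e2 G {x} := Nat.cast_nonneg _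
    push_cast at h1
    linarith
  have fA : ∀ x ∈ U, ((nb G A x).card : ℝ) = (nb G U x).card + (nb G (A \ U) x).card := by
    intro x _
    exact_mod_cast card_nb_sdiff G hU x
  have fL : ∀ x ∈ U, (K : ℝ) ≤ (L x).card + (nb G (A \ U) x).card := by
    intro x hx
    exact_mod_cast hL x hx
  have flm : ∀ x ∈ U, lm ≤ (L x).card := by
    intro x hx
    have h1 := fb x hx
    have h2 := fL x hx
    rw [hlm]
    linarith
  have fD : ∀ x ∈ U, ((nb G U x).card : ℝ) ≤ (L x).card + g := by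
    intro x hx
    have h1 := fA x hx
    have h2 := fL x hx
    have h3 := hmax x hx
    rw [hg]
    linarith
  have fK : ∀ x, ((L x).card : ℝ) ≤ K := by
    intro x
    have h1 := Finset.card_le_univ (L x)
    rw [Fintype.card_fin] at h1
    exact_mod_cast h1
  have fpos : ∀ x ∈ U, (0 : ℝ) < (L x).card := fun x hx => hlm0.trans_le (flm x hx)
  by_contra hcon
  push Not at hcon
  -- the neighbourhood of `v`
  obtain ⟨N, hN⟩ : ∃ N, N = nb G U v := ⟨_, rfl⟩
  have hNU : ∀ x ∈ N, x ∈ U := by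
    intro x hx
    rw [hN] at hx
    exact nb_sub G U v hx
  have hout : 0 ≤ out G U L v := by
    unfold out
    exact Finset.sum_nonneg fun x _ => div_nonneg (Nat.cast_nonneg _) (Nat.cast_nonneg _)
  have hpr : 0 ≤ pr G U L v := by
    unfold pr
    refine mul_nonneg (by norm_num) (Finset.sum_nonneg fun x _ => Finset.sum_nonneg fun y _ => ?_)
    split_ifs
    · exact div_nonneg (Nat.cast_nonneg _) (mul_nonneg (Nat.cast_nonneg _) (Nat.cast_nonneg _))
    · exact le_rfl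
  have hD1 : lm ≤ (N.card : ℝ) := by
    have h1 := flm v hv
    have h2 : ((L v).card : ℝ) ≤ ((nb G U v).card : ℝ) := by exact_mod_cast hcr
    rw [hN]
    linarith
  have hD2 : (N.card : ℝ) ≤ (2 + 9 / 50000) * d := by
    have h1 := fA v hv
    have h2 := hmax v hv
    have h3 : (0 : ℝ) ≤ ((nb G (A \ U) v).card : ℝ) := Nat.cast_nonneg _
    rw [hN]
    linarith
  -- (3)
  have h3 : (e2 G N : ℝ) / 2 + (lm - g) * N.card ≤ ∑ x ∈ N, ((L x).card : ℝ) := by
    have h1 := hstar N hNU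
    have h2 : ∑ x ∈ N, ((K : ℝ) - g - (L x).card) ≤ ∑ x ∈ N, ((nb G (A \ U) x).card : ℝ) := by
      refine Finset.sum_le_sum fun x hx => ?_
      have hxU := hNU x hx
      have h4 := fA x hxU
      have h5 := fD x hxU
      have h6 : (K : ℝ) ≤ (nb G A x).card := by exact_mod_cast hmin x (hU hxU)
      linarith
    rw [Finset.sum_sub_distrib, Finset.sum_const, nsmul_eq_mul] at h2
    rw [hlm]
    nlinarith
  -- (4)
  have h4 : ∑ x ∈ N, ((L x).card : ℝ) - (e2 G N : ℝ) ≤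
      K * (2 * (out G U L v + pr G U L v) + N.card / lm + g * N.card / lm) := by
    have hi := ineq2 G U L v (fun x hx => by
      have := fpos x (nb_sub G U v hx)
      exact_mod_cast this) hcr
    rw [← hN] at hi
    have h5 : ∑ x ∈ N, 1 / ((L x).card : ℝ) ≤ N.card / lm := by
      have h6 : ∑ x ∈ N, 1 / ((L x).card : ℝ) ≤ ∑ _x ∈ N, 1 / lm :=
        Finset.sum_le_sum fun x hx => one_div_le_one_div_of_le hlm0 (flm x (hNU x hx))
      rw [Finset.sum_const, nsmul_eq_mul] at h6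
      refine h6.trans (le_of_eq ?_)
      ring
    have h6 : ∑ x ∈ N, ((L x).card : ℝ) - (e2 G N : ℝ) =
        ∑ x ∈ N, (((L x).card : ℝ) - ((nb G N x).card : ℝ)) := by
      rw [Finset.sum_sub_distrib]
      unfold e2
      push_cast
      ring
    have h7 : ∑ x ∈ N, (((L x).card : ℝ) - ((nb G N x).card : ℝ)) ≤
        ∑ x ∈ N, K * (1 - ((nb G N x).card : ℝ) / ((L x).card : ℝ) + g / lm) := by
      refine Finset.sum_le_sum fun x hx => ?_
      have hxU := hNU x hx
      have hl := fpos x hxU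
      have ha : ((nb G N x).card : ℝ) ≤ (L x).card + g := by
        have h8 : ((nb G N x).card : ℝ) ≤ ((nb G U x).card : ℝ) := by
          exact_mod_cast Finset.card_le_card (nb_mono G hNU x)
        exact h8.trans (fD x hxU)
      have h9 : ((nb G N x).card : ℝ) / ((L x).card : ℝ) ≤ 1 + g / lm := by
        rw [div_le_iff₀ hl]
        have h10 : g ≤ g / lm * (L x).card := by
          rw [div_mul_eq_mul_div, le_div_iff₀ hlm0]
          exact mul_le_mul_of_nonneg_left (flm x hxU) hg0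
        linarith
      have h10 : ((L x).card : ℝ) - ((nb G N x).card : ℝ) =
          (L x).card * (1 - ((nb G N x).card : ℝ) / ((L x).card : ℝ)) := by
        rw [mul_sub, mul_div_cancel₀ _ hl.ne', mul_one]
      have h11 : 0 ≤ g / lm := div_nonneg hg0 hlm0.le
      rw [h10]
      calc ((L x).card : ℝ) * (1 - ((nb G N x).card : ℝ) / ((L x).card : ℝ))
          ≤ (L x).card * (1 - ((nb G N x).card : ℝ) / ((L x).card : ℝ) + g / lm) :=
            mul_le_mul_of_nonneg_left (by linarith) hl.le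
        _ ≤ K * (1 - ((nb G N x).card : ℝ) / ((L x).card : ℝ) + g / lm) :=
            mul_le_mul_of_nonneg_right (fK x) (by linarith)
    rw [h6]
    refine h7.trans ?_
    rw [← Finset.mul_sum]
    refine mul_le_mul_of_nonneg_left ?_ (Nat.cast_nonneg _)
    rw [Finset.sum_add_distrib, Finset.sum_sub_distrib, Finset.sum_const, Finset.sum_const,
      nsmul_eq_mul, nsmul_eq_mul, mul_one]
    have h8 : (N.card : ℝ) * (g / lm) = g * N.card / lm := by ring
    rw [h8]
    linarith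
  refine num d K N.card (out G U L v + pr G U L v) ((e2 G N : ℝ) / 2)
    (∑ x ∈ N, ((L x).card : ℝ)) hdR hK1 hK2 (by rw [← hlm]; exact hD1) hD2 (add_nonneg hout hpr)
    hcon.le (by rw [← hlm, ← hg]; exact h3) ?_ ?_ ?_
  · rw [← hlm, ← hg, mul_div_cancel₀ _ (two_ne_zero)]
    exact h4
  · intro h5
    rw [mul_div_cancel₀ _ (two_ne_zero)]
    refine hF2 v N (fun x hx => ?_) (by exact_mod_cast h5)
    rw [hN] at hx
    exact (mem_nb.1 hx).2
  · rw [mul_div_cancel₀ _ (two_ne_zero)]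
    have h5 := e2_le_sq G N
    rw [sq]
    exact_mod_cast h5

end MP892329.SF
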