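import Pool.Agent.Lib.MP_892329_co.SF.Cnt

/-!
# JOB ExpA: the weights of the colours

Fix `v`, `N = nb G U v`, `l x = |L x|`, and `Wc c := ∑ x ∈ N, if c ∈ L x then 1 / l x else 0`.

* `sumW`: `∑ c ∈ L v, Wc c = ∑ x ∈ N, |L x ∩ L v| / l x` (exchange the sums), and `|L x ∩ L v| = l x - |L x \ L v|`, so each summand is
  `1 - |L x \ L v| / l x`; sum up: `|N| - out`.
* `sumW2`: `∑ c ∈ L v, Wc c ^ 2 = ∑ x ∈ N, ∑ y ∈ N, |L x ∩ L y ∩ L v| / (l x l y)` (expand the square: `sq`, `Finset.sum_mul_sum`, exchange sums;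
  for fixed `x, y` the number of `c ∈ L v` with `c ∈ L x` and `c ∈ L y` is `|L x ∩ L y ∩ L v|`). Split the pairs `(x, y)` in three classes:
  `x = y`: summand `≤ 1 / l x` (as `|L x ∩ L x ∩ L v| ≤ l x`);
  `x ≠ y`, not adjacent: these sum to `2 * pr G U L v` (definition of `pr`);
  `x ≠ y`, adjacent: summand `≤ 1 / l x` (as `|L x ∩ L y ∩ L v| ≤ l y`), and for fixed `x` there are `|nb G N x|` such `y`.
  So termwise: summand `(x,y)` is at most `(if x = y then 1 / l x else 0) + (if x ≠ y ∧ ¬ Adj x y then .. else 0) + (if Adj x y then 1 / l x else 0)`.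
-/

set_option autoImplicit false

namespace MP892329.SF

open Finset

variable {V : Type} [Fintype V] [DecidableEq V] {K : ℕ}

/-- the weight of the colour `c` at `v` -/
noncomputable def Wc (G : SimpleGraph V) (U : Finset V) (L : V → Finset (Fin K)) (v : V) (c : Fin K) : ℝ :=
  ∑ x ∈ nb G U v, if c ∈ L x then 1 / ((L x).card : ℝ) else 0

theorem sumW (G : SimpleGraph V) (U : Finset V) (L : V → Finset (Fin K)) (v : V)
    (hpos : ∀ x ∈ nb G U v, 0 < (L x).card) :
    ∑ c ∈ L v, Wc G U L v c = ((nb G U v).card : ℝ) - out G U L v := by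
  unfold Wc out
  rw [Finset.sum_comm, Finset.card_eq_sum_ones, Nat.cast_sum, ← Finset.sum_sub_distrib]
  refine Finset.sum_congr rfl fun x hx => ?_
  rw [Finset.sum_ite_mem, Finset.sum_const, nsmul_eq_mul, Nat.cast_one]
  have h1 : ((L x ∩ L v).card : ℝ) + ((L x \ L v).card : ℝ) = ((L x).card : ℝ) := by
    rw [← Nat.cast_add, Finset.card_inter_add_card_sdiff]
  have h2 : ((L x).card : ℝ) ≠ 0 := Nat.cast_ne_zero.2 (hpos x hx).ne'
  rw [Finset.inter_comm (L v) (L x)]
  field_simp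
  linarith

private theorem expa_sq (G : SimpleGraph V) (U : Finset V) (L : V → Finset (Fin K)) (v : V) :
    ∑ c ∈ L v, Wc G U L v c ^ 2 = ∑ x ∈ nb G U v, ∑ y ∈ nb G U v,
      ((L x ∩ L y ∩ L v).card : ℝ) / (((L x).card : ℝ) * ((L y).card : ℝ)) := by
  have h1 : ∀ c ∈ L v, Wc G U L v c ^ 2 = ∑ x ∈ nb G U v, ∑ y ∈ nb G U v,
      if c ∈ L x ∩ L y then 1 / (((L x).card : ℝ) * ((L y).card : ℝ)) else 0 := by
    intro c _
    unfold Wc
    rw [sq, Finset.sum_mul_sum]
    refine Finset.sum_congr rfl fun x _ => Finset.sum_congr rfl fun y _ => ?_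
    by_cases h1 : c ∈ L x
    · by_cases h2 : c ∈ L y
      · rw [if_pos h1, if_pos h2, if_pos (Finset.mem_inter.2 ⟨h1, h2⟩), one_div_mul_one_div]
      · rw [if_neg h2, mul_zero, if_neg fun h => h2 (Finset.mem_inter.1 h).2]
    · rw [if_neg h1, zero_mul, if_neg fun h => h1 (Finset.mem_inter.1 h).1]
  rw [Finset.sum_congr rfl h1, Finset.sum_comm]
  refine Finset.sum_congr rfl fun x _ => ?_
  rw [Finset.sum_comm]
  refine Finset.sum_congr rfl fun y _ => ?_
  rw [Finset.sum_ite_mem, Finset.sum_const, nsmul_eq_mul, Finset.inter_comm (L v), mul_one_div]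

theorem sumW2 (G : SimpleGraph V) (U : Finset V) (L : V → Finset (Fin K)) (v : V)
    (hpos : ∀ x ∈ nb G U v, 0 < (L x).card) :
    ∑ c ∈ L v, Wc G U L v c ^ 2 ≤ ∑ x ∈ nb G U v, 1 / ((L x).card : ℝ) + 2 * pr G U L v +
      ∑ x ∈ nb G U v, ((nb G (nb G U v) x).card : ℝ) / ((L x).card : ℝ) := by
  classical
  rw [expa_sq]
  have hl : ∀ x ∈ nb G U v, (0 : ℝ) < ((L x).card : ℝ) := fun x hx => Nat.cast_pos.2 (hpos x hx)
  have h2 : 2 * pr G U L v = ∑ x ∈ nb G U v, ∑ y ∈ nb G U v,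
      if x ≠ y ∧ ¬ G.Adj x y then
        ((L x ∩ L y ∩ L v).card : ℝ) / (((L x).card : ℝ) * ((L y).card : ℝ)) else 0 := by
    unfold pr
    rw [← mul_assoc]
    norm_num
  have h1 : ∑ x ∈ nb G U v, 1 / ((L x).card : ℝ) = ∑ x ∈ nb G U v, ∑ y ∈ nb G U v,
      if x = y then 1 / ((L x).card : ℝ) else 0 := by
    refine Finset.sum_congr rfl fun x hx => ?_
    rw [Finset.sum_ite_eq, if_pos hx]
  have h3 : ∑ x ∈ nb G U v, ((nb G (nb G U v) x).card : ℝ) / ((L x).card : ℝ) =
      ∑ x ∈ nb G U v, ∑ y ∈ nb G U v, if G.Adj x y then 1 / ((L x).card : ℝ) else 0 := by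
    refine Finset.sum_congr rfl fun x _ => ?_
    rw [← Finset.sum_filter, Finset.sum_const, nsmul_eq_mul, mul_one_div]
    congr 2
  rw [h1, h2, h3, ← Finset.sum_add_distrib, ← Finset.sum_add_distrib]
  refine Finset.sum_le_sum fun x hx => ?_
  rw [← Finset.sum_add_distrib, ← Finset.sum_add_distrib]
  refine Finset.sum_le_sum fun y hy => ?_
  have hx0 := hl x hx
  have hy0 := hl y hy
  by_cases hxy : x = y
  · subst hxy
    have hA : ¬ G.Adj x x := G.loopless.irrefl x
    rw [if_pos rfl, if_neg (by tauto), if_neg hA, add_zero, add_zero, Finset.inter_self,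
      div_le_div_iff₀ (by positivity) hx0]
    have hc : ((L x ∩ L v).card : ℝ) ≤ ((L x).card : ℝ) :=
      Nat.cast_le.2 (Finset.card_le_card Finset.inter_subset_left)
    nlinarith
  · by_cases hA : G.Adj x y
    · rw [if_neg hxy, if_neg (by tauto), if_pos hA, zero_add, zero_add,
        div_le_div_iff₀ (by positivity) hx0]
      have hc : ((L x ∩ L y ∩ L v).card : ℝ) ≤ ((L y).card : ℝ) :=
        Nat.cast_le.2 (Finset.card_le_card
          (Finset.inter_subset_left.trans Finset.inter_subset_right))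
      nlinarith
    · rw [if_neg hxy, if_pos ⟨hxy, hA⟩, if_neg hA, zero_add, add_zero]

end MP892329.SF
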