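import Pool.Agent.Lib.MP_892329_co.SF.ExpA

/-!
# JOB ExpB: Cauchy-Schwarz

Let `D = |N|`, `N = nb G U v`, `O = out`, `S2 = ∑ c ∈ L v, Wc c ^ 2`. By `sumW` and `sq_sum_le_card_mul_sum_sq`
`(D - O) ^ 2 = (∑ c ∈ L v, Wc c) ^ 2 ≤ |L v| S2 ≤ D S2`. As `(D - O) ^ 2 ≥ D (D - 2 O)`, `D - 2 O ≤ S2` when `D > 0`; when `D = 0` the set `N` is empty,
`out = 0`, and all sums vanish (`0 - 2 * 0 ≤ S2` anyway, since `S2 ≥ 0`; note `pr ≥ 0`). With `sumW2`:
`D - 2 O ≤ ∑ 1 / l x + 2 pr + ∑ |nb G N x| / l x`.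
-/

set_option autoImplicit false

namespace MP892329.SF

open Finset

variable {V : Type} [Fintype V] [DecidableEq V] {K : ℕ}

theorem ineq2 (G : SimpleGraph V) (U : Finset V) (L : V → Finset (Fin K)) (v : V)
    (hpos : ∀ x ∈ nb G U v, 0 < (L x).card) (hcr : (L v).card ≤ (nb G U v).card) :
    ((nb G U v).card : ℝ) - 2 * (out G U L v + pr G U L v) - ∑ x ∈ nb G U v, 1 / ((L x).card : ℝ) ≤
      ∑ x ∈ nb G U v, ((nb G (nb G U v) x).card : ℝ) / ((L x).card : ℝ) := by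
  have h1 := sumW G U L v hpos
  have h2 := sumW2 G U L v hpos
  have hcs : (∑ c ∈ L v, Wc G U L v c) ^ 2 ≤ ((L v).card : ℝ) * ∑ c ∈ L v, Wc G U L v c ^ 2 :=
    sq_sum_le_card_mul_sum_sq
  set S2 : ℝ := ∑ c ∈ L v, Wc G U L v c ^ 2 with hS2
  have hS0 : 0 ≤ S2 := Finset.sum_nonneg fun c _ => sq_nonneg _
  rw [h1] at hcs
  have hle : ((L v).card : ℝ) ≤ ((nb G U v).card : ℝ) := Nat.cast_le.2 hcr
  have h4 : ((nb G U v).card : ℝ) - 2 * out G U L v ≤ S2 := by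
    rcases Nat.eq_zero_or_pos (nb G U v).card with h0 | h0
    · have h5 : nb G U v = ∅ := Finset.card_eq_zero.1 h0
      have h6 : out G U L v = 0 := by
        unfold out
        rw [h5, Finset.sum_empty]
      rw [h0, h6]
      simpa using hS0
    · have hD0 : (0 : ℝ) < ((nb G U v).card : ℝ) := Nat.cast_pos.2 h0
      have h7 : ((L v).card : ℝ) * S2 ≤ ((nb G U v).card : ℝ) * S2 :=
        mul_le_mul_of_nonneg_right hle hS0
      have h8 : ((nb G U v).card : ℝ) * (((nb G U v).card : ℝ) - 2 * out G U L v) ≤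
          ((nb G U v).card : ℝ) * S2 := by
        nlinarith [sq_nonneg (out G U L v)]
      exact le_of_mul_le_mul_left h8 hD0
  linarith

end MP892329.SF
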