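import Pool.Agent.Lib.MP_892329_co.SF.Grd

/-!
# Fin: from a partial colouring with enough savings to a full colouring (greedy)
-/

set_option autoImplicit false

namespace MP892329.SF

open Finset

variable {V : Type} [Fintype V] [DecidableEq V] {K : ℕ}

open Classical in
theorem finish (hK : 0 < K) (G : SimpleGraph V) (U : Finset V) (L : V → Finset (Fin K))
    (psi : V → Option (Fin K))
    (hm : ∀ x ∈ U, ∀ c, psi x = some c → c ∈ L x)
    (hp : ∀ x ∈ U, ∀ y ∈ U, G.Adj x y → ∀ c, psi x = some c → psi y ≠ some c)
    (hs : ∀ v ∈ U, psi v = none →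
      ((L v).filter (fun c => ∃ x ∈ nb G U v, psi x = some c)).card +
        ((nb G U v).filter (fun x => psi x = none)).card < (L v).card) :
    ∃ f : V → Fin K, LCol G U L f := by
  have hg := greedy hK G (U.filter (fun x => psi x = none))
    (fun v => (L v).filter (fun c => ¬ ∃ x ∈ nb G U v, psi x = some c)) (by
      intro x hx
      rw [mem_filter] at hx
      have h1 := hs x hx.1 hx.2
      have h2 := card_filter_add_card_filter_not (s := L x)
        (fun c => ∃ y ∈ nb G U x, psi y = some c)
      have h3 : nb G (U.filter (fun y => psi y = none)) x ⊆ (nb G U x).filter (fun y => psi y = none) := by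
        intro y hy
        rw [mem_nb, mem_filter] at hy
        rw [mem_filter, mem_nb]
        exact ⟨⟨hy.1.1, hy.2⟩, hy.1.2⟩
      have h4 := card_le_card h3
      omega)
  obtain ⟨f0, hf1, hf2⟩ := hg
  refine ⟨fun x => (psi x).getD (f0 x), ?_, ?_⟩
  · intro x hx
    rcases hpx : psi x with _ | c
    · have := hf1 x (mem_filter.2 ⟨hx, hpx⟩)
      rw [mem_filter] at this
      simpa [hpx] using this.1
    · simpa [hpx] using hm x hx c hpx
  · intro x hx y hy hxy
    rcases hpx : psi x with _ | c
    · rcases hpy : psi y with _ | c'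
      · simpa [hpx, hpy] using hf2 x (mem_filter.2 ⟨hx, hpx⟩) y (mem_filter.2 ⟨hy, hpy⟩) hxy
      · have := hf1 x (mem_filter.2 ⟨hx, hpx⟩)
        rw [mem_filter] at this
        intro he
        simp only [hpx, hpy, Option.getD_none, Option.getD_some] at he
        exact this.2 ⟨y, mem_nb.2 ⟨hy, hxy⟩, by rw [hpy, he]⟩
    · rcases hpy : psi y with _ | c'
      · have := hf1 y (mem_filter.2 ⟨hy, hpy⟩)
        rw [mem_filter] at this
        intro he
        simp only [hpx, hpy, Option.getD_none, Option.getD_some] at he
        exact this.2 ⟨x, mem_nb.2 ⟨hx, hxy.symm⟩, by rw [hpx, he]⟩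
      · intro he
        simp only [hpx, hpy, Option.getD_some] at he
        exact hp x hx y hy hxy c hpx (by rw [hpy, he])

end MP892329.SF
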