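import Pool.Agent.Lib.MP_892329_co.SF.Base

/-!
# JOB Grd: greedy list colouring

If every `x ∈ A` has more colours in its list than neighbours in `A`, then there is a proper list colouring of `A`. Induction on `|A|`: remove a vertex `x`, colour
`A.erase x` by the induction hypothesis (degrees do not increase), give `x` a colour of `L x` not used by its neighbours in `A.erase x` (`Function.update`).
For `A = ∅` take a constant function (`0 < K`).
-/

set_option autoImplicit false

namespace MP892329.SF

open Finset

variable {V : Type} [Fintype V] [DecidableEq V] {K : ℕ}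

omit [Fintype V] in
theorem greedy (hK : 0 < K) (G : SimpleGraph V) (A : Finset V) (L : V → Finset (Fin K))
    (h : ∀ x ∈ A, (nb G A x).card < (L x).card) : ∃ f : V → Fin K, LCol G A L f := by
  classical
  induction A using Finset.induction_on with
  | empty =>
    refine ⟨fun _ => ⟨0, hK⟩, fun x hx => ?_, fun x hx => ?_⟩
    · exact absurd hx (notMem_empty x)
    · exact absurd hx (notMem_empty x)
  | insert x A hx ih =>
    obtain ⟨f, hf1, hf2⟩ := ih (fun y hy =>
      lt_of_le_of_lt (card_le_card (nb_mono G (subset_insert x A) y)) (h y (mem_insert_of_mem hy)))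
    have h1 : ((nb G A x).image f).card < (L x).card :=
      lt_of_le_of_lt (card_image_le.trans (card_le_card (nb_mono G (subset_insert x A) x)))
        (h x (mem_insert_self x A))
    obtain ⟨c, hc1, hc2⟩ := exists_mem_notMem_of_card_lt_card h1
    have hne : ∀ y ∈ A, y ≠ x := fun y hy hyx => hx (hyx ▸ hy)
    have hcy : ∀ y ∈ A, G.Adj x y → c ≠ f y := by
      intro y hy hadj hcf
      exact hc2 (mem_image.2 ⟨y, mem_nb.2 ⟨hy, hadj⟩, hcf.symm⟩)
    refine ⟨Function.update f x c, fun y hy => ?_, fun y hy z hz hadj => ?_⟩
    · rcases mem_insert.1 hy with rfl | hy1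
      · rw [Function.update_self]
        exact hc1
      · rw [Function.update_of_ne (hne y hy1)]
        exact hf1 y hy1
    · rcases mem_insert.1 hy with hyx | hy1
      · rcases mem_insert.1 hz with hzx | hz1
        · rw [hyx, hzx] at hadj
          exact absurd hadj (G.loopless.irrefl x)
        · rw [hyx] at hadj
          rw [hyx, Function.update_self, Function.update_of_ne (hne z hz1)]
          exact hcy z hz1 hadj
      · rcases mem_insert.1 hz with hzx | hz1
        · rw [hzx] at hadj
          rw [hzx, Function.update_self, Function.update_of_ne (hne y hy1)]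
          exact (hcy y hy1 hadj.symm).symm
        · rw [Function.update_of_ne (hne y hy1), Function.update_of_ne (hne z hz1)]
          exact hf2 y hy1 z hz1 hadj

end MP892329.SF
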