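import Pool.Agent.Lib.MP_892329_co.SF.Base

/-!
# JOB LinA: a stress-free framework on `A` has at most `(dim E) |A|` edges

Hypothesis `h`: the only symmetric `w` supported on the edges inside `A` and in equilibrium at all vertices of `A` is `0`.
Proof. Let `P := ((G.induce A).edgeSet)` (or: the edges of `G` inside `A`, as elements of `Sym2 V`; or the ordered pairs `(x, y)`, `x < y`, for a linear order of `V`
such as the one transported from `Fin` by `Fintype.equivFin V`). The linear map `(P → ℝ) → (A → E)`, which sends a function `s` on the edges to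
`v ↦ ∑ u ∈ A, w u v • (p u - p v)` with `w u v = s s(u, v)` for adjacent `u, v ∈ A` and `0` otherwise, is injective by `h`. So
`|P| ≤ finrank (A → E) = |A| finrank E` (`LinearMap.finrank_le_finrank_of_injective`), and `e2 G A = 2 |P|` (`SimpleGraph.sum_degrees_eq_twice_card_edges` for the
induced graph, or count the ordered pairs).
-/

set_option autoImplicit false

namespace MP892329.SF

open Finset

variable {V : Type} [Fintype V] [DecidableEq V]

theorem linA (G : SimpleGraph V) (A : Finset V) {E : Type} [AddCommGroup E] [Module ℝ E]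
    [FiniteDimensional ℝ E] (p : V → E)
    (h : ∀ w : V → V → ℝ, (∀ x y, w x y = w y x) →
      (∀ x y, w x y ≠ 0 → x ∈ A ∧ y ∈ A ∧ G.Adj x y) →
      (∀ v ∈ A, ∑ u ∈ A, w u v • (p u - p v) = 0) → ∀ x y, w x y = 0) :
    e2 G A ≤ 2 * (Module.finrank ℝ E * A.card) := by
  classical
  let G' : SimpleGraph V :=
    { Adj := fun x y => G.Adj x y ∧ x ∈ A ∧ y ∈ A
      symm := ⟨fun x y h => ⟨h.1.symm, h.2.2, h.2.1⟩⟩
      loopless := ⟨fun x h => G.loopless.irrefl x h.1⟩ }
  have hadj : ∀ x y, G'.Adj x y ↔ G.Adj x y ∧ x ∈ A ∧ y ∈ A := fun x y => Iff.rfl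
  have hcount : e2 G A = 2 * Fintype.card G'.edgeSet := by
    have h1 := G'.sum_degrees_eq_twice_card_edges
    rw [SimpleGraph.edgeFinset_card] at h1
    rw [← h1]
    have h2 : ∀ x ∈ A, (nb G A x).card = G'.degree x := by
      intro x hx
      rw [← SimpleGraph.card_neighborFinset_eq_degree]
      apply congrArg
      ext y
      rw [mem_nb, SimpleGraph.mem_neighborFinset, hadj]
      tauto
    have h3 : ∀ x ∈ (univ : Finset V), x ∉ A → G'.degree x = 0 := by
      intro x _ hx
      rw [← SimpleGraph.card_neighborFinset_eq_degree, card_eq_zero]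
      ext y
      rw [SimpleGraph.mem_neighborFinset, hadj]
      simp only [notMem_empty, iff_false]
      tauto
    unfold e2
    rw [sum_congr rfl h2]
    exact sum_subset (subset_univ A) h3
  let ex : (G'.edgeSet → ℝ) → Sym2 V → ℝ := fun s q =>
    if h : q ∈ G'.edgeSet then s ⟨q, h⟩ else 0
  have hadd : ∀ s t q, ex (s + t) q = ex s q + ex t q := by
    intro s t q
    simp only [ex]
    split_ifs with hq
    · rfl
    · rw [add_zero]
  have hsmul : ∀ (c : ℝ) s q, ex (c • s) q = c * ex s q := by
    intro c s q
    simp only [ex]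
    split_ifs with hq
    · rfl
    · rw [mul_zero]
  let T : (G'.edgeSet → ℝ) →ₗ[ℝ] ({x // x ∈ A} → E) :=
    { toFun := fun s v => ∑ u ∈ A, ex s s(u, v.1) • (p u - p v.1)
      map_add' := by
        intro s t
        funext v
        simp only [hadd, add_smul, sum_add_distrib, Pi.add_apply]
      map_smul' := by
        intro c s
        funext v
        simp only [hsmul, mul_smul, RingHom.id_apply, Pi.smul_apply, smul_sum] }
  have hT : Function.Injective T := by
    rw [injective_iff_map_eq_zero]
    intro s hs
    have h1 := h (fun u v => ex s s(u, v)) (fun x y => by rw [Sym2.eq_swap]) (by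
      intro x y hxy
      have h2 : s(x, y) ∈ G'.edgeSet := by
        by_contra h3
        apply hxy
        simp only [ex]
        rw [dif_neg h3]
      rw [SimpleGraph.mem_edgeSet, hadj] at h2
      exact ⟨h2.2.1, h2.2.2, h2.1⟩) (by
      intro v hv
      exact congrFun hs ⟨v, hv⟩)
    funext q
    obtain ⟨q, hq⟩ := q
    induction q using Sym2.ind with
    | _ x y =>
      have h2 := h1 x y
      simp only [ex] at h2
      rw [dif_pos hq] at h2
      exact h2
  have h4 := LinearMap.finrank_le_finrank_of_injective hT
  rw [Module.finrank_fintype_fun_eq_card, Module.finrank_pi_fintype, sum_const, card_univ,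
    Fintype.card_coe, smul_eq_mul] at h4
  rw [hcount, mul_comm (Module.finrank ℝ E)]
  exact Nat.mul_le_mul_left 2 h4

end MP892329.SF
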