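import Pool.Agent.Lib.MP_892329_co.SF.Base

/-!
# JOB LinB: the number of nonadjacent pairs in `N`

Hypothesis `h`: the only symmetric matrix `Ω`, supported on `N × N`, with `Ω x y = 0` for distinct nonadjacent `x, y`, and `∑ y ∈ N, Ω x y • p y = 0` for all `x ∈ N`, is `0`.
Claim: `m (m+1) + e2 G N + |N| ≤ |N|^2` whenever `m + dim E ≤ |N|`.
Proof. The kernel of `(N → ℝ) → E`, `z ↦ ∑ y ∈ N, z y • p y`, has dimension at least `|N| - dim E ≥ m` (rank-nullity), so it contains linearly independent
`Z 1, .., Z m : N → ℝ` (`Fin m → N → ℝ`; extend by `0` to functions on `V`). For a function `s` on `Sym2 (Fin m)` put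
`Ω x y = ∑ i, ∑ j, s s(i, j) * Z i x * Z j y`. It is symmetric, supported on `N × N`, and `∑ y ∈ N, Ω x y • p y = 0`. It depends linearly on `s`. If `Ω x y = 0` for all
distinct nonadjacent `x, y ∈ N`, then `Ω = 0` by `h`, and then `s = 0`: for each `y`, `∑ i, (∑ j, s s(i,j) * Z j y) • Z i = 0` gives `∑ j, s s(i,j) * Z j y = 0` for all `i`, `y`
(linear independence of `Z`), and again by linear independence `s s(i,j) = 0`.
So the linear map from functions on `Sym2 (Fin m)` to functions on the set `Q` of the unordered pairs of distinct nonadjacent elements of `N`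
(`Q` = edges of the complement of the induced graph, a subset of `Sym2 N`; or ordered pairs `x < y` for a linear order) is injective, and
`m (m+1) / 2 = card (Sym2 (Fin m)) ≤ |Q|` (`Sym2.card`: `(m+1).choose 2`). Finally the ordered pairs in `N × N` are: `|N|` diagonal ones, `e2 G N` adjacent ones, `2 |Q|` others:
`|N|^2 = |N| + e2 G N + 2 |Q|`.
-/

set_option autoImplicit false

namespace MP892329.SF

open Finset

variable {V : Type} [Fintype V] [DecidableEq V]

omit [Fintype V] [DecidableEq V] in
/-- the graph of the distinct nonadjacent pairs in `N` -/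
private def linBH (G : SimpleGraph V) (N : Finset V) : SimpleGraph V where
  Adj x y := x ∈ N ∧ y ∈ N ∧ x ≠ y ∧ ¬ G.Adj x y
  symm := ⟨fun _ _ h => ⟨h.2.1, h.1, h.2.2.1.symm, fun h' => h.2.2.2 h'.symm⟩⟩
  loopless := ⟨fun _ h => h.2.2.1 rfl⟩

private theorem linB_count (G : SimpleGraph V) (N : Finset V) [DecidableRel (linBH G N).Adj] :
    N.card + e2 G N + 2 * (linBH G N).edgeFinset.card = N.card ^ 2 := by
  have hdeg : ∀ v ∈ N, 1 + (nb G N v).card + (linBH G N).degree v = N.card := by
    intro v hv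
    have e : (linBH G N).neighborFinset v = (N \ nb G N v).erase v := by
      ext y
      rw [SimpleGraph.mem_neighborFinset, mem_erase, mem_sdiff, mem_nb]
      constructor
      · rintro ⟨-, h2, h3, h4⟩
        exact ⟨h3.symm, h2, fun h => h4 h.2⟩
      · rintro ⟨h1, h2, h3⟩
        exact ⟨hv, h2, h1.symm, fun h => h3 ⟨h2, h⟩⟩
    have h1 : v ∈ N \ nb G N v := mem_sdiff.2 ⟨hv, not_mem_nb_self G N v⟩
    have h2 := card_le_card (nb_sub G N v)
    have h3 := card_sdiff_of_subset (nb_sub G N v)
    have h4 : 0 < (N \ nb G N v).card := card_pos.2 ⟨v, h1⟩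
    rw [← SimpleGraph.card_neighborFinset_eq_degree, e, card_erase_of_mem h1, h3]
    omega
  have hdeg0 : ∀ v, v ∉ N → (linBH G N).degree v = 0 := by
    intro v hv
    rw [← SimpleGraph.card_neighborFinset_eq_degree, card_eq_zero, eq_empty_iff_forall_notMem]
    intro y hy
    rw [SimpleGraph.mem_neighborFinset] at hy
    exact hv hy.1
  rw [← SimpleGraph.sum_degrees_eq_twice_card_edges,
    ← sum_subset (subset_univ N) (fun v _ hv => hdeg0 v hv), e2, card_eq_sum_ones, add_assoc,
    ← sum_add_distrib, ← sum_add_distrib, sum_congr rfl fun v hv => (add_assoc _ _ _).symm.trans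
      (hdeg v hv), sum_const, smul_eq_mul, ← card_eq_sum_ones, sq]

theorem linB (G : SimpleGraph V) (N : Finset V) {E : Type} [AddCommGroup E] [Module ℝ E]
    [FiniteDimensional ℝ E] (p : V → E)
    (h : ∀ Om : V → V → ℝ, (∀ x y, Om x y = Om y x) →
      (∀ x y, Om x y ≠ 0 → x ∈ N ∧ y ∈ N ∧ (x = y ∨ G.Adj x y)) →
      (∀ x ∈ N, ∑ y ∈ N, Om x y • p y = 0) → ∀ x y, Om x y = 0)
    (m : ℕ) (hm : m + Module.finrank ℝ E ≤ N.card) :
    m * (m + 1) + e2 G N + N.card ≤ N.card ^ 2 := by
  classical
  set T : (N → ℝ) →ₗ[ℝ] E := Fintype.linearCombination ℝ (fun y : N => p y) with hT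
  have hker : m ≤ Module.finrank ℝ (LinearMap.ker T) := by
    have h1 := LinearMap.finrank_range_add_finrank_ker T
    have h2 : Module.finrank ℝ (LinearMap.range T) ≤ Module.finrank ℝ E := Submodule.finrank_le _
    rw [Module.finrank_fintype_fun_eq_card, Fintype.card_coe] at h1
    omega
  obtain ⟨Z, hZ⟩ := exists_linearIndependent_of_le_finrank (R := ℝ) (M := LinearMap.ker T) hker
  have hZ' : LinearIndependent ℝ (fun i => ((Z i : LinearMap.ker T) : N → ℝ)) :=
    hZ.map' (LinearMap.ker T).subtype (LinearMap.ker T).ker_subtype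
  rw [Fintype.linearIndependent_iff] at hZ'
  let Zx : Fin m → V → ℝ := fun i x => if hx : x ∈ N then ((Z i : LinearMap.ker T) : N → ℝ) ⟨x, hx⟩ else 0
  have hZx : ∀ (i : Fin m) (x : N), Zx i x = ((Z i : LinearMap.ker T) : N → ℝ) x := by
    intro i x
    show (if hx : (x : V) ∈ N then ((Z i : LinearMap.ker T) : N → ℝ) ⟨x, hx⟩ else 0) = _
    rw [dif_pos x.2]
  have hZ0 : ∀ (i : Fin m) (x : V), x ∉ N → Zx i x = 0 := fun i x hx => dif_neg hx
  have hZker : ∀ j : Fin m, ∑ y ∈ N, Zx j y • p y = 0 := by
    intro j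
    have h1 : Fintype.linearCombination ℝ (fun y : N => p y)
        ((Z j : LinearMap.ker T) : N → ℝ) = 0 := (Z j).2
    rw [Fintype.linearCombination_apply] at h1
    rw [← sum_coe_sort N (fun y => Zx j y • p y)]
    refine Eq.trans (sum_congr rfl fun y _ => ?_) h1
    rw [hZx]
  have hind : ∀ g : Fin m → ℝ, (∀ x ∈ N, ∑ i, g i * Zx i x = 0) → ∀ i, g i = 0 := by
    intro g hg
    refine hZ' g ?_
    funext x
    rw [Finset.sum_apply]
    have h1 := hg x x.2
    simp only [hZx] at h1
    exact h1
  let B : (Sym2 (Fin m) → ℝ) → V → V → ℝ := fun s x y =>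
    ∑ i, ∑ j, s s(i, j) * Zx i x * Zx j y
  have hBs : ∀ s x y, B s x y = B s y x := by
    intro s x y
    show ∑ i, ∑ j, s s(i, j) * Zx i x * Zx j y = ∑ i, ∑ j, s s(i, j) * Zx i y * Zx j x
    rw [sum_comm]
    refine sum_congr rfl fun a _ => sum_congr rfl fun b _ => ?_
    rw [Sym2.eq_swap]
    ring
  have hB0 : ∀ s x y, x ∉ N → B s x y = 0 := by
    intro s x y hx
    refine sum_eq_zero fun i _ => sum_eq_zero fun j _ => ?_
    rw [hZ0 i x hx, mul_zero, zero_mul]
  have hBk : ∀ s x, ∑ y ∈ N, B s x y • p y = 0 := by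
    intro s x
    have h1 : ∀ y, B s x y • p y = ∑ i, ∑ j, (s s(i, j) * Zx i x) • (Zx j y • p y) := by
      intro y
      show (∑ i, ∑ j, s s(i, j) * Zx i x * Zx j y) • p y = _
      rw [sum_smul]
      refine sum_congr rfl fun i _ => ?_
      rw [sum_smul]
      exact sum_congr rfl fun j _ => mul_smul _ _ _
    rw [sum_congr rfl fun y _ => h1 y, sum_comm]
    refine sum_eq_zero fun i _ => ?_
    rw [sum_comm]
    refine sum_eq_zero fun j _ => ?_
    rw [← smul_sum, hZker, smul_zero]
  have hBadd : ∀ s t x y, B (s + t) x y = B s x y + B t x y := by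
    intro s t x y
    show ∑ i, ∑ j, (s + t) s(i, j) * Zx i x * Zx j y = ∑ i, ∑ j, s s(i, j) * Zx i x * Zx j y +
      ∑ i, ∑ j, t s(i, j) * Zx i x * Zx j y
    rw [← sum_add_distrib]
    refine sum_congr rfl fun i _ => ?_
    rw [← sum_add_distrib]
    refine sum_congr rfl fun j _ => ?_
    rw [Pi.add_apply]
    ring
  have hBsmul : ∀ (c : ℝ) s x y, B (c • s) x y = c * B s x y := by
    intro c s x y
    show ∑ i, ∑ j, (c • s) s(i, j) * Zx i x * Zx j y =
      c * ∑ i, ∑ j, s s(i, j) * Zx i x * Zx j y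
    rw [mul_sum]
    refine sum_congr rfl fun i _ => ?_
    rw [mul_sum]
    refine sum_congr rfl fun j _ => ?_
    rw [Pi.smul_apply, smul_eq_mul]
    ring
  let Φ : (Sym2 (Fin m) → ℝ) →ₗ[ℝ] ((linBH G N).edgeSet → ℝ) :=
    { toFun := fun s e => Sym2.lift ⟨fun x y => B s x y, hBs s⟩ e.1
      map_add' := by
        intro s t
        funext ⟨e, he⟩
        induction e using Sym2.ind with
        | _ x y => exact hBadd s t x y
      map_smul' := by
        intro c s
        funext ⟨e, he⟩
        induction e using Sym2.ind with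
        | _ x y => exact hBsmul c s x y }
  have hΦ : Function.Injective Φ := by
    rw [injective_iff_map_eq_zero]
    intro s hs
    have h1 : ∀ x y, B s x y = 0 := by
      refine h (B s) (hBs s) ?_ fun x _ => hBk s x
      intro x y hxy
      have hx : x ∈ N := by
        by_contra hx
        exact hxy (hB0 s x y hx)
      have hy : y ∈ N := by
        by_contra hy
        exact hxy ((hBs s x y).trans (hB0 s y x hy))
      refine ⟨hx, hy, ?_⟩
      by_contra hno
      push Not at hno
      have he : s(x, y) ∈ (linBH G N).edgeSet := by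
        rw [SimpleGraph.mem_edgeSet]
        exact ⟨hx, hy, hno.1, hno.2⟩
      exact hxy (congrFun hs ⟨s(x, y), he⟩)
    have h2 : ∀ (y : V) (i : Fin m), ∑ j, s s(i, j) * Zx j y = 0 := by
      intro y
      refine hind (fun i => ∑ j, s s(i, j) * Zx j y) fun x _ => ?_
      refine Eq.trans (sum_congr rfl fun i _ => ?_) (h1 x y)
      rw [sum_mul]
      refine sum_congr rfl fun j _ => ?_
      ring
    have h3 : ∀ i j : Fin m, s s(i, j) = 0 := fun i =>
      hind (fun j => s s(i, j)) fun y _ => h2 y i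
    funext e
    induction e using Sym2.ind with
    | _ i j => exact h3 i j
  have hfin := LinearMap.finrank_le_finrank_of_injective hΦ
  rw [Module.finrank_fintype_fun_eq_card, Module.finrank_fintype_fun_eq_card, Sym2.card,
    Fintype.card_fin, ← SimpleGraph.edgeFinset_card] at hfin
  have hch : (m + 1) * m = (m + 1).choose 2 * 2 := by
    have h1 := Nat.add_one_mul_choose_eq m 1
    rw [Nat.choose_one_right] at h1
    exact h1
  have hc := linB_count G N
  nlinarith [hfin, hch, hc]

end MP892329.SF
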