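import Pool.Agent.Lib.MP_892329_co.SF.LinA
import Pool.Agent.Lib.MP_892329_co.SF.LinB

/-!
# LinC: a stress-free geometric graph in `R^d` satisfies `(F1)` and `(F2)`
-/

set_option autoImplicit false

namespace MP892329.SF

open Finset

/-- `(F1)` and `(F2)` for a stress-free geometric graph (the hypothesis `h` is the definition of stress-free, spelled out) -/
theorem linC {d : ℕ} (K : Finset (EuclideanSpace ℝ (Fin d))) (G : SimpleGraph K)
    (h : ∀ w : K → K → ℝ, (∀ x y, w x y = w y x) → (∀ x y, ¬ G.Adj x y → w x y = 0) →
      (∀ v : K, ∑ u : K, w u v • ((u : EuclideanSpace ℝ (Fin d)) - v) = 0) → ∀ x y, w x y = 0) :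
    F1 G d ∧ F2 G d := by
  classical
  constructor
  · intro A
    have h1 := linA G A (fun x : K => (x : EuclideanSpace ℝ (Fin d))) (by
      intro w hs hw he
      refine h w hs ?_ ?_
      · intro x y hxy
        by_contra hne
        exact hxy (hw x y hne).2.2
      · intro v
        by_cases hv : v ∈ A
        · rw [← he v hv]
          symm
          apply sum_subset (subset_univ A)
          intro u _ hu
          have : w u v = 0 := by
            by_contra hne
            exact hu (hw u v hne).1
          rw [this, zero_smul]
        · apply sum_eq_zero
          intro u _
          have : w u v = 0 := by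
            by_contra hne
            exact hv (hw u v hne).2.1
          rw [this, zero_smul])
    rw [finrank_euclideanSpace_fin] at h1
    have h2 : ((e2 G A : ℕ) : ℝ) ≤ ((2 * (d * A.card) : ℕ) : ℝ) := by exact_mod_cast h1
    push_cast at h2
    linarith
  · intro v N hN hdN
    have hvN : v ∉ N := fun hv => G.loopless.irrefl v (hN v hv)
    have h1 := linB G N (fun x : K => (x : EuclideanSpace ℝ (Fin d)) - v) (by
      intro Om hs hO he
      have hO0 : ∀ x y, x ∉ N → Om x y = 0 := by
        intro x y hx
        by_contra hne
        exact hx (hO x y hne).1
      have hO1 : ∀ x y, y ∉ N → Om x y = 0 := by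
        intro x y hy
        by_contra hne
        exact hy (hO x y hne).2.1
      let w : K → K → ℝ := fun x y =>
        if x = v then (if y = v then 0 else -∑ z ∈ N, Om y z)
        else if y = v then -∑ z ∈ N, Om x z else if x = y then 0 else Om x y
      have hwv : ∀ y, y ≠ v → w v y = -∑ z ∈ N, Om y z := by
        intro y hy
        simp [w, hy]
      have hwv' : ∀ x, x ≠ v → w x v = -∑ z ∈ N, Om x z := by
        intro x hx
        simp [w, hx]
      have hww : ∀ x y, x ≠ v → y ≠ v → x ≠ y → w x y = Om x y := by
        intro x y hx hy hxy
        simp [w, hx, hy, hxy]
      have hwd : ∀ x, w x x = 0 := by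
        intro x
        by_cases hx : x = v
        · simp [w, hx]
        · simp [w, hx]
      have hsum0 : ∀ y, y ∉ N → ∑ z ∈ N, Om y z = 0 := by
        intro y hy
        exact sum_eq_zero (fun z _ => hO0 y z hy)
      have hw0 : ∀ x y, w x y = 0 := by
        refine h w ?_ ?_ ?_
        · intro x y
          by_cases hx : x = v
          · subst hx
            by_cases hy : y = x
            · rw [hy]
            · rw [hwv y hy, hwv' y hy]
          · by_cases hy : y = v
            · subst hy
              rw [hwv x hx, hwv' x hx]
            · by_cases hxy : x = y
              · rw [hxy]
              · rw [hww x y hx hy hxy, hww y x hy hx (Ne.symm hxy), hs x y]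
        · intro x y hxy
          by_cases hx : x = v
          · subst hx
            by_cases hy : y = x
            · rw [hy, hwd]
            · rw [hwv y hy, hsum0 y (fun hyN => hxy (hN y hyN)), neg_zero]
          · by_cases hy : y = v
            · subst hy
              rw [hwv' x hx, hsum0 x (fun hxN => hxy (hN x hxN).symm), neg_zero]
            · by_cases hxy' : x = y
              · rw [hxy', hwd]
              · rw [hww x y hx hy hxy']
                by_contra hne
                rcases (hO x y hne).2.2 with h3 | h3
                · exact hxy' h3
                · exact hxy h3
        · intro t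
          by_cases ht : t = v
          · subst ht
            have e1 : ∀ u : K, w u t • ((u : EuclideanSpace ℝ (Fin d)) - t) =
                -∑ z ∈ N, Om z u • ((u : EuclideanSpace ℝ (Fin d)) - t) := by
              intro u
              by_cases hu : u = t
              · subst hu
                simp
              · rw [hwv' u hu, neg_smul, sum_smul]
                congr 1
                exact sum_congr rfl (fun z _ => by rw [hs u z])
            rw [sum_congr rfl (fun u _ => e1 u), sum_neg_distrib, sum_comm, neg_eq_zero]
            apply sum_eq_zero
            intro z hz
            rw [← he z hz]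
            symm
            apply sum_subset (subset_univ N)
            intro u _ hu
            rw [hO1 z u hu, zero_smul]
          · by_cases htN : t ∈ N
            · have e1 : ∑ u : K, w u t • ((u : EuclideanSpace ℝ (Fin d)) - t) =
                  w v t • ((v : EuclideanSpace ℝ (Fin d)) - t) +
                    ∑ u ∈ N, Om u t • ((u : EuclideanSpace ℝ (Fin d)) - t) := by
                rw [← add_sum_erase univ _ (mem_univ v)]
                congr 1
                have e2' : ∀ u ∈ univ.erase v, w u t • ((u : EuclideanSpace ℝ (Fin d)) - t) =
                    Om u t • ((u : EuclideanSpace ℝ (Fin d)) - t) := by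
                  intro u hu
                  have huv : u ≠ v := (mem_erase.1 hu).1
                  by_cases hut : u = t
                  · subst hut
                    simp
                  · rw [hww u t huv ht hut]
                rw [sum_congr rfl e2']
                symm
                apply sum_subset
                · intro u hu
                  exact mem_erase.2 ⟨fun huv => hvN (huv ▸ hu), mem_univ u⟩
                · intro u _ hu
                  rw [hO0 u t hu, zero_smul]
              rw [e1, hwv t ht, neg_smul, sum_smul, ← sum_neg_distrib, ← sum_add_distrib]
              have e3 : ∀ z ∈ N, -(Om t z • ((v : EuclideanSpace ℝ (Fin d)) - t)) +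
                  Om z t • ((z : EuclideanSpace ℝ (Fin d)) - t) =
                  Om t z • ((z : EuclideanSpace ℝ (Fin d)) - v) := by
                intro z _
                rw [hs z t]
                module
              rw [sum_congr rfl e3]
              exact he t htN
            · apply sum_eq_zero
              intro u _
              have : w u t = 0 := by
                by_cases hu : u = v
                · subst hu
                  rw [hwv t ht, hsum0 t htN, neg_zero]
                · by_cases hut : u = t
                  · rw [hut, hwd]
                  · rw [hww u t hu ht hut, hO1 u t htN]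
              rw [this, zero_smul]
      intro x y
      by_cases hx : x ∈ N
      · by_cases hy : y ∈ N
        · have hxv : x ≠ v := fun hh => hvN (hh ▸ hx)
          have hyv : y ≠ v := fun hh => hvN (hh ▸ hy)
          by_cases hxy : x = y
          · subst hxy
            have h3 := hw0 x v
            rw [hwv' x hxv, neg_eq_zero] at h3
            rw [← add_sum_erase N _ hx] at h3
            have h4 : ∑ z ∈ N.erase x, Om x z = 0 := by
              apply sum_eq_zero
              intro z hz
              have hzx : z ≠ x := (mem_erase.1 hz).1
              have hzv : z ≠ v := fun hh => hvN (hh ▸ (mem_erase.1 hz).2)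
              rw [← hww x z hxv hzv (Ne.symm hzx)]
              exact hw0 x z
            rw [h4, add_zero] at h3
            exact h3
          · rw [← hww x y hxv hyv hxy]
            exact hw0 x y
        · exact hO1 x y hy
      · exact hO0 x y hx) (N.card - d) (by rw [finrank_euclideanSpace_fin]; omega)
    obtain ⟨m, hm⟩ := Nat.exists_eq_add_of_le hdN
    have hm2 : N.card - d = m := by omega
    rw [hm2, hm] at h1
    have h2 : ((m * (m + 1) + e2 G N + (d + m) : ℕ) : ℝ) ≤ (((d + m) ^ 2 : ℕ) : ℝ) := by
      exact_mod_cast h1
    push_cast at h2
    rw [hm]
    push_cast
    have hm0 : (0 : ℝ) ≤ m := Nat.cast_nonneg _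
    have hd0 : (0 : ℝ) ≤ d := Nat.cast_nonneg _
    nlinarith

end MP892329.SF
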