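import Mathlib

/-!
# The local lemma by counting (copy of Lib/MP_bcd198_co/T/LLL.lean, so that this directory imports only Mathlib). Complete, no job.
-/

set_option autoImplicit false

namespace MP892329.SF.L0

private theorem LLL_num {p : ℝ} (h0 : 0 ≤ p) (h1 : p ≤ 1 / 4) : (1 / 16 : ℝ) ^ p ≤ 1 - 2 * p := by
  have h2 : (1 + (-(1 / 2)) : ℝ) ^ (4 * p) ≤ 1 + 4 * p * (-(1 / 2)) :=
    rpow_one_add_le_one_add_mul_self (by norm_num) (by linarith) (by linarith)
  have h3 : (1 / 16 : ℝ) ^ p = (1 + (-(1 / 2)) : ℝ) ^ (4 * p) := by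
    rw [Real.rpow_mul (by norm_num)]
    congr 1
    rw [show (4 : ℝ) = ((4 : ℕ) : ℝ) by norm_num, Real.rpow_natCast]
    norm_num
  rw [h3]
  linarith

open Classical in
private theorem LLL_step {Ω I : Type} [Fintype Ω] [Fintype I] (A : I → Finset Ω)
    (N : I → Finset I) (p : I → ℝ) (h0 : ∀ i, 0 ≤ p i)
    (hneg : ∀ (i : I) (J : Finset I), (∀ j ∈ J, j ∉ N i) →
      (((A i).filter fun ω => ∀ j ∈ J, ω ∉ A j).card : ℝ) ≤
        p i * ((Finset.univ.filter fun ω => ∀ j ∈ J, ω ∉ A j).card : ℝ))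
    (hN : ∀ i, ∑ j ∈ N i, p j ≤ 1 / 4) (J : Finset I) : ∀ i : I,
      (((A i).filter fun ω => ∀ j ∈ J, ω ∉ A j).card : ℝ) ≤
        2 * p i * ((Finset.univ.filter fun ω => ∀ j ∈ J, ω ∉ A j).card : ℝ) := by
  induction J using Finset.strongInduction with
  | H J ih =>
    intro i
    by_cases hJ : ∀ j ∈ J, j ∉ N i
    · refine (hneg i J hJ).trans ?_
      have h1 : (0 : ℝ) ≤ ((Finset.univ.filter fun ω => ∀ j ∈ J, ω ∉ A j).card : ℝ) :=
        Nat.cast_nonneg _
      nlinarith [mul_nonneg (h0 i) h1]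
    · push Not at hJ
      obtain ⟨j₀, hj₀, hj₀N⟩ := hJ
      set J₁ := J.filter (fun j => j ∉ N i) with hJ₁
      set J₂ := J.filter (fun j => j ∈ N i) with hJ₂
      have hsub : J₁ ⊂ J := by
        refine Finset.filter_ssubset.2 ⟨j₀, hj₀, ?_⟩
        exact fun h => h hj₀N
      have h1 : ((A i).filter fun ω => ∀ j ∈ J, ω ∉ A j).card ≤
          ((A i).filter fun ω => ∀ j ∈ J₁, ω ∉ A j).card := by
        refine Finset.card_le_card fun ω hω => ?_
        rw [Finset.mem_filter] at hω ⊢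
        exact ⟨hω.1, fun j hj => hω.2 j (Finset.mem_filter.1 hj).1⟩
      have h2 := hneg i J₁ (fun j hj => (Finset.mem_filter.1 hj).2)
      have h3 : (Finset.univ.filter fun ω => ∀ j ∈ J₁, ω ∉ A j) ⊆
          (Finset.univ.filter fun ω => ∀ j ∈ J, ω ∉ A j) ∪
            J₂.biUnion fun j => (A j).filter fun ω => ∀ j ∈ J₁, ω ∉ A j := by
        intro ω hω
        rw [Finset.mem_filter] at hω
        rw [Finset.mem_union, Finset.mem_biUnion]
        by_cases hin : ∀ j ∈ J, ω ∉ A j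
        · exact Or.inl (Finset.mem_filter.2 ⟨Finset.mem_univ _, hin⟩)
        · push Not at hin
          obtain ⟨j, hj, hjA⟩ := hin
          right
          refine ⟨j, ?_, Finset.mem_filter.2 ⟨hjA, hω.2⟩⟩
          refine Finset.mem_filter.2 ⟨hj, ?_⟩
          by_contra hjN
          exact hω.2 j (Finset.mem_filter.2 ⟨hj, hjN⟩) hjA
      have h4 : ((Finset.univ.filter fun ω => ∀ j ∈ J₁, ω ∉ A j).card : ℝ) ≤
          ((Finset.univ.filter fun ω => ∀ j ∈ J, ω ∉ A j).card : ℝ) +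
            ∑ j ∈ J₂, (((A j).filter fun ω => ∀ j ∈ J₁, ω ∉ A j).card : ℝ) := by
        have h5 := (Finset.card_le_card h3).trans
          ((Finset.card_union_le _ _).trans (Nat.add_le_add_left Finset.card_biUnion_le _))
        exact_mod_cast h5
      set X : ℝ := ((Finset.univ.filter fun ω => ∀ j ∈ J₁, ω ∉ A j).card : ℝ) with hX
      set Y : ℝ := ((Finset.univ.filter fun ω => ∀ j ∈ J, ω ∉ A j).card : ℝ) with hY
      have hX0 : 0 ≤ X := Nat.cast_nonneg _
      have h5 : ∑ j ∈ J₂, (((A j).filter fun ω => ∀ j ∈ J₁, ω ∉ A j).card : ℝ) ≤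
          ∑ j ∈ J₂, 2 * p j * X := Finset.sum_le_sum fun j _ => ih J₁ hsub j
      have h6 : ∑ j ∈ J₂, 2 * p j * X = 2 * X * ∑ j ∈ J₂, p j := by
        rw [Finset.mul_sum]
        exact Finset.sum_congr rfl fun j _ => by ring
      have h7 : ∑ j ∈ J₂, p j ≤ ∑ j ∈ N i, p j := by
        refine Finset.sum_le_sum_of_subset_of_nonneg ?_ fun j _ _ => h0 j
        intro j hj
        exact (Finset.mem_filter.1 hj).2
      have h8 : 2 * X * ∑ j ∈ J₂, p j ≤ 2 * X * (1 / 4) :=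
        mul_le_mul_of_nonneg_left (h7.trans (hN i)) (by linarith)
      have h9 : X ≤ 2 * Y := by linarith
      have h10 : (((A i).filter fun ω => ∀ j ∈ J, ω ∉ A j).card : ℝ) ≤ p i * X := by
        refine le_trans ?_ h2
        exact_mod_cast h1
      calc (((A i).filter fun ω => ∀ j ∈ J, ω ∉ A j).card : ℝ) ≤ p i * X := h10
        _ ≤ p i * (2 * Y) := mul_le_mul_of_nonneg_left h9 (h0 i)
        _ = 2 * p i * Y := by ring

open Classical in
private theorem LLL_prod {Ω I : Type} [Fintype Ω] [Fintype I] (A : I → Finset Ω)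
    (N : I → Finset I) (p : I → ℝ) (h0 : ∀ i, 0 ≤ p i)
    (hneg : ∀ (i : I) (J : Finset I), (∀ j ∈ J, j ∉ N i) →
      (((A i).filter fun ω => ∀ j ∈ J, ω ∉ A j).card : ℝ) ≤
        p i * ((Finset.univ.filter fun ω => ∀ j ∈ J, ω ∉ A j).card : ℝ))
    (hN : ∀ i, ∑ j ∈ N i, p j ≤ 1 / 4) (hp : ∀ i, p i ≤ 1 / 4) (J : Finset I) :
      (∏ i ∈ J, (1 - 2 * p i)) * (Fintype.card Ω : ℝ) ≤
        ((Finset.univ.filter fun ω => ∀ j ∈ J, ω ∉ A j).card : ℝ) := by
  induction J using Finset.induction_on with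
  | empty =>
    simp
  | insert i J hi ih =>
    have h1 : (Finset.univ.filter fun ω => ∀ j ∈ J, ω ∉ A j) ⊆
        (Finset.univ.filter fun ω => ∀ j ∈ insert i J, ω ∉ A j) ∪
          ((A i).filter fun ω => ∀ j ∈ J, ω ∉ A j) := by
      intro ω hω
      rw [Finset.mem_filter] at hω
      rw [Finset.mem_union]
      by_cases hin : ω ∈ A i
      · exact Or.inr (Finset.mem_filter.2 ⟨hin, hω.2⟩)
      · refine Or.inl (Finset.mem_filter.2 ⟨Finset.mem_univ _, fun j hj => ?_⟩)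
        rcases Finset.mem_insert.1 hj with h | h
        · rw [h]; exact hin
        · exact hω.2 j h
    have h2 : ((Finset.univ.filter fun ω => ∀ j ∈ J, ω ∉ A j).card : ℝ) ≤
        ((Finset.univ.filter fun ω => ∀ j ∈ insert i J, ω ∉ A j).card : ℝ) +
          (((A i).filter fun ω => ∀ j ∈ J, ω ∉ A j).card : ℝ) := by
      exact_mod_cast (Finset.card_le_card h1).trans (Finset.card_union_le _ _)
    have h3 := LLL_step A N p h0 hneg hN J i
    rw [Finset.prod_insert hi]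
    set X : ℝ := ((Finset.univ.filter fun ω => ∀ j ∈ J, ω ∉ A j).card : ℝ) with hX
    have h4 : 0 ≤ 1 - 2 * p i := by linarith [hp i]
    calc (1 - 2 * p i) * (∏ i ∈ J, (1 - 2 * p i)) * (Fintype.card Ω : ℝ)
        = (1 - 2 * p i) * ((∏ i ∈ J, (1 - 2 * p i)) * (Fintype.card Ω : ℝ)) := by ring
      _ ≤ (1 - 2 * p i) * X := mul_le_mul_of_nonneg_left ih h4
      _ ≤ _ := by linarith

open Classical in
theorem lll {Ω I : Type} [Fintype Ω] [Fintype I] (A : I → Finset Ω) (N : I → Finset I)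
    (p : I → ℝ) (h0 : ∀ i, 0 ≤ p i)
    (hneg : ∀ (i : I) (J : Finset I), (∀ j ∈ J, j ∉ N i) →
      (((A i).filter fun ω => ∀ j ∈ J, ω ∉ A j).card : ℝ) ≤
        p i * ((Finset.univ.filter fun ω => ∀ j ∈ J, ω ∉ A j).card : ℝ))
    (hN : ∀ i, ∑ j ∈ N i, p j ≤ 1 / 4) (hp : ∀ i, p i ≤ 1 / 4) (lam : ℝ)
    (hlam : ∑ i, p i ≤ lam) :
    (1 / 16 : ℝ) ^ lam * (Fintype.card Ω : ℝ) ≤
      ((Finset.univ.filter fun ω => ∀ i, ω ∉ A i).card : ℝ) := by
  have h1 := LLL_prod A N p h0 hneg hN hp Finset.univ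
  have h2 : (Finset.univ.filter fun ω => ∀ j ∈ (Finset.univ : Finset I), ω ∉ A j) =
      Finset.univ.filter fun ω => ∀ i, ω ∉ A i := by
    refine Finset.filter_congr fun ω _ => ?_
    exact ⟨fun h i => h i (Finset.mem_univ i), fun h i _ => h i⟩
  rw [h2] at h1
  refine le_trans (mul_le_mul_of_nonneg_right ?_ (Nat.cast_nonneg _)) h1
  calc (1 / 16 : ℝ) ^ lam ≤ (1 / 16 : ℝ) ^ (∑ i, p i) :=
        Real.rpow_le_rpow_of_exponent_ge (by norm_num) (by norm_num) hlam
    _ = ∏ i, (1 / 16 : ℝ) ^ p i := by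
        rw [Real.rpow_sum_of_pos (by norm_num)]
    _ ≤ ∏ i, (1 - 2 * p i) := by
        refine Finset.prod_le_prod (fun i _ => ?_) (fun i _ => LLL_num (h0 i) (hp i))
        positivity

end MP892329.SF.L0
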