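import Mathlib

/-!
# JOB McA: moment generating function of a function of `n` coordinates (bounded differences), by induction on `n`

* `exp_le_add_exp_sq`: `exp x ≤ x + exp (x ^ 2)` for all real `x`. For instance: for `x ≥ 1` (or `x ≤ -1`) `exp x ≤ exp (x^2)` resp. `exp x ≤ 1/2 ≤ ..`:
  careful version: if `x ≥ 1` then `x ≤ x^2`, so `exp x ≤ exp (x^2) ≤ x + exp (x^2)`. If `x ≤ -1`: `x + exp (x^2) ≥ x + 1 + x^2 ≥ 1 ≥ exp x` (as `x^2 ≥ -x`).
  If `|x| ≤ 1`: `exp x ≤ 1 + x + x^2` (`Real.abs_exp_sub_one_sub_id_le`: `|exp x - 1 - x| ≤ x^2` for `|x| ≤ 1`) and `1 + x^2 ≤ exp (x^2)` (`Real.add_one_le_exp`).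
* `mgf_one`: for `g : α → ℝ` with `|g a - g b| ≤ c` for all `a b` and mean `m = (∑ g)/|α|`: `|g a - m| ≤ c` (average of `g a - g b`), so with
  `x = lam (g a - m)`: `exp x ≤ x + exp (x^2) ≤ x + exp (lam^2 c^2)`; sum over `a`: `∑ lam (g a - m) = 0`. So `∑ exp (lam (g a - m)) ≤ |α| exp (lam^2 c^2)`.
* `mgf_fin`: induction on `n`. `n = 0`: one function, `f ω = mean`. `n + 1`: `ω = Fin.cons a ω'` (`Fin.consEquiv` or `Fin.insertNthEquiv`; sums over
  `Fin (n+1) → α` become double sums). Put `g a = (∑ ω', f (cons a ω')) / |α|^n`; the induction hypothesis for `f (cons a ·)` gives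
  `∑ ω', exp (lam f (cons a ω')) ≤ |α|^n exp (lam g a + n lam^2 c^2)`; `|g a - g b| ≤ c` since `|f (cons a ω') - f (cons b ω')| ≤ c` for each `ω'`; then `mgf_one`
  for `g`, whose mean is the mean of `f`.
-/

set_option autoImplicit false

namespace MP892329.SF

open Finset

theorem exp_le_add_exp_sq (x : ℝ) : Real.exp x ≤ x + Real.exp (x ^ 2) := by
  by_cases h1 : |x| ≤ 1
  · have h2 := Real.abs_exp_sub_one_sub_id_le h1
    have h3 := (abs_le.1 h2).2
    have h4 := Real.add_one_le_exp (x ^ 2)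
    linarith
  · by_cases h5 : 0 ≤ x
    · rw [abs_of_nonneg h5] at h1
      have h6 : x ≤ x ^ 2 := by nlinarith
      have h7 := Real.exp_le_exp.2 h6
      linarith
    · have h5' : x < 0 := not_le.1 h5
      rw [abs_of_neg h5'] at h1
      have h6 : Real.exp x ≤ 1 := Real.exp_le_one_iff.2 h5'.le
      have h7 := Real.add_one_le_exp (x ^ 2)
      nlinarith

theorem mgf_one {α : Type} [Fintype α] [Nonempty α] (g : α → ℝ) (c lam : ℝ) (hc : 0 ≤ c)
    (hg : ∀ a b, |g a - g b| ≤ c) :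
    ∑ a, Real.exp (lam * g a) ≤
      (Fintype.card α : ℝ) * Real.exp (lam * ((∑ a, g a) / (Fintype.card α : ℝ)) + lam ^ 2 * c ^ 2) := by
  have hN : (0 : ℝ) < (Fintype.card α : ℝ) := by exact_mod_cast Fintype.card_pos
  obtain ⟨N, hNd⟩ : ∃ N : ℝ, N = (Fintype.card α : ℝ) := ⟨_, rfl⟩
  rw [← hNd] at hN ⊢
  obtain ⟨m, hm⟩ : ∃ m : ℝ, m = (∑ a, g a) / N := ⟨_, rfl⟩
  rw [← hm]
  have hsum : ∑ a, g a = N * m := by
    rw [hm]
    field_simp
  have hdev : ∀ a, |g a - m| ≤ c := by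
    intro a
    have e1 : g a - m = (∑ b, (g a - g b)) / N := by
      rw [Finset.sum_sub_distrib, Finset.sum_const, Finset.card_univ, nsmul_eq_mul, ← hNd, hsum]
      field_simp
    rw [e1, abs_div, abs_of_pos hN, div_le_iff₀ hN]
    calc |∑ b, (g a - g b)| ≤ ∑ b, |g a - g b| := Finset.abs_sum_le_sum_abs _ _
      _ ≤ ∑ _b : α, c := Finset.sum_le_sum (fun b _ => hg a b)
      _ = c * N := by
        rw [Finset.sum_const, Finset.card_univ, nsmul_eq_mul, ← hNd, mul_comm]
  have hpt : ∀ a, Real.exp (lam * g a) ≤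
      Real.exp (lam * m) * (lam * (g a - m) + Real.exp (lam ^ 2 * c ^ 2)) := by
    intro a
    have e1 : lam * g a = lam * m + lam * (g a - m) := by ring
    rw [e1, Real.exp_add]
    apply mul_le_mul_of_nonneg_left _ (Real.exp_pos _).le
    have h1 := exp_le_add_exp_sq (lam * (g a - m))
    have h2 : (lam * (g a - m)) ^ 2 ≤ lam ^ 2 * c ^ 2 := by
      rw [mul_pow]
      apply mul_le_mul_of_nonneg_left _ (sq_nonneg _)
      rw [← sq_abs (g a - m)]
      exact pow_le_pow_left₀ (abs_nonneg _) (hdev a) 2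
    have h3 := Real.exp_le_exp.2 h2
    linarith
  refine (Finset.sum_le_sum (fun a _ => hpt a)).trans (le_of_eq ?_)
  rw [← Finset.mul_sum, Finset.sum_add_distrib, ← Finset.mul_sum, Finset.sum_sub_distrib, hsum,
    Finset.sum_const, Finset.sum_const, Finset.card_univ, nsmul_eq_mul, nsmul_eq_mul, ← hNd,
    Real.exp_add]
  ring

theorem mgf_fin {α : Type} [Fintype α] [Nonempty α] (c lam : ℝ) (hc : 0 ≤ c) (n : ℕ)
    (f : (Fin n → α) → ℝ) (hf : ∀ (ω : Fin n → α) (i : Fin n) (a : α), |f (Function.update ω i a) - f ω| ≤ c) :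
    ∑ ω, Real.exp (lam * f ω) ≤
      (Fintype.card α : ℝ) ^ n *
        Real.exp (lam * ((∑ ω, f ω) / (Fintype.card α : ℝ) ^ n) + n * lam ^ 2 * c ^ 2) := by
  have hN : (0 : ℝ) < (Fintype.card α : ℝ) := by exact_mod_cast Fintype.card_pos
  induction n with
  | zero =>
    have e0 : ∀ F : (Fin 0 → α) → ℝ, ∑ ω, F ω = F default := fun F => Fintype.sum_unique F
    rw [e0, e0]
    apply le_of_eq
    simp
  | succ n ih =>
    have hsplit : ∀ F : (Fin (n + 1) → α) → ℝ,
        ∑ ω, F ω = ∑ a : α, ∑ ω' : Fin n → α, F (Fin.cons a ω') := by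
      intro F
      have e1 := (Fin.consEquiv (fun _ : Fin (n + 1) => α)).sum_comp F
      rw [← e1, Fintype.sum_prod_type]
      rfl
    obtain ⟨N, hNd⟩ : ∃ N : ℝ, N = (Fintype.card α : ℝ) := ⟨_, rfl⟩
    rw [← hNd] at hN ih ⊢
    have hNn : 0 < N ^ n := pow_pos hN n
    obtain ⟨g, hg⟩ : ∃ g : α → ℝ, g = fun a => (∑ ω' : Fin n → α, f (Fin.cons a ω')) / N ^ n :=
      ⟨_, rfl⟩
    have hga : ∀ a, g a = (∑ ω' : Fin n → α, f (Fin.cons a ω')) / N ^ n := fun a => by rw [hg]
    have hcard : ((Finset.univ : Finset (Fin n → α)).card : ℝ) = N ^ n := by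
      rw [Finset.card_univ, Fintype.card_fun, Fintype.card_fin, Nat.cast_pow, hNd]
    have hgc : ∀ a b, |g a - g b| ≤ c := by
      intro a b
      rw [hga, hga, ← sub_div, ← Finset.sum_sub_distrib, abs_div, abs_of_pos hNn,
        div_le_iff₀ hNn]
      calc |∑ ω' : Fin n → α, (f (Fin.cons a ω') - f (Fin.cons b ω'))|
          ≤ ∑ ω' : Fin n → α, |f (Fin.cons a ω') - f (Fin.cons b ω')| :=
            Finset.abs_sum_le_sum_abs _ _
        _ ≤ ∑ _ω' : Fin n → α, c := by
            apply Finset.sum_le_sum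
            intro ω' _
            have h1 := hf (Fin.cons b ω') 0 a
            rw [Fin.update_cons_zero] at h1
            exact h1
        _ = c * N ^ n := by
            rw [Finset.sum_const, nsmul_eq_mul, hcard, mul_comm]
    have hone := mgf_one g c lam hc hgc
    rw [← hNd] at hone
    have hmean : (∑ a, g a) / N = (∑ ω, f ω) / N ^ (n + 1) := by
      rw [hsplit f, Finset.sum_congr rfl (fun a _ => hga a), ← Finset.sum_div, div_div, pow_succ]
    have hih : ∀ a, ∑ ω' : Fin n → α, Real.exp (lam * f (Fin.cons a ω')) ≤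
        N ^ n * (Real.exp (lam * g a) * Real.exp (n * lam ^ 2 * c ^ 2)) := by
      intro a
      have h1 := ih (fun ω' => f (Fin.cons a ω')) (by
        intro ω' i b
        have h2 := hf (Fin.cons a ω') i.succ b
        rw [← Fin.cons_update] at h2
        exact h2)
      rw [Real.exp_add, ← hga a] at h1
      exact h1
    calc ∑ ω, Real.exp (lam * f ω)
        = ∑ a, ∑ ω' : Fin n → α, Real.exp (lam * f (Fin.cons a ω')) :=
          hsplit (fun ω => Real.exp (lam * f ω))
      _ ≤ ∑ a, N ^ n * (Real.exp (lam * g a) * Real.exp (n * lam ^ 2 * c ^ 2)) :=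
          Finset.sum_le_sum (fun a _ => hih a)
      _ = N ^ n * Real.exp (n * lam ^ 2 * c ^ 2) * ∑ a, Real.exp (lam * g a) := by
          rw [Finset.mul_sum]
          apply Finset.sum_congr rfl
          intro a _
          ring
      _ ≤ N ^ n * Real.exp (n * lam ^ 2 * c ^ 2) *
          (N * Real.exp (lam * ((∑ a, g a) / N) + lam ^ 2 * c ^ 2)) :=
          mul_le_mul_of_nonneg_left hone (mul_nonneg hNn.le (Real.exp_pos _).le)
      _ = N ^ (n + 1) * Real.exp (lam * ((∑ ω, f ω) / N ^ (n + 1)) +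
            ((n + 1 : ℕ) : ℝ) * lam ^ 2 * c ^ 2) := by
          rw [hmean]
          have e2 : lam * ((∑ ω, f ω) / N ^ (n + 1)) + ((n + 1 : ℕ) : ℝ) * lam ^ 2 * c ^ 2 =
              (n * lam ^ 2 * c ^ 2) + (lam * ((∑ ω, f ω) / N ^ (n + 1)) + lam ^ 2 * c ^ 2) := by
            push_cast
            ring
          rw [e2, Real.exp_add (n * lam ^ 2 * c ^ 2), pow_succ]
          ring

end MP892329.SF
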