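import Pool.Agent.Lib.MP_892329_co.SF.TokD

/-!
# JOB MeanA: the probability that exactly the vertices of `S0` choose the colour `c` among the neighbours of `v`

Let `N = nb G U v`, `q x = #{j : dec x j = some c} / M`. For `x ∈ N` with `c ∈ L x`: `q x = 1 / (10 |L x|)` (`IsDec`), for `x ∈ N`, `c ∉ L x`: `q x = 0`.
So `q x ≤ 1 / (10 lm)` when `|L x| ≥ lm > 0` for all `x ∈ N`.
`{ω : Sel v ω c = S0}` contains (is equal to) `Fintype.piFinset (fun z => if z ∈ S0 then {j | dec z j = some c} else if z ∈ N then {j | dec z j ≠ some c} else univ)`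
(`S0 ⊆ N`); its cardinality is the product of the cardinalities (`Fintype.card_piFinset`):
`M^|V| * ∏ x ∈ S0, q x * ∏ z ∈ N \ S0, (1 - q z)`, and `∏ (1 - q z) ≥ 1 - ∑ q z ≥ 1 - |N| / (10 lm)` (`Finset.prod_one_sub_le`-type lemma, or
`Finset.one_sub_sum_le_prod_one_sub` / induction; `0 ≤ q z ≤ 1`), which is `≥ 772/1000` by `hD`.
So the number is at least `(772/1000) ∏ x ∈ S0, (1 / (10 |L x|)) * M^|V|`.
-/

set_option autoImplicit false

namespace MP892329.SF

open Finset

variable {V : Type} [Fintype V] [DecidableEq V] {K M : ℕ}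

theorem card_sel_eq (G : SimpleGraph V) (U : Finset V) (L : V → Finset (Fin K))
    (dec : V → Fin M → Option (Fin K)) (hdec : IsDec U L M dec) (hM : 0 < M) (v : V) (lm : ℝ) (hlm : 0 < lm)
    (hl : ∀ x ∈ U, lm ≤ (L x).card) (hD : ((nb G U v).card : ℝ) / (10 * lm) ≤ 228 / 1000)
    (c : Fin K) (S0 : Finset V) (hS0 : S0 ⊆ nb G U v) (hc : ∀ x ∈ S0, c ∈ L x) :
    (772 / 1000) * (∏ x ∈ S0, 1 / (10 * ((L x).card : ℝ))) * (M : ℝ) ^ (Fintype.card V) ≤
      ((univ.filter (fun ω : V → Fin M => Sel G U dec v ω c = S0)).card : ℝ) := by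
  classical
  have hMr : (0 : ℝ) < (M : ℝ) := by exact_mod_cast hM
  obtain ⟨F, hF⟩ : ∃ F : V → Finset (Fin M), F = fun z =>
    if z ∈ S0 then univ.filter (fun j => dec z j = some c)
    else if z ∈ nb G U v then univ.filter (fun j => ¬ dec z j = some c) else univ := ⟨_, rfl⟩
  have hsub : Fintype.piFinset F ⊆ univ.filter (fun ω : V → Fin M => Sel G U dec v ω c = S0) := by
    intro ω hω
    rw [Fintype.mem_piFinset] at hω
    rw [Finset.mem_filter]
    refine ⟨Finset.mem_univ _, ?_⟩
    ext z
    rw [mem_Sel]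
    have hz := hω z
    rw [hF] at hz
    simp only [] at hz
    constructor
    · rintro ⟨h1, h2⟩
      by_contra h3
      rw [if_neg h3, if_pos h1, Finset.mem_filter] at hz
      exact hz.2 h2
    · intro h1
      rw [if_pos h1, Finset.mem_filter] at hz
      exact ⟨hS0 h1, hz.2⟩
  have hNU : nb G U v ⊆ U := nb_sub G U v
  -- the count for a colour of the list
  have hq : ∀ z ∈ U, c ∈ L z → ((univ.filter (fun j => dec z j = some c)).card : ℝ) =
      1 / (10 * ((L z).card : ℝ)) * M := by
    intro z hz hcz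
    have h1 := hdec.1 z hz c hcz
    have h2 : (10 : ℝ) * ((L z).card : ℝ) * ((univ.filter (fun j => dec z j = some c)).card : ℝ) =
        (M : ℝ) := by exact_mod_cast h1
    have h3 : (0 : ℝ) < ((L z).card : ℝ) := lt_of_lt_of_le hlm (hl z hz)
    rw [← h2]
    field_simp
  have hq2 : ∀ z ∈ U, ((univ.filter (fun j => dec z j = some c)).card : ℝ) ≤
      1 / (10 * lm) * M := by
    intro z hz
    by_cases hcz : c ∈ L z
    · rw [hq z hz hcz]
      refine mul_le_mul_of_nonneg_right ?_ hMr.le
      exact one_div_le_one_div_of_le (by positivity) (by linarith [hl z hz])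
    · have h1 : univ.filter (fun j => dec z j = some c) = ∅ := by
        rw [Finset.filter_eq_empty_iff]
        intro j _
        exact hdec.2 z hz c hcz j
      rw [h1, Finset.card_empty, Nat.cast_zero]
      positivity
  have hq3 : ∀ z ∈ U, (1 - 1 / (10 * lm)) * M ≤
      ((univ.filter (fun j => ¬ dec z j = some c)).card : ℝ) := by
    intro z hz
    have h1 : (univ.filter (fun j => dec z j = some c)).card +
        (univ.filter (fun j => ¬ dec z j = some c)).card = M := by
      rw [Finset.card_filter_add_card_filter_not, Finset.card_univ, Fintype.card_fin]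
    have h2 : ((univ.filter (fun j => dec z j = some c)).card : ℝ) +
        ((univ.filter (fun j => ¬ dec z j = some c)).card : ℝ) = (M : ℝ) := by exact_mod_cast h1
    have h3 := hq2 z hz
    linarith
  -- the case of no neighbours is trivial for the product, otherwise `1 / (10 lm) ≤ 1`
  have hprod : (772 / 1000 : ℝ) * (∏ x ∈ S0, 1 / (10 * ((L x).card : ℝ))) *
      (M : ℝ) ^ (Fintype.card V) ≤ ∏ z, ((F z).card : ℝ) := by
    obtain ⟨g, hg⟩ : ∃ g : V → ℝ, g = fun z => if z ∈ S0 then 1 / (10 * ((L z).card : ℝ))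
      else if z ∈ nb G U v then 1 - 1 / (10 * lm) else 1 := ⟨_, rfl⟩
    have hlm1 : (nb G U v).Nonempty → 1 / (10 * lm) ≤ 1 := by
      intro hne
      have h1 : (1 : ℝ) ≤ ((nb G U v).card : ℝ) := by
        exact_mod_cast Finset.card_pos.2 hne
      have h2 : 1 / (10 * lm) ≤ ((nb G U v).card : ℝ) / (10 * lm) :=
        div_le_div_of_nonneg_right h1 (by positivity)
      linarith
    have hg0 : ∀ z, 0 ≤ g z := by
      intro z
      rw [hg]
      simp only []
      split_ifs with h1 h2
      · positivity
      · have := hlm1 ⟨z, h2⟩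
        linarith
      · norm_num
    have hgF : ∀ z, g z * M ≤ ((F z).card : ℝ) := by
      intro z
      rw [hg, hF]
      simp only []
      split_ifs with h1 h2
      · rw [hq z (hNU (hS0 h1)) (hc z h1)]
      · exact hq3 z (hNU h2)
      · rw [Finset.card_univ, Fintype.card_fin, one_mul]
    have h1 : ∏ z, (g z * (M : ℝ)) ≤ ∏ z, ((F z).card : ℝ) :=
      Finset.prod_le_prod (fun z _ => mul_nonneg (hg0 z) hMr.le) (fun z _ => hgF z)
    refine le_trans ?_ h1
    rw [Finset.prod_mul_distrib, Finset.prod_const, Finset.card_univ]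
    refine mul_le_mul_of_nonneg_right ?_ (by positivity)
    -- split the product
    have h2 : ∏ z, g z = (∏ z ∈ S0, 1 / (10 * ((L z).card : ℝ))) *
        ∏ z ∈ nb G U v \ S0, (1 - 1 / (10 * lm)) := by
      have e1 : ∏ z, g z = (∏ z ∈ S0, g z) * ∏ z ∈ univ \ S0, g z := by
        rw [mul_comm]
        exact (Finset.prod_sdiff (Finset.subset_univ S0)).symm
      have e2 : ∏ z ∈ univ \ S0, g z = ∏ z ∈ nb G U v \ S0, g z := by
        refine (Finset.prod_subset (Finset.sdiff_subset_sdiff (Finset.subset_univ _)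
          (Finset.Subset.refl _)) ?_).symm
        intro z hz hz2
        rw [Finset.mem_sdiff] at hz hz2
        rw [hg]
        simp only []
        rw [if_neg hz.2, if_neg (fun h => hz2 ⟨h, hz.2⟩)]
      rw [e1, e2]
      congr 1
      · exact Finset.prod_congr rfl fun z hz => by rw [hg]; exact if_pos hz
      · refine Finset.prod_congr rfl fun z hz => ?_
        rw [Finset.mem_sdiff] at hz
        rw [hg]
        simp only []
        rw [if_neg hz.2, if_pos hz.1]
    rw [h2, mul_comm (772 / 1000 : ℝ), Finset.prod_const]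
    refine mul_le_mul_of_nonneg_left ?_ (Finset.prod_nonneg fun z _ => by positivity)
    by_cases hne : (nb G U v).Nonempty
    · have h3 := hlm1 hne
      have h4 := one_add_mul_le_pow (a := -(1 / (10 * lm))) (by linarith) (nb G U v \ S0).card
      have h5 : (((nb G U v) \ S0).card : ℝ) ≤ ((nb G U v).card : ℝ) := by
        exact_mod_cast Finset.card_le_card Finset.sdiff_subset
      have h6 : (((nb G U v) \ S0).card : ℝ) * (1 / (10 * lm)) ≤
          ((nb G U v).card : ℝ) * (1 / (10 * lm)) :=
        mul_le_mul_of_nonneg_right h5 (by positivity)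
      have h7 : ((nb G U v).card : ℝ) * (1 / (10 * lm)) = ((nb G U v).card : ℝ) / (10 * lm) := by
        ring
      have h8 : 1 + -(1 / (10 * lm)) = 1 - 1 / (10 * lm) := by ring
      rw [h8] at h4
      linarith
    · rw [Finset.not_nonempty_iff_eq_empty] at hne
      rw [hne, Finset.empty_sdiff, Finset.card_empty, pow_zero]
      norm_num
  refine hprod.trans ?_
  rw [← Nat.cast_prod, ← Fintype.card_piFinset]
  exact_mod_cast Finset.card_le_card hsub

end MP892329.SF
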