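import Pool.Agent.Lib.MP_892329_co.SF.MeanA

/-!
# JOB MeanB: the expected number of tokens

`∑ ω, |Tok ω| = ∑ c, #{ω : c ∈ Tok ω}` (exchange sums). Let `N = nb G U v`, `E = M^|V|`, `l x = |L x|`.
(a) `c ∉ L v`: the events `Sel ω c = {x}`, `x ∈ N`, `c ∈ L x`, are disjoint and contained in `c ∈ Tok ω` (`{x}` has no adjacent pair), so by `card_sel_eq`
 `#{ω : c ∈ Tok ω} ≥ (772/1000) E ∑ x ∈ N with c ∈ L x, 1 / (10 l x)`. Sum over `c ∉ L v`: `≥ (772/1000) E (1/10) ∑ x ∈ N, |L x \ L v| / l x = (772/1000) E (1/10) out`.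
(b) `c ∈ L v`: the events `Sel ω c = {x, y}` for the unordered pairs `{x, y}`, `x ≠ y ∈ N` not adjacent, `c ∈ L x ∩ L y`, are disjoint and contained in
 `c ∈ Tok ω`; each unordered pair is counted twice in the sum over ordered pairs, so `#{ω : c ∈ Tok ω} ≥ (1/2) ∑ over ordered pairs (772/1000) E / (100 l x l y)`.
 (Formally: `2 #{ω : c ∈ Tok ω} ≥ ∑ over ordered pairs #{ω : Sel ω c = {x,y}}` because for each `ω` at most 2 ordered pairs `(x,y)` have `Sel ω c = {x, y}`.)
 Sum over `c ∈ L v`: `≥ (772/1000) E (1/100) pr`.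
As `out ≥ 0` and `1/10 ≥ 1/100`, the total is at least `(772/1000) (1/100) (out + pr) E`.
-/

set_option autoImplicit false

namespace MP892329.SF

open Finset

variable {V : Type} [Fintype V] [DecidableEq V] {K M : ℕ}

omit [Fintype V] [DecidableEq V] in
private theorem meanBOut (N : Finset V) (L : V → Finset (Fin K)) (v : V) :
    ∑ x ∈ N, ((L x \ L v).card : ℝ) / ((L x).card : ℝ) =
    ∑ c : Fin K, if c ∈ L v then (0 : ℝ) else
      ∑ x ∈ N, if c ∈ L x then 1 / ((L x).card : ℝ) else 0 := by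
  have h1 : ∀ c : Fin K, (if c ∈ L v then (0 : ℝ) else
      ∑ x ∈ N, if c ∈ L x then 1 / ((L x).card : ℝ) else 0) =
      ∑ x ∈ N, if c ∈ L x \ L v then 1 / ((L x).card : ℝ) else 0 := by
    intro c
    by_cases hc : c ∈ L v
    · rw [if_pos hc]
      symm
      apply sum_eq_zero
      intro x _
      rw [if_neg]
      rw [mem_sdiff]
      exact fun h => h.2 hc
    · rw [if_neg hc]
      apply sum_congr rfl
      intro x _
      simp only [mem_sdiff, hc, not_false_eq_true, and_true]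
  simp_rw [h1]
  rw [sum_comm]
  apply sum_congr rfl
  intro x _
  rw [sum_ite_mem, univ_inter, sum_const, nsmul_eq_mul, mul_one_div]

omit [Fintype V] in
private theorem meanBPr (G : SimpleGraph V) (U : Finset V) (L : V → Finset (Fin K)) (v : V) :
    pr G U L v =
    ∑ c : Fin K, if c ∈ L v then (1 / 2 : ℝ) * ∑ x ∈ nb G U v, ∑ y ∈ nb G U v,
      (open scoped Classical in if (x ≠ y ∧ ¬ G.Adj x y) ∧ c ∈ L x ∧ c ∈ L y then
        1 / (((L x).card : ℝ) * ((L y).card : ℝ)) else 0) else 0 := by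
  classical
  have h1 : ∀ c : Fin K, (if c ∈ L v then (1 / 2 : ℝ) * ∑ x ∈ nb G U v, ∑ y ∈ nb G U v,
      (if (x ≠ y ∧ ¬ G.Adj x y) ∧ c ∈ L x ∧ c ∈ L y then
        1 / (((L x).card : ℝ) * ((L y).card : ℝ)) else 0) else 0) =
      (1 / 2 : ℝ) * ∑ x ∈ nb G U v, ∑ y ∈ nb G U v,
      (if c ∈ L x ∩ L y ∩ L v then (if x ≠ y ∧ ¬ G.Adj x y then
        1 / (((L x).card : ℝ) * ((L y).card : ℝ)) else 0) else 0) := by
    intro c
    by_cases hc : c ∈ L v
    · rw [if_pos hc]
      congr 1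
      apply sum_congr rfl
      intro x _
      apply sum_congr rfl
      intro y _
      by_cases h2 : c ∈ L x ∧ c ∈ L y
      · have h3 : c ∈ L x ∩ L y ∩ L v := by
          rw [mem_inter, mem_inter]
          exact ⟨h2, hc⟩
        rw [if_pos h3]
        by_cases h4 : x ≠ y ∧ ¬ G.Adj x y
        · rw [if_pos ⟨h4, h2⟩, if_pos h4]
        · rw [if_neg (fun h => h4 h.1), if_neg h4]
      · have h3 : c ∉ L x ∩ L y ∩ L v := by
          rw [mem_inter, mem_inter]
          exact fun h => h2 h.1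
        rw [if_neg h3, if_neg (fun h => h2 h.2)]
    · rw [if_neg hc]
      symm
      have h5 : ∑ x ∈ nb G U v, ∑ y ∈ nb G U v,
        (if c ∈ L x ∩ L y ∩ L v then (if x ≠ y ∧ ¬ G.Adj x y then
        1 / (((L x).card : ℝ) * ((L y).card : ℝ)) else 0) else 0) = 0 := by
        apply sum_eq_zero
        intro x _
        apply sum_eq_zero
        intro y _
        rw [if_neg]
        rw [mem_inter]
        exact fun h => hc h.2
      rw [h5, mul_zero]
  simp_rw [h1]
  unfold pr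
  rw [← mul_sum]
  congr 1
  symm
  rw [sum_comm]
  apply sum_congr rfl
  intro x _
  rw [sum_comm]
  apply sum_congr rfl
  intro y _
  rw [sum_ite_mem, univ_inter, sum_const, nsmul_eq_mul, mul_ite, mul_zero, mul_one_div]

private theorem meanBOne (G : SimpleGraph V) (U : Finset V) (L : V → Finset (Fin K))
    (dec : V → Fin M → Option (Fin K)) (hdec : IsDec U L M dec) (hM : 0 < M) (v : V) (lm : ℝ) (hlm : 0 < lm)
    (hl : ∀ x ∈ U, lm ≤ (L x).card) (hD : ((nb G U v).card : ℝ) / (10 * lm) ≤ 228 / 1000)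
    (c : Fin K) (hc : c ∉ L v) :
    ∑ x ∈ nb G U v, (if c ∈ L x then
      (772 / 1000) * (1 / 10) * (1 / ((L x).card : ℝ)) * (M : ℝ) ^ (Fintype.card V) else 0) ≤
      ∑ ω : V → Fin M, if c ∈ Tok G U L dec v ω then (1 : ℝ) else 0 := by
  classical
  have h1 : ∀ x ∈ nb G U v, (if c ∈ L x then
      (772 / 1000) * (1 / 10) * (1 / ((L x).card : ℝ)) * (M : ℝ) ^ (Fintype.card V) else 0) ≤
      ∑ ω : V → Fin M, if Sel G U dec v ω c = {x} then (1 : ℝ) else 0 := by
    intro x hx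
    split_ifs with hcx
    · have h2 := card_sel_eq G U L dec hdec hM v lm hlm hl hD c {x}
        (singleton_subset_iff.2 hx) (fun z hz => by rw [mem_singleton.1 hz]; exact hcx)
      rw [prod_singleton] at h2
      rw [sum_boole]
      refine le_trans (le_of_eq ?_) h2
      rw [one_div, one_div, one_div, mul_inv]
      ring
    · exact sum_nonneg (fun ω _ => by split_ifs <;> norm_num)
  refine (sum_le_sum h1).trans ?_
  rw [sum_comm]
  apply sum_le_sum
  intro ω _
  by_cases h3 : ∃ x, Sel G U dec v ω c = {x}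
  · obtain ⟨x0, hx0⟩ := h3
    have h4 : c ∈ Tok G U L dec v ω := by
      rw [mem_Tok, hx0]
      refine ⟨?_, Or.inl ⟨hc, card_singleton x0⟩⟩
      intro x hx y hy
      rw [mem_singleton.1 hx, mem_singleton.1 hy]
      exact G.loopless.irrefl x0
    rw [if_pos h4, hx0]
    have h5 : ∀ x ∈ nb G U v, (if ({x0} : Finset V) = {x} then (1 : ℝ) else 0) =
        if x0 = x then (1 : ℝ) else 0 := by
      intro x _
      simp only [singleton_inj]
    rw [sum_congr rfl h5, sum_ite_eq]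
    split_ifs <;> norm_num
  · have h4 : ∀ x ∈ nb G U v, (if Sel G U dec v ω c = {x} then (1 : ℝ) else 0) = 0 := by
      intro x _
      rw [if_neg (fun h => h3 ⟨x, h⟩)]
    rw [sum_eq_zero h4]
    split_ifs <;> norm_num

private theorem meanBTwo (G : SimpleGraph V) (U : Finset V) (L : V → Finset (Fin K))
    (dec : V → Fin M → Option (Fin K)) (hdec : IsDec U L M dec) (hM : 0 < M) (v : V) (lm : ℝ) (hlm : 0 < lm)
    (hl : ∀ x ∈ U, lm ≤ (L x).card) (hD : ((nb G U v).card : ℝ) / (10 * lm) ≤ 228 / 1000)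
    (c : Fin K) (hc : c ∈ L v) :
    ∑ x ∈ nb G U v, ∑ y ∈ nb G U v,
      (open scoped Classical in if (x ≠ y ∧ ¬ G.Adj x y) ∧ c ∈ L x ∧ c ∈ L y then
      (772 / 1000) * (1 / 100) * (1 / (((L x).card : ℝ) * ((L y).card : ℝ))) *
        (M : ℝ) ^ (Fintype.card V) else 0) ≤
      2 * ∑ ω : V → Fin M, if c ∈ Tok G U L dec v ω then (1 : ℝ) else 0 := by
  classical
  have h1 : ∀ x ∈ nb G U v, ∀ y ∈ nb G U v, (if (x ≠ y ∧ ¬ G.Adj x y) ∧ c ∈ L x ∧ c ∈ L y then
      (772 / 1000) * (1 / 100) * (1 / (((L x).card : ℝ) * ((L y).card : ℝ))) *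
        (M : ℝ) ^ (Fintype.card V) else 0) ≤
      ∑ ω : V → Fin M, if (x ≠ y ∧ ¬ G.Adj x y) ∧ Sel G U dec v ω c = {x, y} then (1 : ℝ) else 0 := by
    intro x hx y hy
    split_ifs with hcx
    · have h2 := card_sel_eq G U L dec hdec hM v lm hlm hl hD c {x, y}
        (by
          intro z hz
          rw [mem_insert, mem_singleton] at hz
          rcases hz with hz | hz
          · rw [hz]; exact hx
          · rw [hz]; exact hy)
        (by
          intro z hz
          rw [mem_insert, mem_singleton] at hz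
          rcases hz with hz | hz
          · rw [hz]; exact hcx.2.1
          · rw [hz]; exact hcx.2.2)
      rw [prod_pair hcx.1.1] at h2
      have h3 : ∀ ω : V → Fin M,
          (if (x ≠ y ∧ ¬ G.Adj x y) ∧ Sel G U dec v ω c = {x, y} then (1 : ℝ) else 0) =
          if Sel G U dec v ω c = {x, y} then (1 : ℝ) else 0 := by
        intro ω
        by_cases h4 : Sel G U dec v ω c = {x, y}
        · rw [if_pos h4, if_pos ⟨hcx.1, h4⟩]
        · rw [if_neg h4, if_neg (fun h => h4 h.2)]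
      simp_rw [h3]
      rw [sum_boole]
      refine le_trans (le_of_eq ?_) h2
      rw [one_div, one_div, one_div, one_div, mul_inv, mul_inv, mul_inv]
      ring
    · exact sum_nonneg (fun ω _ => by split_ifs <;> norm_num)
  refine (sum_le_sum (fun x hx => sum_le_sum (fun y hy => h1 x hx y hy))).trans ?_
  have h2 : ∑ x ∈ nb G U v, ∑ y ∈ nb G U v, ∑ ω : V → Fin M,
      (if (x ≠ y ∧ ¬ G.Adj x y) ∧ Sel G U dec v ω c = {x, y} then (1 : ℝ) else 0) =
      ∑ ω : V → Fin M, ∑ z ∈ nb G U v ×ˢ nb G U v,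
      (if (z.1 ≠ z.2 ∧ ¬ G.Adj z.1 z.2) ∧ Sel G U dec v ω c = {z.1, z.2} then (1 : ℝ) else 0) := by
    have h8 : ∀ ω : V → Fin M, ∑ z ∈ nb G U v ×ˢ nb G U v,
        (if (z.1 ≠ z.2 ∧ ¬ G.Adj z.1 z.2) ∧ Sel G U dec v ω c = {z.1, z.2} then (1 : ℝ) else 0) =
        ∑ x ∈ nb G U v, ∑ y ∈ nb G U v,
        (if (x ≠ y ∧ ¬ G.Adj x y) ∧ Sel G U dec v ω c = {x, y} then (1 : ℝ) else 0) :=
      fun ω => sum_product _ _ _
    simp_rw [h8]
    symm
    rw [sum_comm]
    apply sum_congr rfl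
    intro x _
    rw [sum_comm]
  rw [h2, mul_sum]
  apply sum_le_sum
  intro ω _
  rw [sum_boole]
  by_cases h3 : ∃ x y, (x ≠ y ∧ ¬ G.Adj x y) ∧ Sel G U dec v ω c = {x, y}
  · obtain ⟨x0, y0, hxy, hx0⟩ := h3
    have h4 : c ∈ Tok G U L dec v ω := by
      rw [mem_Tok, hx0]
      refine ⟨?_, Or.inr ⟨hc, card_pair hxy.1⟩⟩
      intro x hx y hy
      rw [mem_insert, mem_singleton] at hx hy
      rcases hx with hx | hx <;> rcases hy with hy | hy <;> rw [hx, hy]
      · exact G.loopless.irrefl x0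
      · exact hxy.2
      · exact fun h => hxy.2 h.symm
      · exact G.loopless.irrefl y0
    rw [if_pos h4]
    have h5 : (nb G U v ×ˢ nb G U v).filter
        (fun z => (z.1 ≠ z.2 ∧ ¬ G.Adj z.1 z.2) ∧ Sel G U dec v ω c = {z.1, z.2}) ⊆
        {(x0, y0), (y0, x0)} := by
      intro z hz
      obtain ⟨z1, z2⟩ := z
      rw [mem_filter] at hz
      have hz1 := hz.2.2
      have hz3 := hz.2.1.1
      dsimp only at hz1 hz3
      rw [hx0] at hz1
      have h6 : x0 ∈ ({z1, z2} : Finset V) := by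
        rw [← hz1]
        exact mem_insert_self _ _
      have h7 : y0 ∈ ({z1, z2} : Finset V) := by
        rw [← hz1]
        exact mem_insert_of_mem (mem_singleton_self _)
      rw [mem_insert, mem_singleton] at h6 h7
      rw [mem_insert, mem_singleton]
      rcases h6 with h6 | h6 <;> rcases h7 with h7 | h7
      · exact absurd (h6.trans h7.symm) hxy.1
      · left
        rw [h6, h7]
      · right
        rw [h6, h7]
      · exact absurd (h6.trans h7.symm) hxy.1
    have h6 := (card_le_card h5).trans card_le_two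
    have h7 : ((#{z ∈ nb G U v ×ˢ nb G U v | (z.1 ≠ z.2 ∧ ¬ G.Adj z.1 z.2) ∧
      Sel G U dec v ω c = {z.1, z.2}} : ℕ) : ℝ) ≤ 2 := by
      exact_mod_cast h6
    linarith
  · have h4 : (nb G U v ×ˢ nb G U v).filter
        (fun z => (z.1 ≠ z.2 ∧ ¬ G.Adj z.1 z.2) ∧ Sel G U dec v ω c = {z.1, z.2}) = ∅ := by
      rw [filter_eq_empty_iff]
      intro z _ h
      exact h3 ⟨z.1, z.2, h⟩
    rw [h4, card_empty]
    split_ifs <;> norm_num

theorem mean_tok (G : SimpleGraph V) (U : Finset V) (L : V → Finset (Fin K))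
    (dec : V → Fin M → Option (Fin K)) (hdec : IsDec U L M dec) (hM : 0 < M) (v : V) (lm : ℝ) (hlm : 0 < lm)
    (hl : ∀ x ∈ U, lm ≤ (L x).card) (hD : ((nb G U v).card : ℝ) / (10 * lm) ≤ 228 / 1000) :
    (772 / 1000) * (1 / 100) * (out G U L v + pr G U L v) * (M : ℝ) ^ (Fintype.card V) ≤
      ∑ ω : V → Fin M, ((Tok G U L dec v ω).card : ℝ) := by
  classical
  have h1 : ∀ ω : V → Fin M, ((Tok G U L dec v ω).card : ℝ) =
      ∑ c : Fin K, if c ∈ Tok G U L dec v ω then (1 : ℝ) else 0 := by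
    intro ω
    rw [sum_ite_mem, univ_inter, sum_const, nsmul_eq_mul, mul_one]
  simp_rw [h1]
  rw [sum_comm]
  have h2 : out G U L v = ∑ c : Fin K, if c ∈ L v then (0 : ℝ) else
      ∑ x ∈ nb G U v, if c ∈ L x then 1 / ((L x).card : ℝ) else 0 := meanBOut (nb G U v) L v
  rw [h2, meanBPr, ← sum_add_distrib, mul_sum, sum_mul]
  apply sum_le_sum
  intro c _
  by_cases hc : c ∈ L v
  · rw [if_pos hc, if_pos hc, zero_add]
    have h3 := meanBTwo G U L dec hdec hM v lm hlm hl hD c hc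
    have h4 : (772 / 1000) * (1 / 100) * ((1 / 2 : ℝ) * ∑ x ∈ nb G U v, ∑ y ∈ nb G U v,
      (if (x ≠ y ∧ ¬ G.Adj x y) ∧ c ∈ L x ∧ c ∈ L y then
        1 / (((L x).card : ℝ) * ((L y).card : ℝ)) else 0)) * (M : ℝ) ^ (Fintype.card V) =
      (1 / 2) * ∑ x ∈ nb G U v, ∑ y ∈ nb G U v,
      (if (x ≠ y ∧ ¬ G.Adj x y) ∧ c ∈ L x ∧ c ∈ L y then
      (772 / 1000) * (1 / 100) * (1 / (((L x).card : ℝ) * ((L y).card : ℝ))) *
        (M : ℝ) ^ (Fintype.card V) else 0) := by
      rw [mul_left_comm, mul_assoc]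
      congr 1
      rw [mul_sum, sum_mul]
      apply sum_congr rfl
      intro x _
      rw [mul_sum, sum_mul]
      apply sum_congr rfl
      intro y _
      split_ifs
      · rfl
      · ring
    rw [h4]
    linarith
  · rw [if_neg hc, if_neg hc, add_zero]
    have h3 := meanBOne G U L dec hdec hM v lm hlm hl hD c hc
    refine le_trans ?_ h3
    rw [mul_sum, sum_mul]
    apply sum_le_sum
    intro x _
    split_ifs
    · have h5 : 0 ≤ (1 / ((L x).card : ℝ)) * (M : ℝ) ^ (Fintype.card V) := by positivity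
      nlinarith
    · simp

end MP892329.SF
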