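import Pool.Agent.Lib.MP_892329_co.SF.Cnt

/-!
# JOB Var: the variational choice of `U`

Write `n = |A|`, `deg v = |nb G A v|`, `B = {v ∈ A : deg v > (2 + 9/50000) d}`. Among the finitely many `W` with `B ⊆ W ⊆ A` choose one which
minimises `Psi W := (56/25) d |W| - e2 G W` (`Finset.exists_min_image` on `A.powerset.filter (B ⊆ ·)`), and put `U := A \ W`, so `A \ U = W`.

(i) `v ∈ U` is not in `B`, so `deg v ≤ (2 + 9/50000) d`.
(ii) For `X ⊆ U` the set `W ∪ X` is a competitor (`B ⊆ W ∪ X ⊆ A`), so `Psi W ≤ Psi (W ∪ X)`; with `e2_union` (`W`, `X` disjoint) this is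
 `e2 X + 2 ∑ x ∈ X, |nb W x| ≤ (56/25) d |X| = 2 (28/25) d |X|`.
(iii) `U` is nonempty: otherwise `W = A` and `Psi A ≤ Psi B ≤ (56/25) d |B|` (as `e2 B ≥ 0`), while `e2 A ≤ 2 d n` (`F1`), so
 `(6/25) d n ≤ (56/25) d |B|`, i.e. `n ≤ (28/3) |B|` (`d > 0`). On the other hand
 `2 d n ≥ e2 A = ∑ deg ≥ K (n - |B|) + (2 + 9/50000) d |B|`; with `t := 2 d - K`, `0 ≤ t ≤ d/50000`, this says
 `(9/50000 d + t) |B| ≤ t n ≤ t (28/3) |B|`. If `|B| = 0` then `n = 0`, contradicting `hA`. Otherwise `9/50000 d ≤ (25/3) t ≤ (25/3) d/50000`, a contradiction.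
-/

set_option autoImplicit false

namespace MP892329.SF

open Finset

variable {V : Type} [Fintype V] [DecidableEq V]

theorem var (G : SimpleGraph V) (d K : ℕ) (hd : 0 < d) (hF1 : F1 G d) (A : Finset V)
    (hA : A.Nonempty) (hmin : ∀ v ∈ A, K ≤ (nb G A v).card)
    (hK1 : (2 - 1 / 50000) * (d : ℝ) ≤ K) (hK2 : (K : ℝ) ≤ 2 * d) :
    ∃ U ⊆ A, U.Nonempty ∧
      (∀ v ∈ U, ((nb G A v).card : ℝ) ≤ (2 + 9 / 50000) * d) ∧
      ∀ X ⊆ U, (e2 G X : ℝ) + 2 * ∑ x ∈ X, ((nb G (A \ U) x).card : ℝ) ≤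
        2 * (28 / 25) * d * X.card := by
  classical
  set B : Finset V := A.filter fun v => (2 + 9 / 50000) * (d : ℝ) < ((nb G A v).card : ℝ) with hB
  set Fam : Finset (Finset V) := A.powerset.filter fun W => B ⊆ W with hFam
  have hBA : B ⊆ A := Finset.filter_subset _ _
  have hne : Fam.Nonempty :=
    ⟨B, Finset.mem_filter.2 ⟨Finset.mem_powerset.2 hBA, Finset.Subset.refl B⟩⟩
  obtain ⟨W, hW, hWmin⟩ := Finset.exists_min_image Fam
    (fun W => (56 / 25) * (d : ℝ) * (W.card : ℝ) - (e2 G W : ℝ)) hne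
  obtain ⟨hWA', hBW⟩ := Finset.mem_filter.1 hW
  have hWA : W ⊆ A := Finset.mem_powerset.1 hWA'
  have hAU : A \ (A \ W) = W := Finset.sdiff_sdiff_eq_self hWA
  have hd0 : (0 : ℝ) < d := Nat.cast_pos.2 hd
  refine ⟨A \ W, Finset.sdiff_subset, ?_, ?_, ?_⟩
  · rw [Finset.nonempty_iff_ne_empty]
    intro hU
    have hWeq : W = A := Finset.Subset.antisymm hWA (Finset.sdiff_eq_empty_iff_subset.1 hU)
    have h1 := hWmin B (Finset.mem_filter.2 ⟨Finset.mem_powerset.2 hBA, Finset.Subset.refl B⟩)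
    rw [hWeq] at h1
    have h2 := hF1 A
    have h3 : (0 : ℝ) ≤ (e2 G B : ℝ) := Nat.cast_nonneg _
    have hn0 : (0 : ℝ) < A.card := Nat.cast_pos.2 (Finset.card_pos.2 hA)
    have hb0 : (0 : ℝ) ≤ B.card := Nat.cast_nonneg _
    have hbn : (B.card : ℝ) ≤ A.card := Nat.cast_le.2 (Finset.card_le_card hBA)
    have h4 : (e2 G A : ℝ) = ∑ x ∈ A, ((nb G A x).card : ℝ) := by
      unfold e2
      rw [Nat.cast_sum]
    have h5 : ∑ x ∈ A, ((nb G A x).card : ℝ) =
        ∑ x ∈ A \ B, ((nb G A x).card : ℝ) + ∑ x ∈ B, ((nb G A x).card : ℝ) :=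
      (Finset.sum_sdiff hBA).symm
    have h6 : (K : ℝ) * ((A.card : ℝ) - B.card) ≤ ∑ x ∈ A \ B, ((nb G A x).card : ℝ) := by
      have h7 : ∑ _x ∈ A \ B, (K : ℝ) ≤ ∑ x ∈ A \ B, ((nb G A x).card : ℝ) :=
        Finset.sum_le_sum fun x hx => Nat.cast_le.2 (hmin x (Finset.mem_sdiff.1 hx).1)
      rw [Finset.sum_const, nsmul_eq_mul, Finset.card_sdiff_of_subset hBA,
        Nat.cast_sub (Finset.card_le_card hBA)] at h7
      linarith
    have h8 : (2 + 9 / 50000) * (d : ℝ) * B.card ≤ ∑ x ∈ B, ((nb G A x).card : ℝ) := by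
      have h9 : ∑ _x ∈ B, (2 + 9 / 50000) * (d : ℝ) ≤ ∑ x ∈ B, ((nb G A x).card : ℝ) :=
        Finset.sum_le_sum fun x hx => (Finset.mem_filter.1 hx).2.le
      rw [Finset.sum_const, nsmul_eq_mul] at h9
      linarith
    set n : ℝ := (A.card : ℝ) with hn
    set b : ℝ := (B.card : ℝ) with hb
    have h10 : (6 / 25) * (d : ℝ) * n ≤ (56 / 25) * d * b := by linarith
    have h11 : n ≤ (28 / 3) * b := by
      have h12 : (d : ℝ) * ((6 / 25) * n) ≤ d * ((56 / 25) * b) := by linarith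
      have h13 := le_of_mul_le_mul_left h12 hd0
      linarith
    have hbpos : 0 < b := by linarith
    have h14 : (2 + 9 / 50000) * (d : ℝ) * b + K * (n - b) ≤ 2 * d * n := by linarith
    have h15 : (9 / 50000) * (d : ℝ) * b ≤ (2 * d - K) * (n - b) := by linarith
    have h16 : (2 * (d : ℝ) - K) * (n - b) ≤ (2 * d - K) * ((25 / 3) * b) :=
      mul_le_mul_of_nonneg_left (by linarith) (by linarith)
    have h17 : (2 * (d : ℝ) - K) * ((25 / 3) * b) ≤ ((1 / 50000) * d) * ((25 / 3) * b) :=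
      mul_le_mul_of_nonneg_right (by linarith) (by positivity)
    have h18 : 0 < (d : ℝ) * b := mul_pos hd0 hbpos
    linarith
  · intro v hv
    obtain ⟨hvA, hvW⟩ := Finset.mem_sdiff.1 hv
    by_contra hcon
    exact hvW (hBW (Finset.mem_filter.2 ⟨hvA, not_le.1 hcon⟩))
  · intro X hX
    have hXA : X ⊆ A := hX.trans Finset.sdiff_subset
    have hdis : Disjoint W X := by
      rw [Finset.disjoint_left]
      intro x hx hx'
      exact (Finset.mem_sdiff.1 (hX hx')).2 hx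
    have h1 := hWmin (W ∪ X) (Finset.mem_filter.2 ⟨Finset.mem_powerset.2
      (Finset.union_subset hWA hXA), hBW.trans Finset.subset_union_left⟩)
    rw [e2_union G hdis, Finset.card_union_of_disjoint hdis] at h1
    push_cast at h1
    rw [hAU]
    linarith

end MP892329.SF
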