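import Pool.Agent.Lib.MP_892329_co.SF.Col
import Pool.Agent.Lib.MP_892329_co.SF.Var
import Pool.Agent.Lib.MP_892329_co.SF.Exp

/-!
# Step: the induction. `(F1)` and `(F2)` imply that every finset of vertices has a proper colouring with `K` colours
-/

set_option autoImplicit false

namespace MP892329.SF

open Finset

/-- the list colouring property for the number `d` (the conclusion of `col`) -/
def ColProp (d : ℕ) : Prop :=
  ∀ (V : Type) [Fintype V] [DecidableEq V]
    (G : SimpleGraph V) (U : Finset V) (K : ℕ) (L : V → Finset (Fin K)), 0 < K →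
    (∀ x ∈ U, (8799 / 10000) * (d : ℝ) ≤ (L x).card) →
    (∀ x ∈ U, ((nb G U x).card : ℝ) ≤ (20002 / 10000) * d) →
    (∀ v ∈ U, (L v).card ≤ (nb G U v).card →
      ((nb G U v).card : ℝ) - (L v).card ≤ d / 5000 ∧
        (3 / 50) * (d : ℝ) ≤ out G U L v + pr G U L v) →
    ∃ f : V → Fin K, LCol G U L f

theorem exists_colProp : ∃ d0 : ℕ, ∀ d : ℕ, d0 ≤ d → ColProp d := col

variable {V : Type} [Fintype V] [DecidableEq V]

theorem step (d K : ℕ) (hd : 1000 ≤ d) (hK1 : (2 - 1 / 50000) * (d : ℝ) ≤ K)
    (hK2 : (K : ℝ) ≤ 2 * d) (hcol : ColProp d) (G : SimpleGraph V) (hF1 : F1 G d) (hF2 : F2 G d) :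
    ∀ A : Finset V, ∃ f : V → Fin K, ∀ x ∈ A, ∀ y ∈ A, G.Adj x y → f x ≠ f y := by
  classical
  have hdr : (1000 : ℝ) ≤ d := by exact_mod_cast hd
  have hKpos : 0 < K := by
    have h1 : (0 : ℝ) < K := by nlinarith
    exact_mod_cast h1
  intro A
  induction A using Finset.strongInduction with
  | H A ih =>
    rcases A.eq_empty_or_nonempty with hA | hA
    · subst hA
      exact ⟨fun _ => ⟨0, hKpos⟩, by simp⟩
    by_cases hlow : ∃ v ∈ A, (nb G A v).card < K
    · obtain ⟨v, hv, hvK⟩ := hlow
      obtain ⟨f, hf⟩ := ih (A.erase v) (erase_ssubset hv)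
      have h1 : ((nb G A v).image f).card < (univ : Finset (Fin K)).card := by
        rw [card_univ, Fintype.card_fin]
        exact lt_of_le_of_lt card_image_le hvK
      obtain ⟨c, -, hc⟩ := exists_mem_notMem_of_card_lt_card h1
      refine ⟨Function.update f v c, ?_⟩
      intro x hx y hy hxy
      by_cases hxv : x = v
      · subst hxv
        have hyx : y ≠ x := fun h => G.loopless.irrefl x (h ▸ hxy)
        rw [Function.update_self, Function.update_of_ne hyx]
        intro he
        exact hc (mem_image.2 ⟨y, mem_nb.2 ⟨hy, hxy⟩, he.symm⟩)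
      · by_cases hyv : y = v
        · subst hyv
          rw [Function.update_self, Function.update_of_ne hxv]
          intro he
          exact hc (mem_image.2 ⟨x, mem_nb.2 ⟨hx, hxy.symm⟩, he⟩)
        · rw [Function.update_of_ne hxv, Function.update_of_ne hyv]
          exact hf x (mem_erase.2 ⟨hxv, hx⟩) y (mem_erase.2 ⟨hyv, hy⟩) hxy
    · push_neg at hlow
      obtain ⟨U, hU, hUne, hmax, hstar⟩ := var G d K (by omega) hF1 A hA hlow hK1 hK2
      obtain ⟨f0, hf0⟩ := ih (A \ U) (by
        refine ⟨sdiff_subset, fun h => ?_⟩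
        obtain ⟨u, hu⟩ := hUne
        exact (mem_sdiff.1 (h (hU hu))).2 hu)
      have hLcard : ∀ x, K ≤ (univ \ (nb G (A \ U) x).image f0 : Finset (Fin K)).card +
          (nb G (A \ U) x).card := by
        intro x
        have h1 : (univ \ (nb G (A \ U) x).image f0 : Finset (Fin K)).card =
            K - ((nb G (A \ U) x).image f0).card := by
          rw [card_sdiff_of_subset (subset_univ _), card_univ, Fintype.card_fin]
        have h2 : ((nb G (A \ U) x).image f0).card ≤ (nb G (A \ U) x).card := card_image_le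
        omega
      have hb : ∀ x ∈ U, ((nb G (A \ U) x).card : ℝ) ≤ (28 / 25) * d := by
        intro x hx
        have h1 := hstar {x} (singleton_subset_iff.2 hx)
        have h2 : (0 : ℝ) ≤ (e2 G {x} : ℝ) := Nat.cast_nonneg _
        simp only [sum_singleton, card_singleton, Nat.cast_one, mul_one] at h1
        linarith
      have hadd : ∀ x, ((nb G A x).card : ℝ) = (nb G U x).card + (nb G (A \ U) x).card := by
        intro x
        exact_mod_cast card_nb_sdiff G hU x
      obtain ⟨f1, hf1, hf2⟩ := hcol V G U K (fun x => univ \ (nb G (A \ U) x).image f0) hKpos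
        (by
          intro x hx
          have h1 : (K : ℝ) ≤ (univ \ (nb G (A \ U) x).image f0 : Finset (Fin K)).card +
            (nb G (A \ U) x).card := by exact_mod_cast hLcard x
          have h2 := hb x hx
          linarith)
        (by
          intro x hx
          have h1 := hmax x hx
          have h2 := hadd x
          have h3 : (0 : ℝ) ≤ ((nb G (A \ U) x).card : ℝ) := Nat.cast_nonneg _
          linarith)
        (by
          intro v hv hcr
          refine ⟨?_, expect G d hd hF2 hK1 hK2 A U hU hlow hmax hstar _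
            (fun x _ => hLcard x) v hv hcr⟩
          have h1 : (K : ℝ) ≤ (univ \ (nb G (A \ U) v).image f0 : Finset (Fin K)).card +
            (nb G (A \ U) v).card := by exact_mod_cast hLcard v
          have h2 := hmax v hv
          have h3 := hadd v
          linarith)
      refine ⟨fun x => if x ∈ U then f1 x else f0 x, ?_⟩
      intro x hx y hy hxy
      by_cases hxU : x ∈ U
      · by_cases hyU : y ∈ U
        · simp only [hxU, hyU, if_true]
          exact hf2 x hxU y hyU hxy
        · simp only [hxU, hyU, if_true, if_false]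
          intro he
          have h1 := (mem_sdiff.1 (hf1 x hxU)).2
          exact h1 (mem_image.2 ⟨y, mem_nb.2 ⟨mem_sdiff.2 ⟨hy, hyU⟩, hxy⟩, he.symm⟩)
      · by_cases hyU : y ∈ U
        · simp only [hxU, hyU, if_true, if_false]
          intro he
          have h1 := (mem_sdiff.1 (hf1 y hyU)).2
          exact h1 (mem_image.2 ⟨x, mem_nb.2 ⟨mem_sdiff.2 ⟨hx, hxU⟩, hxy.symm⟩, he⟩)
        · simp only [hxU, hyU, if_false]
          exact hf0 x (mem_sdiff.2 ⟨hx, hxU⟩) y (mem_sdiff.2 ⟨hy, hyU⟩) hxy

end MP892329.SF
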