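import Pool.Agent.Lib.MP_892329_co.SF.Dec

/-!
# Definitions for the random colouring (complete, no job here)

`ω : V → Fin M` is a uniform random function, the random colour of `x` is `dec x (ω x)`.
-/

set_option autoImplicit false

namespace MP892329.SF

open Finset

variable {V : Type} [Fintype V] [DecidableEq V] {K M : ℕ}

/-- the neighbours of `v` (in `U`) whose random colour is `c` -/
noncomputable def Sel (G : SimpleGraph V) (U : Finset V) (dec : V → Fin M → Option (Fin K)) (v : V)
    (ω : V → Fin M) (c : Fin K) : Finset V :=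
  (nb G U v).filter (fun x => dec x (ω x) = some c)

/-- the tokens of `v`: colours outside `L v` chosen by exactly one neighbour, and colours of `L v` chosen by exactly two neighbours, which are not adjacent -/
noncomputable def Tok (G : SimpleGraph V) (U : Finset V) (L : V → Finset (Fin K)) (dec : V → Fin M → Option (Fin K)) (v : V)
    (ω : V → Fin M) : Finset (Fin K) := by
  classical exact
  univ.filter (fun c => (∀ x ∈ Sel G U dec v ω c, ∀ y ∈ Sel G U dec v ω c, ¬ G.Adj x y) ∧
    ((c ∉ L v ∧ (Sel G U dec v ω c).card = 1) ∨ (c ∈ L v ∧ (Sel G U dec v ω c).card = 2)))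

/-- the surviving tokens: no vertex `w` of `U` outside the neighbourhood of `v` with the same random colour is adjacent to the token's vertices -/
noncomputable def Sur (G : SimpleGraph V) (U : Finset V) (L : V → Finset (Fin K)) (dec : V → Fin M → Option (Fin K)) (v : V)
    (ω : V → Fin M) : Finset (Fin K) := by
  classical exact
  (Tok G U L dec v ω).filter (fun c => ∀ w ∈ U \ nb G U v, dec w (ω w) = some c →
    ∀ x ∈ Sel G U dec v ω c, ¬ G.Adj w x)

/-- the values of `ω w` for which `w` destroys a token -/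
noncomputable def Bad (G : SimpleGraph V) (U : Finset V) (L : V → Finset (Fin K)) (dec : V → Fin M → Option (Fin K)) (v : V)
    (ω : V → Fin M) (w : V) : Finset (Fin M) := by
  classical exact
  if w ∈ U \ nb G U v then
    univ.filter (fun j => ∃ c ∈ Tok G U L dec v ω, dec w j = some c ∧ ∃ x ∈ Sel G U dec v ω c, G.Adj w x)
  else ∅

theorem mem_Sel {G : SimpleGraph V} {U : Finset V} {dec : V → Fin M → Option (Fin K)} {v : V}
    {ω : V → Fin M} {c : Fin K} {x : V} :
    x ∈ Sel G U dec v ω c ↔ x ∈ nb G U v ∧ dec x (ω x) = some c := by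
  simp [Sel]

theorem mem_Tok {G : SimpleGraph V} {U : Finset V} {L : V → Finset (Fin K)} {dec : V → Fin M → Option (Fin K)} {v : V}
    {ω : V → Fin M} {c : Fin K} :
    c ∈ Tok G U L dec v ω ↔ (∀ x ∈ Sel G U dec v ω c, ∀ y ∈ Sel G U dec v ω c, ¬ G.Adj x y) ∧
    ((c ∉ L v ∧ (Sel G U dec v ω c).card = 1) ∨ (c ∈ L v ∧ (Sel G U dec v ω c).card = 2)) := by
  simp [Tok]

theorem mem_Sur {G : SimpleGraph V} {U : Finset V} {L : V → Finset (Fin K)} {dec : V → Fin M → Option (Fin K)} {v : V}
    {ω : V → Fin M} {c : Fin K} :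
    c ∈ Sur G U L dec v ω ↔ c ∈ Tok G U L dec v ω ∧ ∀ w ∈ U \ nb G U v, dec w (ω w) = some c →
    ∀ x ∈ Sel G U dec v ω c, ¬ G.Adj w x := by
  simp [Sur]

theorem mem_Bad {G : SimpleGraph V} {U : Finset V} {L : V → Finset (Fin K)} {dec : V → Fin M → Option (Fin K)} {v : V}
    {ω : V → Fin M} {w : V} {j : Fin M} :
    j ∈ Bad G U L dec v ω w ↔ w ∈ U \ nb G U v ∧
      ∃ c ∈ Tok G U L dec v ω, dec w j = some c ∧ ∃ x ∈ Sel G U dec v ω c, G.Adj w x := by
  classical
  unfold Bad
  split_ifs with h
  · simp [h]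
  · simp [h]

/-- the coordinates which determine the surviving tokens of `v` -/
noncomputable def Cs (G : SimpleGraph V) (U : Finset V) (v : V) : Finset V :=
  nb G U v ∪ (nb G U v).biUnion (fun x => nb G U x)

end MP892329.SF
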